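/-
MP_85545d : ellipses and circles of periodic points (definitions of the statements).
-/
import Mathlib
import Pool.Agent.H46.BL.Defs
import Pool.Agent.H46.BL.Dfb

set_option autoImplicit false

namespace Pool.Agent.H50.BQ

open Pool.Agent.H46.BL

noncomputable section

/-- the boundary of the table is an ellipse (a circle if `a = b`) -/
def Ellipse (T : Table) : Prop :=
  ∃ (o : ℂ) (a b φ : ℝ), 0 < a ∧ 0 < b ∧ frontier T.Y =
    {q : ℂ | ((q - o) * ex (-φ)).re ^ 2 / a ^ 2 + ((q - o) * ex (-φ)).im ^ 2 / b ^ 2 = 1}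

/-- The billiard map has an invariant circle (the graph of `g`) that consists of periodic points of rotation number
`p / q`: every orbit on it closes after `q` bounces and `p` turns. -/
def Circle (T : Table) (p q : ℕ) : Prop :=
  ∃ g : ℝ → ℝ, T.Leaf g ∧ ∀ s, ∃ x : ℕ → ℝ, x 0 = s ∧
    (∀ i, T.Bounce (x i) (g (x i)) (x (i + 1)) (g (x (i + 1)))) ∧ x q = s + p * T.L

end

end Pool.Agent.H50.BQ
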