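/-
MP_85545d : billiards whose invariant circles fill the region up to rotation number 1/3.
Definitions in boundary coordinates.
-/
import Mathlib
import Pool.Agent.H46.BL.Defs
import Pool.Agent.H46.BL.Dfb
import Pool.Agent.H1.BP.Defs
import Pool.Agent.H50.BQ.Dst

set_option autoImplicit false

namespace Pool.Agent.H50.BQ

open Set Filter Topology Pool.Agent.H46.BL
open scoped ContDiff

noncomputable section

/-- the graph of `g` is an invariant circle of the billiard map, and `f` is the billiard map on it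
(on boundary parameters) -/
structure Lf (T : Table) (g f : ℝ → ℝ) : Prop where
  leaf : T.Leaf g
  cont : Continuous f
  mono : StrictMono f
  surj : Function.Surjective f
  bou : ∀ s, T.Bounce s (g s) (f s) (g (f s))

/-- `A` is the string constant of the invariant circle -/
def Str (T : Table) (g f : ℝ → ℝ) (A : ℝ) : Prop :=
  ∀ s s', s < s' → s' < s + T.L →
    ‖T.γ s' - T.γ s‖ - (∫ x in s..s', Real.cos (g x)) ≤ A ∧
    (‖T.γ s' - T.γ s‖ - (∫ x in s..s', Real.cos (g x)) = A ↔ s' = f s)

/-- the distribution function of `cos g - cos g'` -/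
def phi (g g' : ℝ → ℝ) (t : ℝ) : ℝ := ∫ x in (0 : ℝ)..t, (Real.cos (g x) - Real.cos (g' x))

/-- a smooth first integral of the billiard map -/
structure Wint (T : Table) (W : ℝ → ℝ → ℝ) : Prop where
  smooth : ContDiff ℝ ∞ (fun z : ℝ × ℝ => W z.1 z.2)
  per : ∀ s θ, W (s + T.L) θ = W s θ
  inv : ∀ s θ s' θ', T.Bounce s θ s' θ' → W s θ = W s' θ'

/-- a level graph at the level `c` that winds slower than 1/3, with `W` increasing in the angle below it -/
structure Gd (T : Table) (W : ℝ → ℝ → ℝ) (c : ℝ) (g f : ℝ → ℝ) : Prop where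
  lf : Lf T g f
  lev : ∀ s, W s (g s) = c
  rot : ∀ s, f (f (f s)) < s + T.L
  pos : ∀ s θ, 0 < θ → θ ≤ g s → 0 < deriv (W s) θ

/-- `h` is the support function of the table, and `σ ψ` the boundary parameter of the point with outer normal
angle `ψ` -/
structure Sf (T : Table) (h σ : ℝ → ℝ) : Prop where
  supp : Pool.Agent.H1.BP.Supp h
  mono : StrictMono σ
  cont : Continuous σ
  surj : Function.Surjective σ
  tau : ∀ ψ, T.τ (σ ψ) = ψ + Real.pi / 2
  inv : ∀ s, σ (T.τ s - Real.pi / 2) = s
  gam : ∀ ψ, T.γ (σ ψ) = (((h ψ : ℝ) : ℂ) + ((deriv h ψ : ℝ) : ℂ) * Complex.I) * ex ψ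

end

end Pool.Agent.H50.BQ
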