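/-
ROW Lfb.  Basic facts about invariant circles in boundary coordinates.  (T has positive curvature: hκ.)
Tools: H46/BL: Per_next (uniqueness of the next bounce), angles_unique, angle_lt, angle_mono_left, exists_angles, leaf_map,
leaf_max, curv_bounds, Ang_mono (τ strictly increasing).
(1) bounce_add: unfold Table.Bounce, T.periodic, T.turning.   bounce_addz: integer multiples; induction on k (Int.induction_on), or do
    natural multiples first and get the negative ones from the converse of bounce_add (also provable by unfolding).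
(2) lf_exists = leaf_map.  lo, hi: from bou.   tau: from bou: τ (f s) = τ s + g s + g (f s).
(3) add: bounce_add (bou s) gives Bounce (s+L) (g s) (f s + L) _, g (s+L) = g s, and Per_next.  addz by induction.  it_addz: induction on n.
    it_mono: StrictMono.iterate.   it_cont: Continuous.iterate.
(4) next: Per_next and angles_unique.   prev: hb : Bounce s θ s' (g s').  By surjectivity f s1 = s'; Bounce s1 (g s1) s' (g s').
    If s < s1: angle_lt gives g s' < g s', contradiction; the same for s1 < s.  So s1 = s; angles_unique gives θ = g s.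
(5) dir: let s < t.  If t < f s: exists_angles gives Bounce t θ (f s) θ' (f s < s + L < t + L).  angle_lt (s < t, both ending at f s): θ' < g (f s), so
    τ t + θ = τ (f s) - θ' > τ (f s) - g (f s) = τ s + g s; angle_mono_left (from t, f s < f t) : θ < g t.  So τ s + g s < τ t + g t.
    If f s ≤ t: τ s + g s = τ (f s) - g (f s) < τ (f s) ≤ τ t < τ t + g t.
    dir': s = f a, t = f b with a < b (surj, mono), and τ (f a) - g (f a) = τ a + g a.
(6) leaf_lip: from dir and dir'.   tau_lip: curv_bounds and the mean value theorem (monotone case: Convex.image_sub_le_mul_sub_of_deriv_le or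
    Convex.norm_image_sub_le_of_norm_deriv_le).
(7) lt_iff: →: g s < g' s; if f' s ≤ f s: in case < angle_mono_left gives g' s < g s, in case = angles_unique.  ←: angle_mono_left.
    eq_iff: → Per_next; ← angles_unique.  le_of_le from these.  it_le: induction / Monotone.iterate_le_of_le.
(8) str: leaf_max.
-/
import Mathlib
import Pool.Agent.H46.BL.Cmp
import Pool.Agent.H46.BL.Lef
import Pool.Agent.H46.BL.Per
import Pool.Agent.H50.BQ.Defs

set_option autoImplicit false

namespace Pool.Agent.H50.BQ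

open Set Filter Topology Pool.Agent.H46.BL

variable {T : Table}

theorem bounce_add {s θ s' θ' : ℝ} (h : T.Bounce s θ s' θ') : T.Bounce (s + T.L) θ (s' + T.L) θ' := by
  obtain ⟨h1, h2, h3, h4, h5, ℓ, hℓ, h6⟩ := h
  refine ⟨h1, h2, by linarith, by linarith, ?_, ℓ, hℓ, ?_⟩
  · rw [T.turning, T.turning]
    linarith
  · rw [T.periodic, T.periodic, T.turning, h6,
      show T.τ s + 2 * Real.pi + θ = T.τ s + θ + 2 * Real.pi by ring, ex_two_pi]

private theorem bounce_sub {s θ s' θ' : ℝ} (h : T.Bounce (s + T.L) θ (s' + T.L) θ') : T.Bounce s θ s' θ' := by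
  obtain ⟨h1, h2, h3, h4, h5, ℓ, hℓ, h6⟩ := h
  rw [T.turning, T.turning] at h5
  rw [T.periodic, T.periodic, T.turning,
      show T.τ s + 2 * Real.pi + θ = T.τ s + θ + 2 * Real.pi by ring, ex_two_pi] at h6
  exact ⟨h1, h2, by linarith, by linarith, by linarith, ℓ, hℓ, h6⟩

theorem bounce_addz {s θ s' θ' : ℝ} (h : T.Bounce s θ s' θ') (k : ℤ) :
    T.Bounce (s + k * T.L) θ (s' + k * T.L) θ' := by
  induction k using Int.induction_on with
  | zero => simpa using h
  | succ i ih =>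
    have h1 := bounce_add ih
    rw [show s + ((i : ℤ) : ℝ) * T.L + T.L = s + (((i : ℤ) + 1 : ℤ) : ℝ) * T.L by push_cast; ring,
      show s' + ((i : ℤ) : ℝ) * T.L + T.L = s' + (((i : ℤ) + 1 : ℤ) : ℝ) * T.L by push_cast; ring] at h1
    exact h1
  | pred i ih =>
    apply bounce_sub
    rw [show s + ((-(i : ℤ) - 1 : ℤ) : ℝ) * T.L + T.L = s + ((-(i : ℤ) : ℤ) : ℝ) * T.L by push_cast; ring,
      show s' + ((-(i : ℤ) - 1 : ℤ) : ℝ) * T.L + T.L = s' + ((-(i : ℤ) : ℤ) : ℝ) * T.L by push_cast; ring]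
    exact ih

theorem leaf_addz {g : ℝ → ℝ} (hg : T.Leaf g) (s : ℝ) (k : ℤ) : g (s + k * T.L) = g s := by
  have h : Function.Periodic g T.L := hg.per
  exact h.int_mul k s

theorem lf_exists (hκ : ∀ s, 0 < deriv T.τ s) {g : ℝ → ℝ} (hg : T.Leaf g) : ∃ f, Lf T g f := by
  obtain ⟨f, h1, h2, h3, h4⟩ := leaf_map T hκ hg
  exact ⟨f, hg, h1, h2, h3, h4⟩

theorem Lf.lo {g f : ℝ → ℝ} (h : Lf T g f) (s : ℝ) : s < f s := (h.bou s).2.2.1

theorem Lf.hi {g f : ℝ → ℝ} (h : Lf T g f) (s : ℝ) : f s < s + T.L := (h.bou s).2.2.2.1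

theorem Lf.tau {g f : ℝ → ℝ} (h : Lf T g f) (s : ℝ) : T.τ (f s) - g (f s) = T.τ s + g s := by
  have h1 := (h.bou s).2.2.2.2.1
  linarith

private theorem lfb_next (hκ : ∀ s, 0 < deriv T.τ s) {g f : ℝ → ℝ} (h : Lf T g f) {s s' θ' : ℝ}
    (hb : T.Bounce s (g s) s' θ') : s' = f s ∧ θ' = g s' :=
  ⟨Per_next T hκ hb (h.bou s), (h.leaf.inv _ _ _ _ hb).1 rfl⟩

theorem Lf.addz (hκ : ∀ s, 0 < deriv T.τ s) {g f : ℝ → ℝ} (h : Lf T g f) (s : ℝ) (k : ℤ) :
    f (s + k * T.L) = f s + k * T.L := by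
  have h1 := bounce_addz (h.bou s) k
  rw [← leaf_addz h.leaf s k] at h1
  exact (lfb_next hκ h h1).1.symm

theorem Lf.it_mono {g f : ℝ → ℝ} (h : Lf T g f) (n : ℕ) : StrictMono f^[n] := h.mono.iterate n

theorem Lf.it_cont {g f : ℝ → ℝ} (h : Lf T g f) (n : ℕ) : Continuous f^[n] := h.cont.iterate n

theorem Lf.it_addz (hκ : ∀ s, 0 < deriv T.τ s) {g f : ℝ → ℝ} (h : Lf T g f) (n : ℕ) (s : ℝ) (k : ℤ) :
    f^[n] (s + k * T.L) = f^[n] s + k * T.L := by
  induction n with
  | zero => rfl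
  | succ n ih =>
    rw [Function.iterate_succ_apply', Function.iterate_succ_apply', ih, h.addz hκ]

theorem Lf.next (hκ : ∀ s, 0 < deriv T.τ s) {g f : ℝ → ℝ} (h : Lf T g f) {s s' θ' : ℝ}
    (hb : T.Bounce s (g s) s' θ') : s' = f s ∧ θ' = g s' :=
  lfb_next hκ h hb

theorem Lf.prev (hκ : ∀ s, 0 < deriv T.τ s) {g f : ℝ → ℝ} (h : Lf T g f) {s θ s' : ℝ}
    (hb : T.Bounce s θ s' (g s')) : s' = f s ∧ θ = g s := by
  have h1 : θ = g s := (h.leaf.inv _ _ _ _ hb).2 rfl
  subst h1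
  exact ⟨(lfb_next hκ h hb).1, rfl⟩

theorem Lf.dir (hκ : ∀ s, 0 < deriv T.τ s) {g f : ℝ → ℝ} (h : Lf T g f) :
    StrictMono fun s => T.τ s + g s := by
  intro s t hst
  show T.τ s + g s < T.τ t + g t
  have h0 := h.tau s
  rcases lt_or_ge t (f s) with ht | ht
  · obtain ⟨θ, θ', hb⟩ := exists_angles T hκ ht (by linarith [h.hi s])
    have h1 := angle_lt T hκ hst (h.bou s) hb
    have h2 := angle_mono_left T hκ (h.mono hst) hb (h.bou t)
    have h3 := hb.2.2.2.2.1
    linarith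
  · have h1 := (Ang_mono T hκ).monotone ht
    have h2 := (h.leaf.mem (f s)).1
    have h3 := (h.leaf.mem t).1
    linarith

theorem Lf.dir' (hκ : ∀ s, 0 < deriv T.τ s) {g f : ℝ → ℝ} (h : Lf T g f) :
    StrictMono fun s => T.τ s - g s := by
  intro s t hst
  show T.τ s - g s < T.τ t - g t
  obtain ⟨a, rfl⟩ := h.surj s
  obtain ⟨b, rfl⟩ := h.surj t
  have hab : a < b := h.mono.lt_iff_lt.1 hst
  rw [h.tau, h.tau]
  exact h.dir hκ hab

theorem leaf_lip (hκ : ∀ s, 0 < deriv T.τ s) {g : ℝ → ℝ} (hg : T.Leaf g) (s s' : ℝ) :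
    |g s - g s'| ≤ |T.τ s - T.τ s'| := by
  obtain ⟨f, h⟩ := lf_exists hκ hg
  have key : ∀ a b : ℝ, a ≤ b → |g a - g b| ≤ |T.τ a - T.τ b| := by
    intro a b hab
    have h1 : T.τ a + g a ≤ T.τ b + g b := (h.dir hκ).monotone hab
    have h2 : T.τ a - g a ≤ T.τ b - g b := (h.dir' hκ).monotone hab
    have h3 := (Ang_mono T hκ).monotone hab
    rw [abs_of_nonpos (by linarith : T.τ a - T.τ b ≤ 0), abs_le]
    constructor <;> linarith
  rcases le_total s s' with hs | hs
  · exact key s s' hs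
  · have h1 := key s' s hs
    rw [abs_sub_comm, abs_sub_comm (T.τ s)]
    exact h1

theorem tau_lip (hκ : ∀ s, 0 < deriv T.τ s) : ∃ K : ℝ, 0 < K ∧ ∀ s s', |T.τ s - T.τ s'| ≤ K * |s - s'| := by
  obtain ⟨k, K, hk, h⟩ := curv_bounds T hκ
  refine ⟨K, hk.trans_le ((h 0).1.trans (h 0).2), fun s s' => ?_⟩
  have h1 := Convex.norm_image_sub_le_of_norm_deriv_le (𝕜 := ℝ) (f := T.τ) (C := K) (s := univ) (x := s') (y := s)
    (fun x _ => Cmp_diff T x) (fun x _ => by
      rw [Real.norm_eq_abs, abs_of_pos (hκ x)]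
      exact (h x).2) convex_univ (mem_univ _) (mem_univ _)
  rw [Real.norm_eq_abs, Real.norm_eq_abs] at h1
  exact h1

theorem Lf.lt_iff (hκ : ∀ s, 0 < deriv T.τ s) {g f g' f' : ℝ → ℝ} (h : Lf T g f) (h' : Lf T g' f') (s : ℝ) :
    g s < g' s ↔ f s < f' s := by
  constructor
  · intro hg
    by_contra hn
    rcases (not_lt.1 hn).lt_or_eq with hf | hf
    · exact absurd (angle_mono_left T hκ hf (h'.bou s) (h.bou s)) (not_lt.2 hg.le)
    · have h2 := h'.bou s
      rw [hf] at h2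
      exact hg.ne (angles_unique T (h.bou s) h2).1
  · intro hf
    exact angle_mono_left T hκ hf (h.bou s) (h'.bou s)

theorem Lf.eq_iff (hκ : ∀ s, 0 < deriv T.τ s) {g f g' f' : ℝ → ℝ} (h : Lf T g f) (h' : Lf T g' f') (s : ℝ) :
    g s = g' s ↔ f s = f' s := by
  constructor
  · intro hg
    have h2 := h'.bou s
    rw [← hg] at h2
    exact Per_next T hκ (h.bou s) h2
  · intro hf
    have h2 := h'.bou s
    rw [← hf] at h2
    exact (angles_unique T (h.bou s) h2).1

theorem Lf.le_of_le (hκ : ∀ s, 0 < deriv T.τ s) {g f g' f' : ℝ → ℝ} (h : Lf T g f) (h' : Lf T g' f')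
    (hle : ∀ s, g s ≤ g' s) (s : ℝ) : f s ≤ f' s := by
  rcases (hle s).lt_or_eq with hs | hs
  · exact ((h.lt_iff hκ h' s).1 hs).le
  · exact ((h.eq_iff hκ h' s).1 hs).le

theorem Lf.it_le (hκ : ∀ s, 0 < deriv T.τ s) {g f g' f' : ℝ → ℝ} (h : Lf T g f) (h' : Lf T g' f')
    (hle : ∀ s, g s ≤ g' s) (n : ℕ) (s : ℝ) : f^[n] s ≤ f'^[n] s := by
  induction n with
  | zero => exact le_rfl
  | succ n ih =>
    rw [Function.iterate_succ_apply', Function.iterate_succ_apply']
    exact (h.mono.monotone ih).trans (h.le_of_le hκ h' hle _)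

theorem Lf.str (hκ : ∀ s, 0 < deriv T.τ s) {g f : ℝ → ℝ} (h : Lf T g f) : ∃ A, Str T g f A :=
  leaf_max T hκ h.leaf h.cont h.mono h.surj h.bou

end Pool.Agent.H50.BQ
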