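/-
ROW Lim.  A function that is two-point approximable by invariant circles is an invariant circle; sup and inf of chains.
PROOF.
(1) leaf_of_fwd.  S = the continuous next-bounce function of exists_next.  F s := S s (g s), continuous, s < F s < s + T.L, so F is surjective
    (Continuous.surjective, tendsto_atTop_mono ..., as in leaf_map in H46/BL/Lef.lean).  Let Bounce s θ s' θ'.  If θ = g s then θ' = g s' by hf.
    If θ' = g s': pick s1 with F s1 = s'; then Bounce s1 (g s1) s' θ1' (exists_next) and θ1' = g s' (hf).  If s < s1 or s1 < s then angle_lt gives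
    g s' < g s': contradiction.  So s1 = s and angles_unique gives θ = g s.
(2) leaf_of_approx.  * Lipschitz: |g s - g s'| <= |τ s - τ s'| (from leaf_lip for G and eps -> 0), so g is continuous (τ is continuous).
    * periodic: s' = s + L, G (s+L) = G s.
    * forward invariance: Bounce s (g s) s' θ'.  For each eps > 0 take G = G_eps for (s, s', eps); with s_G = S s (G s), θ_G = τ (s_G) - τ s - G s:
      Bounce s (G s) s_G θ_G, so θ_G = G s_G (G is a leaf).  Let eps -> 0 (eps = 1/(n+1), choose G_n): G_n s -> g s, s_n := S s (G_n s) -> S s (g s) = s'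
      (continuity; Per_next), θ_n -> τ s' - τ s - g s = θ' (Bounce), and |G_n s_n - G_n s'| <= |τ s_n - τ s'| -> 0, G_n s' -> g s'.  So θ' = g s'.
    Then leaf_of_fwd.
(3) leaf_sup: g s = sSup of the values; the set of values at s is nonempty and bounded above by b s; g s >= G s > 0 and g s <= b s < pi.
    Two-point approximation: exists_lt_of_lt_csSup at s and s' gives G1, G2 in 𝓕; the larger one of the two works at both points
    (G s <= g s always).  leaf_inf the same.
-/
import Mathlib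
import Pool.Agent.H50.BQ.Lfb

set_option autoImplicit false

namespace Pool.Agent.H50.BQ

open Set Filter Topology Pool.Agent.H46.BL

variable {T : Table}

theorem leaf_of_fwd (hκ : ∀ s, 0 < deriv T.τ s) {g : ℝ → ℝ} (hc : Continuous g)
    (hp : ∀ s, g (s + T.L) = g s) (hm : ∀ s, g s ∈ Ioo 0 Real.pi)
    (hf : ∀ s s' θ', T.Bounce s (g s) s' θ' → θ' = g s') : T.Leaf g := by
  obtain ⟨S, hSc, hS⟩ := exists_next T hκ
  have hB : ∀ s, T.Bounce s (g s) (S s (g s)) (g (S s (g s))) := by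
    intro s
    have h1 := hS s (g s) (hm s)
    have h2 := hf _ _ _ h1
    rw [h2] at h1
    exact h1
  have hFc : Continuous fun s => S s (g s) := by
    rw [← continuousOn_univ]
    exact hSc.comp (continuous_id.prodMk hc).continuousOn (fun s _ => ⟨mem_univ _, hm s⟩)
  have hgt : ∀ s, s < S s (g s) := fun s => (hB s).2.2.1
  have hlt : ∀ s, S s (g s) < s + T.L := fun s => (hB s).2.2.2.1
  have hsurj : Function.Surjective fun s => S s (g s) := by
    apply hFc.surjective
    · exact tendsto_atTop_mono (fun s => (hgt s).le) tendsto_id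
    · exact tendsto_atBot_mono (fun s => (hlt s).le) (tendsto_atBot_add_const_right _ _ tendsto_id)
  refine ⟨hc, hp, hm, ?_⟩
  intro s θ s' θ' hb
  constructor
  · intro h
    rw [h] at hb
    exact hf _ _ _ hb
  · intro h
    rw [h] at hb
    obtain ⟨s1, hs1⟩ := hsurj s'
    have h1 := hB s1
    have hs1' : S s1 (g s1) = s' := hs1
    rw [hs1'] at h1
    rcases lt_trichotomy s s1 with hlt' | heq | hgt'
    · exact absurd (angle_lt T hκ hlt' hb h1) (lt_irrefl _)
    · subst heq
      exact (angles_unique T hb h1).1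
    · exact absurd (angle_lt T hκ hgt' h1 hb) (lt_irrefl _)

theorem leaf_of_approx (hκ : ∀ s, 0 < deriv T.τ s) {g : ℝ → ℝ} (hm : ∀ s, g s ∈ Ioo 0 Real.pi)
    (ha : ∀ s s' ε, 0 < ε → ∃ G, T.Leaf G ∧ |G s - g s| < ε ∧ |G s' - g s'| < ε) : T.Leaf g := by
  obtain ⟨S, hSc, hS⟩ := exists_next T hκ
  have hτc : Continuous T.τ := T.smooth.continuous
  have hlip : ∀ s s', |g s - g s'| ≤ |T.τ s - T.τ s'| := by
    intro s s'
    apply le_of_forall_pos_le_add
    intro ε hε
    obtain ⟨G, hG1, hG2, hG3⟩ := ha s s' (ε / 2) (by positivity)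
    have h1 := leaf_lip hκ hG1 s s'
    have h2 : g s - g s' = -(G s - g s) + (G s - G s') + (G s' - g s') := by ring
    rw [h2]
    have h3 := abs_add_le (-(G s - g s) + (G s - G s')) (G s' - g s')
    have h4 := abs_add_le (-(G s - g s)) (G s - G s')
    rw [abs_neg] at h4
    linarith
  have hc : Continuous g := by
    rw [continuous_iff_continuousAt]
    intro s0
    show Tendsto g (𝓝 s0) (𝓝 (g s0))
    rw [tendsto_iff_dist_tendsto_zero]
    have h1 : Tendsto (fun s => dist (T.τ s) (T.τ s0)) (𝓝 s0) (𝓝 0) :=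
      tendsto_iff_dist_tendsto_zero.1 (hτc.tendsto s0)
    exact squeeze_zero (fun _ => dist_nonneg) (fun s => hlip s s0) h1
  have hp : ∀ s, g (s + T.L) = g s := by
    intro s
    have h0 : |g (s + T.L) - g s| ≤ 0 := by
      apply le_of_forall_pos_le_add
      intro ε hε
      obtain ⟨G, hG1, hG2, hG3⟩ := ha s (s + T.L) (ε / 2) (by positivity)
      rw [hG1.per s] at hG3
      have h2 : g (s + T.L) - g s = -(G s - g (s + T.L)) + (G s - g s) := by ring
      rw [h2]
      have h4 := abs_add_le (-(G s - g (s + T.L))) (G s - g s)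
      rw [abs_neg] at h4
      linarith
    have h1 := abs_eq_zero.1 (le_antisymm h0 (abs_nonneg _))
    linarith
  refine leaf_of_fwd hκ hc hp hm ?_
  intro s s' θ' hb
  choose G hG1 hG2 hG3 using fun n : ℕ => ha s s' (1 / ((n : ℝ) + 1)) (by positivity)
  have e0 : Tendsto (fun n : ℕ => 1 / ((n : ℝ) + 1)) atTop (𝓝 0) :=
    tendsto_one_div_add_atTop_nhds_zero_nat
  have t1 : Tendsto (fun n => G n s) atTop (𝓝 (g s)) := by
    rw [tendsto_iff_dist_tendsto_zero]
    exact squeeze_zero (fun _ => dist_nonneg) (fun n => (hG2 n).le) e0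
  have t2 : Tendsto (fun n => G n s') atTop (𝓝 (g s')) := by
    rw [tendsto_iff_dist_tendsto_zero]
    exact squeeze_zero (fun _ => dist_nonneg) (fun n => (hG3 n).le) e0
  have hSs : S s (g s) = s' := Per_next T hκ (hS s (g s) (hm s)) hb
  have t3 : Tendsto (fun n => S s (G n s)) atTop (𝓝 s') := by
    have h1 : ContinuousAt (fun z : ℝ × ℝ => S z.1 z.2) (s, g s) :=
      hSc.continuousAt (IsOpen.mem_nhds (isOpen_univ.prod isOpen_Ioo) ⟨mem_univ _, hm s⟩)
    have h2 : Tendsto (fun n => ((s, G n s) : ℝ × ℝ)) atTop (𝓝 (s, g s)) :=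
      tendsto_const_nhds.prodMk_nhds t1
    have h3 := h1.tendsto.comp h2
    rw [← hSs]
    exact h3
  have hval : ∀ n, T.τ (S s (G n s)) - T.τ s - G n s = G n (S s (G n s)) := by
    intro n
    exact ((hG1 n).inv _ _ _ _ (hS s (G n s) ((hG1 n).mem s))).1 rfl
  have t4 : Tendsto (fun n => T.τ (S s (G n s))) atTop (𝓝 (T.τ s')) :=
    (hτc.tendsto s').comp t3
  have t5 : Tendsto (fun n => G n (S s (G n s))) atTop (𝓝 (g s')) := by
    have h1 : Tendsto (fun n => G n (S s (G n s)) - G n s') atTop (𝓝 0) := by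
      rw [tendsto_zero_iff_abs_tendsto_zero]
      have h2 : Tendsto (fun n => |T.τ (S s (G n s)) - T.τ s'|) atTop (𝓝 0) := by
        have h3 := (t4.sub_const (T.τ s')).abs
        rw [sub_self, abs_zero] at h3
        exact h3
      exact squeeze_zero (fun _ => abs_nonneg _) (fun n => leaf_lip hκ (hG1 n) _ _) h2
    have h3 := h1.add t2
    rw [zero_add] at h3
    refine h3.congr fun n => ?_
    ring
  have t6 : Tendsto (fun n => G n (S s (G n s))) atTop (𝓝 (T.τ s' - T.τ s - g s)) := by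
    refine ((t4.sub_const (T.τ s)).sub t1).congr fun n => ?_
    exact hval n
  have h7 := tendsto_nhds_unique t5 t6
  have h8 : T.τ s' = T.τ s + g s + θ' := hb.2.2.2.2.1
  linarith

theorem leaf_sup (hκ : ∀ s, 0 < deriv T.τ s) {F : Set (ℝ → ℝ)} (hne : F.Nonempty)
    (hl : ∀ G ∈ F, T.Leaf G) (ht : ∀ G ∈ F, ∀ G' ∈ F, (∀ s, G s ≤ G' s) ∨ (∀ s, G' s ≤ G s))
    {b : ℝ → ℝ} (hb : ∀ s, b s < Real.pi) (hle : ∀ G ∈ F, ∀ s, G s ≤ b s) :
    T.Leaf fun s => sSup ((fun G : ℝ → ℝ => G s) '' F) := by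
  have hbdd : ∀ s, BddAbove ((fun G : ℝ → ℝ => G s) '' F) := by
    intro s
    refine ⟨b s, ?_⟩
    rintro _ ⟨G, hG, rfl⟩
    exact hle G hG s
  have hup : ∀ G ∈ F, ∀ s, G s ≤ sSup ((fun G : ℝ → ℝ => G s) '' F) := by
    intro G hG s
    exact le_csSup (hbdd s) ⟨G, hG, rfl⟩
  have hnear : ∀ s ε, 0 < ε → ∃ G ∈ F, sSup ((fun G : ℝ → ℝ => G s) '' F) - ε < G s := by
    intro s ε hε
    obtain ⟨_, ⟨G, hG, rfl⟩, h⟩ := exists_lt_of_lt_csSup (hne.image fun G : ℝ → ℝ => G s)
      (sub_lt_self (sSup ((fun G : ℝ → ℝ => G s) '' F)) hε)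
    exact ⟨G, hG, h⟩
  refine leaf_of_approx hκ ?_ ?_
  · intro s
    obtain ⟨G, hG⟩ := hne
    refine ⟨lt_of_lt_of_le ((hl G hG).mem s).1 (hup G hG s), lt_of_le_of_lt ?_ (hb s)⟩
    refine csSup_le (Set.Nonempty.image _ ⟨G, hG⟩) ?_
    rintro _ ⟨G', hG', rfl⟩
    exact hle G' hG' s
  · intro s s' ε hε
    obtain ⟨G1, hG1, h1⟩ := hnear s ε hε
    obtain ⟨G2, hG2, h2⟩ := hnear s' ε hε
    rcases ht G1 hG1 G2 hG2 with h | h
    · refine ⟨G2, hl G2 hG2, ?_, ?_⟩
      · rw [abs_lt]
        constructor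
        · linarith [h s]
        · linarith [hup G2 hG2 s]
      · rw [abs_lt]
        constructor
        · linarith
        · linarith [hup G2 hG2 s']
    · refine ⟨G1, hl G1 hG1, ?_, ?_⟩
      · rw [abs_lt]
        constructor
        · linarith
        · linarith [hup G1 hG1 s]
      · rw [abs_lt]
        constructor
        · linarith [h s']
        · linarith [hup G1 hG1 s']

theorem leaf_inf (hκ : ∀ s, 0 < deriv T.τ s) {F : Set (ℝ → ℝ)} (hne : F.Nonempty)
    (hl : ∀ G ∈ F, T.Leaf G) (ht : ∀ G ∈ F, ∀ G' ∈ F, (∀ s, G s ≤ G' s) ∨ (∀ s, G' s ≤ G s))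
    {b : ℝ → ℝ} (hb : ∀ s, 0 < b s) (hle : ∀ G ∈ F, ∀ s, b s ≤ G s) :
    T.Leaf fun s => sInf ((fun G : ℝ → ℝ => G s) '' F) := by
  have hbdd : ∀ s, BddBelow ((fun G : ℝ → ℝ => G s) '' F) := by
    intro s
    refine ⟨b s, ?_⟩
    rintro _ ⟨G, hG, rfl⟩
    exact hle G hG s
  have hup : ∀ G ∈ F, ∀ s, sInf ((fun G : ℝ → ℝ => G s) '' F) ≤ G s := by
    intro G hG s
    exact csInf_le (hbdd s) ⟨G, hG, rfl⟩
  have hnear : ∀ s ε, 0 < ε → ∃ G ∈ F, G s < sInf ((fun G : ℝ → ℝ => G s) '' F) + ε := by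
    intro s ε hε
    obtain ⟨_, ⟨G, hG, rfl⟩, h⟩ := exists_lt_of_csInf_lt (hne.image fun G : ℝ → ℝ => G s)
      (lt_add_of_pos_right (sInf ((fun G : ℝ → ℝ => G s) '' F)) hε)
    exact ⟨G, hG, h⟩
  refine leaf_of_approx hκ ?_ ?_
  · intro s
    obtain ⟨G, hG⟩ := hne
    refine ⟨lt_of_lt_of_le (hb s) ?_, lt_of_le_of_lt (hup G hG s) ((hl G hG).mem s).2⟩
    refine le_csInf (Set.Nonempty.image _ ⟨G, hG⟩) ?_
    rintro _ ⟨G', hG', rfl⟩
    exact hle G' hG' s
  · intro s s' ε hε
    obtain ⟨G1, hG1, h1⟩ := hnear s ε hε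
    obtain ⟨G2, hG2, h2⟩ := hnear s' ε hε
    rcases ht G1 hG1 G2 hG2 with h | h
    · refine ⟨G1, hl G1 hG1, ?_, ?_⟩
      · rw [abs_lt]
        constructor
        · linarith [hup G1 hG1 s]
        · linarith
      · rw [abs_lt]
        constructor
        · linarith [hup G1 hG1 s']
        · linarith [h s']
    · refine ⟨G2, hl G2 hG2, ?_, ?_⟩
      · rw [abs_lt]
        constructor
        · linarith [hup G2 hG2 s]
        · linarith [h s]
      · rw [abs_lt]
        constructor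
        · linarith [hup G2 hG2 s']
        · linarith

end Pool.Agent.H50.BQ
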