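/-
ROW Brg.  From invariant circles in boundary coordinates to circles of normal angles of lines.
PROOF.  X s := τ s - pi/2 - g s, Y s := τ s - pi/2 + g s: strictly increasing (Lf.dir', Lf.dir), continuous, X (s + k L) = X s + 2 pi k, surjective (X s <= τ s, X s >= τ s - 3pi/2 and τ → ±∞).
Y s = X (f s) (Lf.tau).  fc := X ∘ f ∘ X⁻¹ (X⁻¹ from the order isomorphism StrictMono.orderIsoOfSurjective), so fc (X s) = Y s = X (f s).
Circle: cont, mono: composition; per: X⁻¹ (x + 2 pi) = X⁻¹ x + L, Lf.addz; lo, hi: x = X s, fc x - x = Y s - X s = 2 g s ∈ (0, 2 pi).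
inv: x = X s, fc x = Y s = X (f s), fc (fc x) = Y (f s).  With ψ = τ s - pi/2 (σ ψ = s by Sf.inv): (x + fc x)/2 = ψ, (fc x - x)/2 = g s, so
 p1 h x (fc x) = h ψ cos (g s) + h' ψ sin (g s) = Re ((h ψ + i h' ψ) ex (-(g s))) = Re (γ s * ex (-ψ) * ex (-(g s))) = Re (γ s * ex (-(Y s)))   (Sf.gam at ψ);
 with ψ' = τ (f s) - pi/2: p0 h (fc x) (fc (fc x)) = h ψ' cos (g (f s)) - h' ψ' sin (g (f s)) = Re ((h ψ' + i h' ψ') ex (g (f s))) = Re (γ (f s) * ex (-(X (f s)))).
 X (f s) = Y s and γ (f s) - γ s = ℓ ex (τ s + g s) = ℓ ex (Y s + pi/2) = ℓ i ex (Y s) (bou), so Re ((γ (f s) - γ s) ex (-(Y s))) = Re (ℓ i) = 0.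
Second statement: fc (ψ - g (σ ψ)) = ψ + g (σ ψ): s = σ ψ, X s = ψ - g s, Y s = ψ + g s (Sf.tau).  Third: from fc (X s) = X (f s).
-/
import Mathlib
import Pool.Agent.H50.BQ.Lfb

set_option autoImplicit false

namespace Pool.Agent.H50.BQ

open Set Filter Topology Pool.Agent.H46.BL

variable {T : Table}

private lemma brg_ex_add (a b : ℝ) : ex (a + b) = ex a * ex b := by
  unfold ex
  rw [← Complex.exp_add]; congr 1; push_cast; ring

private lemma brg_ex_re (a : ℝ) : (ex a).re = Real.cos a := by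
  unfold ex
  exact Complex.exp_ofReal_mul_I_re a

private lemma brg_ex_im (a : ℝ) : (ex a).im = Real.sin a := by
  unfold ex
  exact Complex.exp_ofReal_mul_I_im a

private lemma brg_re (a b c : ℝ) :
    ((((a : ℝ) : ℂ) + ((b : ℝ) : ℂ) * Complex.I) * ex c).re = a * Real.cos c - b * Real.sin c := by
  rw [Complex.mul_re, brg_ex_re, brg_ex_im]
  simp

theorem brg (hκ : ∀ s, 0 < deriv T.τ s) {h σ : ℝ → ℝ} (hs : Sf T h σ) {g f : ℝ → ℝ} (hl : Lf T g f) :
    ∃ fc, Pool.Agent.H1.BP.Circle h fc ∧ (∀ ψ, fc (ψ - g (σ ψ)) = ψ + g (σ ψ)) ∧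
      ∀ s, fc (T.τ s - Real.pi / 2 - g s) = T.τ (f s) - Real.pi / 2 - g (f s) := by
  obtain ⟨X, hX⟩ : ∃ X : ℝ → ℝ, ∀ s, X s = T.τ s - Real.pi / 2 - g s := ⟨_, fun _ => rfl⟩
  have hτc : Continuous T.τ := T.smooth.continuous
  have hXm : StrictMono X := by
    intro a b hab
    have := hl.dir' hκ hab
    simp only at this
    rw [hX, hX]
    linarith
  have hXc : Continuous X := by
    have : X = fun s => T.τ s - Real.pi / 2 - g s := funext hX
    rw [this]
    exact (hτc.sub continuous_const).sub hl.leaf.cont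
  have hXL : ∀ s, X (s + T.L) = X s + 2 * Real.pi := by
    intro s
    rw [hX, hX, T.turning, hl.leaf.per]
    ring
  have hXn : ∀ (n : ℕ) (s : ℝ), X (s + n * T.L) = X s + 2 * Real.pi * n := by
    intro n
    induction n with
    | zero => intro s; simp
    | succ n ih =>
      intro s
      have h1 : s + ((n + 1 : ℕ) : ℝ) * T.L = (s + n * T.L) + T.L := by push_cast; ring
      rw [h1, hXL, ih]
      push_cast
      ring
  have hpi := Real.pi_pos
  have htop : Tendsto X atTop atTop := by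
    rw [tendsto_atTop_atTop]
    intro b
    obtain ⟨n, hn⟩ := exists_nat_ge ((b - X 0) / (2 * Real.pi))
    refine ⟨0 + n * T.L, fun a ha => ?_⟩
    have h1 := hXm.monotone ha
    rw [hXn] at h1
    rw [div_le_iff₀ (by positivity)] at hn
    linarith
  have hbot : Tendsto X atBot atBot := by
    rw [tendsto_atBot_atBot]
    intro b
    obtain ⟨n, hn⟩ := exists_nat_ge ((X 0 - b) / (2 * Real.pi))
    refine ⟨-(n * T.L), fun a ha => ?_⟩
    have h1 := hXm.monotone ha
    have h2 := hXn n (-(n * T.L))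
    rw [neg_add_cancel] at h2
    rw [div_le_iff₀ (by positivity)] at hn
    linarith
  have hXs : Function.Surjective X := hXc.surjective htop hbot
  let e : ℝ ≃o ℝ := hXm.orderIsoOfSurjective X hXs
  have he : ∀ x, e x = X x := fun x => rfl
  have hes : ∀ s, e.symm (X s) = s := by
    intro s
    rw [← he]
    exact e.symm_apply_apply s
  have hY : ∀ s, X (f s) = T.τ s - Real.pi / 2 + g s := by
    intro s
    have := hl.tau s
    rw [hX]
    linarith
  obtain ⟨fc, hfc⟩ : ∃ fc : ℝ → ℝ, ∀ x, fc x = X (f (e.symm x)) := ⟨_, fun _ => rfl⟩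
  have hfX : ∀ s, fc (X s) = X (f s) := by
    intro s
    rw [hfc, hes]
  have hfL : ∀ s, f (s + T.L) = f s + T.L := by
    intro s
    have := hl.addz hκ s 1
    simpa using this
  refine ⟨fc, ⟨?_, ?_, ?_, ?_, ?_, ?_⟩, ?_, ?_⟩
  · have : fc = fun x => X (f (e.symm x)) := funext hfc
    rw [this]
    exact hXc.comp (hl.cont.comp e.symm.continuous)
  · intro a b hab
    rw [hfc, hfc]
    exact hXm (hl.mono (e.symm.strictMono hab))
  · intro x
    obtain ⟨s, rfl⟩ := hXs x
    rw [← hXL, hfX, hfX, hfL, hXL]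
  · intro x
    obtain ⟨s, rfl⟩ := hXs x
    rw [hfX, hY, hX]
    have := (hl.leaf.mem s).1
    linarith
  · intro x
    obtain ⟨s, rfl⟩ := hXs x
    rw [hfX, hY, hX]
    have := (hl.leaf.mem s).2
    linarith
  · intro x
    obtain ⟨s, rfl⟩ := hXs x
    rw [hfX, hfX]
    obtain ⟨-, -, -, -, -, ℓ, hℓ, hγ⟩ := hl.bou s
    have a1 : (X s + X (f s)) / 2 = T.τ s - Real.pi / 2 := by rw [hY, hX]; ring
    have a2 : (X (f s) - X s) / 2 = g s := by rw [hY, hX]; ring
    have a3 : (X (f s) + X (f (f s))) / 2 = T.τ (f s) - Real.pi / 2 := by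
      rw [hY (f s), hX (f s)]; ring
    have a4 : (X (f (f s)) - X (f s)) / 2 = g (f s) := by
      rw [hY (f s), hX (f s)]; ring
    unfold Pool.Agent.H1.BP.p1 Pool.Agent.H1.BP.p0
    rw [a1, a2, a3, a4]
    have g1 := hs.gam (T.τ s - Real.pi / 2)
    have g2 := hs.gam (T.τ (f s) - Real.pi / 2)
    rw [hs.inv] at g1 g2
    have b1 : (T.γ s * ex (-(X (f s)))).re =
        h (T.τ s - Real.pi / 2) * Real.cos (g s) + deriv h (T.τ s - Real.pi / 2) * Real.sin (g s) := by
      rw [g1, mul_assoc, ← brg_ex_add]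
      have : T.τ s - Real.pi / 2 + -(X (f s)) = -(g s) := by rw [hY]; ring
      rw [this, brg_re, Real.cos_neg, Real.sin_neg]
      ring
    have b2 : (T.γ (f s) * ex (-(X (f s)))).re =
        h (T.τ (f s) - Real.pi / 2) * Real.cos (g (f s)) -
          deriv h (T.τ (f s) - Real.pi / 2) * Real.sin (g (f s)) := by
      rw [g2, mul_assoc, ← brg_ex_add]
      have : T.τ (f s) - Real.pi / 2 + -(X (f s)) = g (f s) := by rw [hX]; ring
      rw [this, brg_re]
    rw [← b1, ← b2, hγ, add_mul, Complex.add_re, mul_assoc, ← brg_ex_add]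
    have b3 : T.τ s + g s + -(X (f s)) = Real.pi / 2 := by rw [hY]; ring
    have b4 : ((ℓ : ℂ) * ex (Real.pi / 2)).re = 0 := by
      rw [Complex.mul_re, brg_ex_re, brg_ex_im, Real.cos_pi_div_two]
      simp
    rw [b3, b4, add_zero]
  · intro ψ
    have h1 : ψ - g (σ ψ) = X (σ ψ) := by
      rw [hX, hs.tau]; ring
    rw [h1, hfX, hY, hs.tau]
    ring
  · intro s
    rw [← hX, ← hX, hfX]

end Pool.Agent.H50.BQ
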