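/-
ROW CoS.  The core theorem in boundary coordinates.
PROOF.  Let fc be the circle of g (brg), X s := τ s - pi/2 - g s, Y s := τ s - pi/2 + g s, fc (X s) = X (f s), so fc (fc (fc (X s))) = X (f (f (f s))) = X (s + L) = X s + 2 pi (turning, g periodic);
every x is X s for some s (take the second statement of brg: x ↦ ψ - g (σ ψ) is continuous and tends to ±∞, so surjective).  So fc^3 = id + 2 pi.
hfill: let x < y < fc x.  ψ := (x+y)/2, d := (y-x)/2 > 0, s := σ ψ.  Claim d < g s: let s1 with X s1 = x, so fc x = Y s1 (σ (τ s1 - pi/2) = s1).  If g s <= d: X s = ψ - g s >= ψ - d = x = X s1, so s1 <= s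
(Lf.dir' strictly increasing), and Y s = ψ + g s <= ψ + d = y < fc x = Y s1, so s < s1 (Lf.dir): contradiction.  So 0 < d < g s and hfill gives a leaf g' with g' s = d; its circle F (lf_exists, brg)
satisfies F (ψ - g' (σ ψ)) = ψ + g' (σ ψ), i.e. F x = y.
Then Pool.Agent.H1.BP.core.
-/
import Mathlib
import Pool.Agent.H50.BQ.Brg
import Pool.Agent.H1.BP.Core

set_option autoImplicit false

namespace Pool.Agent.H50.BQ

open Set Filter Topology Pool.Agent.H46.BL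

variable {T : Table}

theorem core_s (hκ : ∀ s, 0 < deriv T.τ s) {h σ : ℝ → ℝ} (hs : Sf T h σ) {g f : ℝ → ℝ} (hl : Lf T g f)
    (h3 : ∀ s, f (f (f s)) = s + T.L)
    (hfill : ∀ s θ, 0 < θ → θ < g s → ∃ g', T.Leaf g' ∧ g' s = θ) :
    ∃ c1 c2 C0 C1 C2 : ℝ, ∀ s, (h s - (c1 * Real.cos s + c2 * Real.sin s)) ^ 2
      = C0 + C1 * Real.cos (2 * s) + C2 * Real.sin (2 * s) := by
  obtain ⟨fc, hfc, hfc1, hfc2⟩ := brg hκ hs hl
  have hg := hl.leaf
  have hgc : Continuous g := hg.cont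
  have hsurj : ∀ x, ∃ ψ, ψ - g (σ ψ) = x := by
    intro x
    have hF : Continuous (fun ψ => ψ - g (σ ψ)) := continuous_id.sub (hgc.comp hs.cont)
    have h1 := (hg.mem (σ x)).1
    have h2 := (hg.mem (σ (x + Real.pi))).2
    have hle : x ≤ x + Real.pi := by linarith [Real.pi_pos]
    have hmem : x ∈ Icc ((fun ψ => ψ - g (σ ψ)) x) ((fun ψ => ψ - g (σ ψ)) (x + Real.pi)) :=
      ⟨by show x - g (σ x) ≤ x; linarith, by show x ≤ x + Real.pi - g (σ (x + Real.pi)); linarith⟩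
    obtain ⟨ψ, _, hψ⟩ := intermediate_value_Icc hle hF.continuousOn hmem
    exact ⟨ψ, hψ⟩
  have h3' : ∀ x, fc (fc (fc x)) = x + 2 * Real.pi := by
    intro x
    obtain ⟨ψ, hψ⟩ := hsurj x
    have e : x = T.τ (σ ψ) - Real.pi / 2 - g (σ ψ) := by rw [hs.tau]; linarith
    rw [e, hfc2, hfc2, hfc2, h3, T.turning, hg.per]
    ring
  refine Pool.Agent.H1.BP.core hs.supp hfc h3' ?_
  intro x y hxy hy
  obtain ⟨ψ1, hψ1⟩ := hsurj x
  have hfx : fc x = ψ1 + g (σ ψ1) := by rw [← hψ1, hfc1]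
  have hτ := hs.tau ((x + y) / 2)
  have hτ1 := hs.tau ψ1
  have hd : 0 < (y - x) / 2 := by linarith
  have hlt : (y - x) / 2 < g (σ ((x + y) / 2)) := by
    by_contra hcon
    push Not at hcon
    have a1 : σ ψ1 ≤ σ ((x + y) / 2) := by
      rw [← (hl.dir' hκ).le_iff_le]
      show T.τ (σ ψ1) - g (σ ψ1) ≤ T.τ (σ ((x + y) / 2)) - g (σ ((x + y) / 2))
      rw [hτ, hτ1]
      linarith
    have a2 : σ ((x + y) / 2) < σ ψ1 := by
      rw [← (hl.dir hκ).lt_iff_lt]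
      show T.τ (σ ((x + y) / 2)) + g (σ ((x + y) / 2)) < T.τ (σ ψ1) + g (σ ψ1)
      rw [hτ, hτ1]
      rw [hfx] at hy
      linarith
    exact absurd a1 (not_le.mpr a2)
  obtain ⟨g', hg', hgs⟩ := hfill _ _ hd hlt
  obtain ⟨f', hl'⟩ := lf_exists hκ hg'
  obtain ⟨F, hF, hF1, _⟩ := brg hκ hs hl'
  refine ⟨F, hF, ?_⟩
  have h := hF1 ((x + y) / 2)
  rw [hgs] at h
  have e1 : (x + y) / 2 - (y - x) / 2 = x := by ring
  have e2 : (x + y) / 2 + (y - x) / 2 = y := by ring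
  rw [e1, e2] at h
  exact h

end Pool.Agent.H50.BQ
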