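/-
ROW Ell.  From the formula for the support function to the ellipse.
PROOF.  o := c1 + i c2, w ψ := h ψ - (c1 cos ψ + c2 sin ψ), w' = h' - (-c1 sin ψ + c2 cos ψ).  w ψ + w (ψ + pi) = h ψ + h (ψ + pi) > 0 (H1/BP/Wid.width_pos), and w^2 ψ = w^2 (ψ + pi) by the formula, so
w ψ = w (ψ + pi) (the other sign would give sum 0), so w > 0 everywhere.
C1 + i C2 = D ex (2 φ) with D >= 0 (polar form): C1 cos 2ψ + C2 sin 2ψ = D cos (2 (ψ - φ)).  a^2 := C0 + D = w(φ)^2 > 0, b^2 := C0 - D = w(φ + pi/2)^2 > 0; a, b > 0.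
w^2 ψ = a^2 cos^2 u + b^2 sin^2 u, u = ψ - φ; derivative: w w' = (b^2 - a^2) sin u cos u.
γ (σ ψ) - o = (w + i w') ex ψ  (o = ((c1 cos ψ + c2 sin ψ) + i (-c1 sin ψ + c2 cos ψ)) ex ψ), so (γ (σ ψ) - o) ex (-φ) = (w + i w') ex u with
 re = w cos u - w' sin u = cos u (w^2 - (b^2-a^2) sin^2 u)/w = a^2 cos u / w,  im = w sin u + w' cos u = sin u (w^2 + (b^2-a^2) cos^2 u)/w = b^2 sin u / w.
Hence re^2/a^2 + im^2/b^2 = (a^2 cos^2 u + b^2 sin^2 u)/w^2 = 1: range γ ⊆ ellipse (every s is σ ψ).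
Conversely let q be on the ellipse, re = a c, im = b d, c^2 + d^2 = 1.  Put r = sqrt (c^2/a^2 + d^2/b^2) > 0; (c/(a r))^2 + (d/(b r))^2 = 1, so there is u with cos u = c/(a r), sin u = d/(b r).
ψ = u + φ: w^2 = a^2 cos^2 u + b^2 sin^2 u = 1/r^2, w = 1/r, and a^2 cos u / w = a c, b^2 sin u / w = b d.  So γ (σ ψ) = q.
frontier T.Y = range γ (T.bdry).
-/
import Mathlib
import Pool.Agent.H46.BL.Gln
import Pool.Agent.H1.BP.Wid
import Pool.Agent.H50.BQ.Defs

set_option autoImplicit false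

namespace Pool.Agent.H50.BQ

open Set Filter Topology Pool.Agent.H46.BL

variable {T : Table}

private theorem Ell_re (a : ℝ) : (ex a).re = Real.cos a := Complex.exp_ofReal_mul_I_re a

private theorem Ell_im (a : ℝ) : (ex a).im = Real.sin a := Complex.exp_ofReal_mul_I_im a

private theorem Ell_ne (a : ℝ) : ex a ≠ 0 := Complex.exp_ne_zero _

/-- polar form -/
private theorem Ell_polar (x y : ℝ) : ∃ r u : ℝ, 0 ≤ r ∧ r ^ 2 = x ^ 2 + y ^ 2 ∧
    r * Real.cos u = x ∧ r * Real.sin u = y := by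
  refine ⟨‖(⟨x, y⟩ : ℂ)‖, Complex.arg ⟨x, y⟩, norm_nonneg _, ?_, ?_, ?_⟩
  · rw [← Complex.normSq_eq_norm_sq, Complex.normSq_mk]
    ring
  · exact Complex.norm_mul_cos_arg _
  · exact Complex.norm_mul_sin_arg _

private theorem Ell_core {w w' a b u : ℝ}
    (h1 : w ^ 2 = a ^ 2 * Real.cos u ^ 2 + b ^ 2 * Real.sin u ^ 2)
    (h2 : w * w' = (b ^ 2 - a ^ 2) * (Real.sin u * Real.cos u)) :
    w * (w * Real.cos u - w' * Real.sin u) = a ^ 2 * Real.cos u ∧
      w * (w * Real.sin u + w' * Real.cos u) = b ^ 2 * Real.sin u := by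
  have h3 := Real.sin_sq_add_cos_sq u
  constructor
  · have e : w * (w * Real.cos u - w' * Real.sin u) =
        w ^ 2 * Real.cos u - (w * w') * Real.sin u := by ring
    rw [e, h1, h2]
    linear_combination (a ^ 2 * Real.cos u) * h3
  · have e : w * (w * Real.sin u + w' * Real.cos u) =
        w ^ 2 * Real.sin u + (w * w') * Real.cos u := by ring
    rw [e, h1, h2]
    linear_combination (b ^ 2 * Real.sin u) * h3

theorem ellipse_of_formula {h σ : ℝ → ℝ} (hs : Sf T h σ) {c1 c2 C0 C1 C2 : ℝ}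
    (hf : ∀ s, (h s - (c1 * Real.cos s + c2 * Real.sin s)) ^ 2
      = C0 + C1 * Real.cos (2 * s) + C2 * Real.sin (2 * s)) : Ellipse T := by
  obtain ⟨w, hw⟩ : ∃ w : ℝ → ℝ, ∀ s, w s = h s - (c1 * Real.cos s + c2 * Real.sin s) :=
    ⟨_, fun _ => rfl⟩
  obtain ⟨w', hw'⟩ : ∃ w' : ℝ → ℝ, ∀ s, w' s = deriv h s - (-c1 * Real.sin s + c2 * Real.cos s) :=
    ⟨_, fun _ => rfl⟩
  have hdiff : ∀ s, HasDerivAt h (deriv h s) s :=
    fun s => (hs.supp.smooth.differentiable (by norm_num) s).hasDerivAt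
  have hwd : ∀ s, HasDerivAt w (w' s) s := by
    intro s
    have h1 := (hdiff s).sub
      (((Real.hasDerivAt_cos s).const_mul c1).add ((Real.hasDerivAt_sin s).const_mul c2))
    have h2 : w = h - ((fun s => c1 * Real.cos s) + (fun s => c2 * Real.sin s)) := by
      funext t
      simp only [Pi.sub_apply, Pi.add_apply]
      exact hw t
    rw [h2]
    refine h1.congr_deriv ?_
    rw [hw']
    ring
  have hf' : ∀ s, w s ^ 2 = C0 + C1 * Real.cos (2 * s) + C2 * Real.sin (2 * s) := by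
    intro s
    rw [hw]
    exact hf s
  have hww : ∀ s, w s * w' s = -C1 * Real.sin (2 * s) + C2 * Real.cos (2 * s) := by
    intro s
    have h1 : HasDerivAt (fun t => w t * w t) (w' s * w s + w s * w' s) s := (hwd s).mul (hwd s)
    have h0 : HasDerivAt (fun t : ℝ => 2 * t) 2 s := by
      simpa using (hasDerivAt_id s).const_mul (2 : ℝ)
    have h2 : HasDerivAt (fun t => C0 + C1 * Real.cos (2 * t) + C2 * Real.sin (2 * t))
        (C1 * (-Real.sin (2 * s) * 2) + C2 * (Real.cos (2 * s) * 2)) s := by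
      exact ((h0.cos.const_mul C1).const_add C0).add (h0.sin.const_mul C2)
    have h3 : (fun t => w t * w t) =
        (fun t => C0 + C1 * Real.cos (2 * t) + C2 * Real.sin (2 * t)) := by
      funext t
      rw [← hf' t]
      ring
    rw [h3] at h1
    have h4 := h1.unique h2
    linarith
  have hpos : ∀ s, 0 < w s := by
    intro s
    have h1 := Pool.Agent.H1.BP.width_pos hs.supp s
    have h2 : w s + w (s + Real.pi) = h s + h (s + Real.pi) := by
      rw [hw, hw, Real.cos_add_pi, Real.sin_add_pi]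
      ring
    have h3 : w s ^ 2 = w (s + Real.pi) ^ 2 := by
      rw [hf', hf', mul_add, Real.cos_add_two_pi, Real.sin_add_two_pi]
    rcases sq_eq_sq_iff_eq_or_eq_neg.1 h3 with h4 | h4
    · linarith
    · linarith
  obtain ⟨D, φ2, hD, -, hC1, hC2⟩ := Ell_polar C1 C2
  obtain ⟨φ, rfl⟩ : ∃ φ, φ2 = 2 * φ := ⟨φ2 / 2, by ring⟩
  have ha2 : w φ ^ 2 = C0 + D := by
    rw [hf', ← hC1, ← hC2]
    linear_combination D * Real.sin_sq_add_cos_sq (2 * φ)
  have hb2 : w (φ + Real.pi / 2) ^ 2 = C0 - D := by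
    rw [hf', ← hC1, ← hC2, mul_add, mul_div_cancel₀ Real.pi (two_ne_zero), Real.cos_add_pi,
      Real.sin_add_pi]
    linear_combination (-D) * Real.sin_sq_add_cos_sq (2 * φ)
  have hapos := hpos φ
  have hbpos := hpos (φ + Real.pi / 2)
  generalize w φ = a at ha2 hapos
  generalize w (φ + Real.pi / 2) = b at hb2 hbpos
  have hwu : ∀ u, w (u + φ) ^ 2 = a ^ 2 * Real.cos u ^ 2 + b ^ 2 * Real.sin u ^ 2 := by
    intro u
    have e1 : C1 * Real.cos (2 * (u + φ)) + C2 * Real.sin (2 * (u + φ)) = D * Real.cos (2 * u) := by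
      rw [← hC1, ← hC2]
      have e2 : 2 * u = 2 * (u + φ) - 2 * φ := by ring
      rw [e2, Real.cos_sub]
      ring
    rw [hf', add_assoc, e1, ha2, hb2, Real.cos_two_mul']
    linear_combination (-C0) * Real.sin_sq_add_cos_sq u
  have hwwu : ∀ u, w (u + φ) * w' (u + φ) = (b ^ 2 - a ^ 2) * (Real.sin u * Real.cos u) := by
    intro u
    have e1 : -C1 * Real.sin (2 * (u + φ)) + C2 * Real.cos (2 * (u + φ)) =
        -(D * Real.sin (2 * u)) := by
      rw [← hC1, ← hC2]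
      have e2 : 2 * u = 2 * (u + φ) - 2 * φ := by ring
      rw [e2, Real.sin_sub]
      ring
    rw [hww, e1, ha2, hb2, Real.sin_two_mul]
    ring
  have hpt : ∀ u, w (u + φ) * ((T.γ (σ (u + φ)) - ⟨c1, c2⟩) * ex (-φ)).re = a ^ 2 * Real.cos u ∧
      w (u + φ) * ((T.γ (σ (u + φ)) - ⟨c1, c2⟩) * ex (-φ)).im = b ^ 2 * Real.sin u := by
    intro u
    have hc := Ell_core (hwu u) (hwwu u)
    have hre : ((T.γ (σ (u + φ)) - ⟨c1, c2⟩) * ex (-φ)).re =
        w (u + φ) * Real.cos u - w' (u + φ) * Real.sin u := by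
      rw [hs.gam]
      simp only [Complex.mul_re, Complex.sub_re, Complex.sub_im, Complex.add_re, Complex.add_im,
        Complex.mul_im, Complex.I_re, Complex.I_im, Complex.ofReal_re, Complex.ofReal_im, Ell_re,
        Ell_im, hw, hw', Real.cos_neg, Real.sin_neg]
      have e1 : Real.cos u = Real.cos ((u + φ) - φ) := by rw [add_sub_cancel_right]
      have e2 : Real.sin u = Real.sin ((u + φ) - φ) := by rw [add_sub_cancel_right]
      rw [e1, e2, Real.cos_sub, Real.sin_sub]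
      have e3 := Real.sin_sq_add_cos_sq (u + φ)
      linear_combination (c1 * Real.cos φ + c2 * Real.sin φ) * e3
    have him : ((T.γ (σ (u + φ)) - ⟨c1, c2⟩) * ex (-φ)).im =
        w (u + φ) * Real.sin u + w' (u + φ) * Real.cos u := by
      rw [hs.gam]
      simp only [Complex.mul_re, Complex.sub_re, Complex.sub_im, Complex.add_re, Complex.add_im,
        Complex.mul_im, Complex.I_re, Complex.I_im, Complex.ofReal_re, Complex.ofReal_im, Ell_re,
        Ell_im, hw, hw', Real.cos_neg, Real.sin_neg]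
      have e1 : Real.cos u = Real.cos ((u + φ) - φ) := by rw [add_sub_cancel_right]
      have e2 : Real.sin u = Real.sin ((u + φ) - φ) := by rw [add_sub_cancel_right]
      rw [e1, e2, Real.cos_sub, Real.sin_sub]
      have e3 := Real.sin_sq_add_cos_sq (u + φ)
      linear_combination (-(c1 * Real.sin φ) + c2 * Real.cos φ) * e3
    rw [hre, him]
    exact hc
  refine ⟨⟨c1, c2⟩, a, b, φ, hapos, hbpos, ?_⟩
  rw [T.bdry]
  have ha0 : a ≠ 0 := hapos.ne'
  have hb0 : b ≠ 0 := hbpos.ne'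
  ext q
  rw [mem_range, mem_ofPred_eq]
  constructor
  · rintro ⟨s, rfl⟩
    obtain ⟨ψ, rfl⟩ := hs.surj s
    obtain ⟨u, rfl⟩ : ∃ u, ψ = u + φ := ⟨ψ - φ, by ring⟩
    obtain ⟨h1, h2⟩ := hpt u
    have h3 := hwu u
    have h4 := hpos (u + φ)
    generalize ((T.γ (σ (u + φ)) - ⟨c1, c2⟩) * ex (-φ)).re = X at h1 ⊢
    generalize ((T.γ (σ (u + φ)) - ⟨c1, c2⟩) * ex (-φ)).im = Y at h2 ⊢
    generalize w (u + φ) = W at h1 h2 h3 h4
    have hW : W ≠ 0 := h4.ne'
    have hX : X = a ^ 2 * Real.cos u / W := by rw [← h1]; field_simp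
    have hY : Y = b ^ 2 * Real.sin u / W := by rw [← h2]; field_simp
    rw [hX, hY]
    have e : (a ^ 2 * Real.cos u / W) ^ 2 / a ^ 2 + (b ^ 2 * Real.sin u / W) ^ 2 / b ^ 2 =
        (a ^ 2 * Real.cos u ^ 2 + b ^ 2 * Real.sin u ^ 2) / W ^ 2 := by
      field_simp
    rw [e, ← h3]
    exact div_self (pow_ne_zero 2 hW)
  · intro hq
    obtain ⟨X, hX⟩ : ∃ X, X = ((q - ⟨c1, c2⟩) * ex (-φ)).re := ⟨_, rfl⟩
    obtain ⟨Y, hY⟩ : ∃ Y, Y = ((q - ⟨c1, c2⟩) * ex (-φ)).im := ⟨_, rfl⟩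
    rw [← hX, ← hY] at hq
    obtain ⟨r, u, hr, hr2, h1, h2⟩ := Ell_polar (X / a ^ 2) (Y / b ^ 2)
    have hX' : X = a ^ 2 * (r * Real.cos u) := by rw [h1]; field_simp
    have hY' : Y = b ^ 2 * (r * Real.sin u) := by rw [h2]; field_simp
    have h3 := hwu u
    have h4 := hpos (u + φ)
    obtain ⟨h5, h6⟩ := hpt u
    have h7 : r ^ 2 * w (u + φ) ^ 2 = 1 := by
      rw [h3, ← hq, hX', hY']
      field_simp
    have h8 : r * w (u + φ) = 1 := by
      have h9 : (r * w (u + φ)) ^ 2 = 1 := by rw [mul_pow]; exact h7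
      have h10 : 0 ≤ r * w (u + φ) := mul_nonneg hr h4.le
      nlinarith
    have hre : ((T.γ (σ (u + φ)) - ⟨c1, c2⟩) * ex (-φ)).re = X := by
      rw [hX']
      have h9 : r * (w (u + φ) * ((T.γ (σ (u + φ)) - ⟨c1, c2⟩) * ex (-φ)).re) =
        r * (a ^ 2 * Real.cos u) := by rw [h5]
      rw [← mul_assoc, h8, one_mul] at h9
      rw [h9]
      ring
    have him : ((T.γ (σ (u + φ)) - ⟨c1, c2⟩) * ex (-φ)).im = Y := by
      rw [hY']
      have h9 : r * (w (u + φ) * ((T.γ (σ (u + φ)) - ⟨c1, c2⟩) * ex (-φ)).im) =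
        r * (b ^ 2 * Real.sin u) := by rw [h6]
      rw [← mul_assoc, h8, one_mul] at h9
      rw [h9]
      ring
    refine ⟨σ (u + φ), ?_⟩
    have h11 : (T.γ (σ (u + φ)) - ⟨c1, c2⟩) * ex (-φ) = (q - ⟨c1, c2⟩) * ex (-φ) := by
      apply Complex.ext
      · rw [hre, hX]
      · rw [him, hY]
    have h12 := mul_right_cancel₀ (Ell_ne (-φ)) h11
    exact sub_left_injective h12

end Pool.Agent.H50.BQ
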