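/-
ROW Sfx.  The support function of a table.
PROOF.  τ is smooth with τ' > 0, strictly increasing, and τ s → ±∞ (turning: τ (s + k L) = τ s + 2 pi k), so it is a homeomorphism of ℝ; σ ψ := τ⁻¹ (ψ + pi/2) (e.g. via
StrictMono.orderIsoOfSurjective, or Continuous.surjective + Function.surjInv).  σ is continuous, strictly increasing, surjective and has the derivative 1 / τ' (σ ψ) (HasDerivAt.of_local_left_inverse),
which is continuous and positive.  σ (ψ + 2 pi) = σ ψ + L.
h ψ := Re (γ (σ ψ) * ex (-ψ)).  Derivative of z ψ := γ (σ ψ) * ex (-ψ): ex (τ (σ ψ)) σ' ex (-ψ) - i γ (σ ψ) ex (-ψ) = σ' ex (pi/2) - i z = i σ' - i z.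
So h' = Re (i σ' - i z) = Im z, (Im z)' = σ' - Re z = σ' - h.  So deriv h ψ = Im z ψ, deriv (deriv h) ψ = σ' ψ - h ψ, h + h'' = σ' > 0, h is C^2 (h'' is continuous:
contDiff_succ_iff_deriv / contDiff_one_iff_deriv twice), 2pi-periodic.  z ψ = h ψ + i h' ψ, so γ (σ ψ) = z ψ * ex ψ = (h ψ + h' ψ i) ex ψ.
-/
import Mathlib
import Pool.Agent.H46.BL.Gln
import Pool.Agent.H50.BQ.Lfb

set_option autoImplicit false

namespace Pool.Agent.H50.BQ

open Set Filter Topology Pool.Agent.H46.BL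

theorem sf_exists (T : Table) (hκ : ∀ s, 0 < deriv T.τ s) : ∃ h σ, Sf T h σ := by
  have hmono : StrictMono T.τ := strictMono_of_deriv_pos hκ
  have hcont : Continuous T.τ := T.smooth.continuous
  have hadd : ∀ (n : ℕ) (s : ℝ), T.τ (s + n * T.L) = T.τ s + n * (2 * Real.pi) := by
    intro n
    induction n with
    | zero => intro s; simp
    | succ n ih =>
      intro s
      have h1 : s + ((n + 1 : ℕ) : ℝ) * T.L = (s + n * T.L) + T.L := by push_cast; ring
      rw [h1, T.turning, ih]; push_cast; ring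
  have hsurj : Function.Surjective T.τ := by
    intro y
    apply mem_range_of_exists_le_of_exists_ge hcont
    · obtain ⟨n, hn⟩ := exists_nat_gt ((T.τ 0 - y) / (2 * Real.pi))
      refine ⟨0 - n * T.L, ?_⟩
      have h1 := hadd n (0 - n * T.L)
      rw [sub_add_cancel] at h1
      rw [div_lt_iff₀ Real.two_pi_pos] at hn
      linarith
    · obtain ⟨n, hn⟩ := exists_nat_gt ((y - T.τ 0) / (2 * Real.pi))
      refine ⟨0 + n * T.L, ?_⟩
      rw [hadd n 0]
      rw [div_lt_iff₀ Real.two_pi_pos] at hn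
      linarith
  set e := hmono.orderIsoOfSurjective T.τ hsurj with he
  have he1 : ∀ y, T.τ (e.symm y) = y := fun y => e.apply_symm_apply y
  have he2 : ∀ s, e.symm (T.τ s) = s := fun s => e.symm_apply_apply s
  have hec : Continuous e.symm := e.symm.continuous
  set σ : ℝ → ℝ := fun ψ => e.symm (ψ + Real.pi / 2) with hσ
  have hτσ : ∀ ψ, T.τ (σ ψ) = ψ + Real.pi / 2 := fun ψ => he1 _
  have hσc : Continuous σ := hec.comp (continuous_id.add continuous_const)
  have hσm : StrictMono σ := fun a b hab => e.symm.strictMono (by linarith)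
  have hinv : ∀ s, σ (T.τ s - Real.pi / 2) = s := by
    intro s
    show e.symm (T.τ s - Real.pi / 2 + Real.pi / 2) = s
    rw [sub_add_cancel, he2]
  have hσs : Function.Surjective σ := fun s => ⟨_, hinv s⟩
  set d : ℝ → ℝ := fun ψ => (deriv T.τ (σ ψ))⁻¹ with hd
  have hdpos : ∀ ψ, 0 < d ψ := fun ψ => inv_pos.2 (hκ _)
  have hτd : ∀ x, HasDerivAt T.τ (deriv T.τ x) x := fun x =>
    (T.smooth.differentiable (by simp) x).hasDerivAt
  have hσd : ∀ ψ, HasDerivAt σ (d ψ) ψ := by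
    intro ψ
    have h1 : HasDerivAt e.symm (deriv T.τ (e.symm (ψ + Real.pi / 2)))⁻¹ (ψ + Real.pi / 2) :=
      HasDerivAt.of_local_left_inverse hec.continuousAt (hτd _) (hκ _).ne'
        (Eventually.of_forall fun y => he1 y)
    exact h1.comp_add_const ψ (Real.pi / 2)
  have hdc : Continuous d := by
    have h1 : Continuous (deriv T.τ) := T.smooth.continuous_deriv (by simp)
    exact (h1.comp hσc).inv₀ fun ψ => (hκ _).ne'
  have hper : ∀ ψ, σ (ψ + 2 * Real.pi) = σ ψ + T.L := by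
    intro ψ
    apply hmono.injective
    rw [hτσ, T.turning, hτσ]; ring
  -- the rotated curve
  set z : ℝ → ℂ := fun ψ => T.γ (σ ψ) * ex (-ψ) with hz
  have hexd : ∀ a : ℝ, HasDerivAt (fun x : ℝ => ex (-x)) (-(ex (-a) * Complex.I)) a := by
    intro a
    have h1 := (Gln_ex_deriv (-a)).scomp a (hasDerivAt_neg a)
    refine h1.congr_deriv ?_
    simp
  have hexpi : ∀ ψ : ℝ, ex (ψ + Real.pi / 2) * ex (-ψ) = Complex.I := by
    intro ψ
    rw [← ex_add]
    have h1 : ψ + Real.pi / 2 + -ψ = Real.pi / 2 := by ring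
    rw [h1]
    unfold ex
    push_cast
    exact Complex.exp_pi_div_two_mul_I
  have hzd : ∀ ψ, HasDerivAt z ((d ψ : ℂ) * Complex.I - Complex.I * z ψ) ψ := by
    intro ψ
    have h1 : HasDerivAt (fun x => T.γ (σ x)) ((d ψ : ℝ) • ex (T.τ (σ ψ))) ψ :=
      (T.tangent (σ ψ)).scomp ψ (hσd ψ)
    have h2 := h1.mul (hexd ψ)
    refine h2.congr_deriv ?_
    rw [hτσ, Complex.real_smul]
    have h3 := hexpi ψ
    simp only [hz]
    linear_combination (d ψ : ℂ) * h3
  set h : ℝ → ℝ := fun ψ => (z ψ).re with hh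
  set k : ℝ → ℝ := fun ψ => (z ψ).im with hk
  have hhd : ∀ ψ, HasDerivAt h (k ψ) ψ := by
    intro ψ
    have h1 := Complex.reCLM.hasFDerivAt.comp_hasDerivAt ψ (hzd ψ)
    refine h1.congr_deriv ?_
    simp [hk]
  have hkd : ∀ ψ, HasDerivAt k (d ψ - h ψ) ψ := by
    intro ψ
    have h1 := Complex.imCLM.hasFDerivAt.comp_hasDerivAt ψ (hzd ψ)
    refine h1.congr_deriv ?_
    simp [hh]
  have hdh : deriv h = k := funext fun ψ => (hhd ψ).deriv
  have hdk : deriv k = fun ψ => d ψ - h ψ := funext fun ψ => (hkd ψ).deriv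
  have hhc : Continuous h := continuous_iff_continuousAt.2 fun ψ => (hhd ψ).continuousAt
  have hk1 : ContDiff ℝ 1 k := by
    rw [contDiff_one_iff_deriv]
    refine ⟨fun ψ => (hkd ψ).differentiableAt, ?_⟩
    rw [hdk]
    exact hdc.sub hhc
  have hh2 : ContDiff ℝ 2 h := by
    have h1 : (2 : WithTop ℕ∞) = 1 + 1 := by norm_num
    rw [h1, contDiff_succ_iff_deriv]
    refine ⟨fun ψ => (hhd ψ).differentiableAt, by simp, ?_⟩
    rw [hdh]
    exact hk1
  refine ⟨h, σ, ⟨hh2, ?_, ?_⟩, hσm, hσc, hσs, hτσ, hinv, ?_⟩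
  · intro ψ
    have h1 : z (ψ + 2 * Real.pi) = z ψ := by
      simp only [hz]
      rw [hper, T.periodic]
      congr 1
      have h2 : -ψ = -(ψ + 2 * Real.pi) + 2 * Real.pi := by ring
      rw [h2, ex_two_pi]
    show (z (ψ + 2 * Real.pi)).re = (z ψ).re
    rw [h1]
  · intro ψ
    rw [hdh, hdk]
    have := hdpos ψ
    simp only
    linarith
  · intro ψ
    rw [hdh]
    have h1 : ((h ψ : ℝ) : ℂ) + ((k ψ : ℝ) : ℂ) * Complex.I = z ψ := Complex.re_add_im (z ψ)
    rw [h1]
    show T.γ (σ ψ) = T.γ (σ ψ) * ex (-ψ) * ex ψ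
    have h2 : ex (-ψ) * ex ψ = 1 := by
      rw [← ex_add, neg_add_cancel]; simp [ex]
    rw [mul_assoc, h2, mul_one]

end Pool.Agent.H50.BQ
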