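/-
ROW Phi.  Elementary facts on phi g g' t = ∫_0^t (cos g - cos g') for continuous L-periodic g <= g' with values in (0, pi).
PROOF.  The integrand is continuous, L-periodic and >= 0 (Real.cos is strictly decreasing on [0, pi]: Real.strictAntiOn_cos).
phi_sub: intervalIntegral.integral_interval_sub_left and integral_sub.  phi_mono: phi t' - phi t = ∫_t^t' >= 0.
phi_addz: Function.Periodic.intervalIntegral_add_zsmul_eq (used in Per_int, H46/BL/Per.lean).
phi_lt: the integral over [a,b] of a continuous nonnegative function that is > 0 at x0 in [a,b], a < b, is > 0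
(intervalIntegral.integral_pos, or Continuous.integral_pos_of_hasCompactSupport...; e.g. intervalIntegral.integral_pos_iff_support_of_nonneg).
phi_eq: if phi L <= 0 and g x0 < g' x0 then phi_lt on [x0, x0 + L] and phi_addz (k = 1) give phi L = phi (x0+L) - phi x0 > 0.
-/
import Mathlib
import Pool.Agent.H50.BQ.Defs

set_option autoImplicit false

namespace Pool.Agent.H50.BQ

open Set Filter Topology Pool.Agent.H46.BL

private theorem Phi_F {g g' : ℝ → ℝ} (hg : Continuous g) (hg' : Continuous g') :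
    Continuous fun x => Real.cos (g x) - Real.cos (g' x) :=
  (Real.continuous_cos.comp hg).sub (Real.continuous_cos.comp hg')

private theorem Phi_sub {g g' : ℝ → ℝ} (hg : Continuous g) (hg' : Continuous g') (a b : ℝ) :
    phi g g' b - phi g g' a = ∫ x in a..b, (Real.cos (g x) - Real.cos (g' x)) := by
  unfold phi
  exact intervalIntegral.integral_interval_sub_left ((Phi_F hg hg').intervalIntegrable 0 b)
    ((Phi_F hg hg').intervalIntegrable 0 a)

private theorem Phi_nn {g g' : ℝ → ℝ}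
    (hm : ∀ s, g s ∈ Ioo 0 Real.pi) (hm' : ∀ s, g' s ∈ Ioo 0 Real.pi) (hle : ∀ s, g s ≤ g' s)
    (x : ℝ) : 0 ≤ Real.cos (g x) - Real.cos (g' x) := by
  have h := Real.strictAntiOn_cos.antitoneOn (a := g x) (b := g' x) ⟨(hm x).1.le, (hm x).2.le⟩
    ⟨(hm' x).1.le, (hm' x).2.le⟩ (hle x)
  exact sub_nonneg.2 h

theorem phi_cont {g g' : ℝ → ℝ} (hg : Continuous g) (hg' : Continuous g') : Continuous (phi g g') := by
  unfold phi
  exact intervalIntegral.continuous_primitive (fun a b => (Phi_F hg hg').intervalIntegrable a b) 0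

theorem phi_sub {g g' : ℝ → ℝ} (hg : Continuous g) (hg' : Continuous g') (a b : ℝ) :
    phi g g' b - phi g g' a = (∫ x in a..b, Real.cos (g x)) - ∫ x in a..b, Real.cos (g' x) := by
  rw [Phi_sub hg hg']
  exact intervalIntegral.integral_sub ((Real.continuous_cos.comp hg).intervalIntegrable a b)
    ((Real.continuous_cos.comp hg').intervalIntegrable a b)

theorem phi_mono {g g' : ℝ → ℝ} (hg : Continuous g) (hg' : Continuous g')
    (hm : ∀ s, g s ∈ Ioo 0 Real.pi) (hm' : ∀ s, g' s ∈ Ioo 0 Real.pi) (hle : ∀ s, g s ≤ g' s) :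
    Monotone (phi g g') := by
  intro a b hab
  have h := Phi_sub hg hg' a b
  have h2 := intervalIntegral.integral_nonneg hab (μ := MeasureTheory.volume)
    (fun x _ => Phi_nn hm hm' hle x)
  linarith

theorem phi_addz {g g' : ℝ → ℝ} (hg : Continuous g) (hg' : Continuous g') {L : ℝ}
    (hp : ∀ s, g (s + L) = g s) (hp' : ∀ s, g' (s + L) = g' s) (t : ℝ) (k : ℤ) :
    phi g g' (t + k * L) = phi g g' t + k * phi g g' L := by
  have hF : Function.Periodic (fun x => Real.cos (g x) - Real.cos (g' x)) L := by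
    intro x
    show Real.cos (g (x + L)) - Real.cos (g' (x + L)) = _
    rw [hp, hp']
  have h1 := Phi_sub hg hg' t (t + k * L)
  have h2 := hF.intervalIntegral_add_zsmul_eq k t
    (fun a b => (Phi_F hg hg').intervalIntegrable a b)
  have h3 := hF.intervalIntegral_add_eq t 0
  rw [zero_add] at h3
  rw [h3, zsmul_eq_mul, zsmul_eq_mul] at h2
  rw [h2] at h1
  have h4 : phi g g' L = ∫ x in (0 : ℝ)..L, (Real.cos (g x) - Real.cos (g' x)) := rfl
  rw [← h4] at h1
  linarith

theorem phi_lt {g g' : ℝ → ℝ} (hg : Continuous g) (hg' : Continuous g')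
    (hm : ∀ s, g s ∈ Ioo 0 Real.pi) (hm' : ∀ s, g' s ∈ Ioo 0 Real.pi) (hle : ∀ s, g s ≤ g' s)
    {a b x₀ : ℝ} (hab : a < b) (hx : x₀ ∈ Icc a b) (hx' : g x₀ < g' x₀) : phi g g' a < phi g g' b := by
  have h := Phi_sub hg hg' a b
  have h1 : Real.cos (g' x₀) < Real.cos (g x₀) :=
    Real.strictAntiOn_cos ⟨(hm x₀).1.le, (hm x₀).2.le⟩ ⟨(hm' x₀).1.le, (hm' x₀).2.le⟩ hx'
  have h2 : 0 < ∫ x in a..b, (Real.cos (g x) - Real.cos (g' x)) :=
    intervalIntegral.integral_pos hab (Phi_F hg hg').continuousOn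
      (fun x _ => Phi_nn hm hm' hle x) ⟨x₀, hx, sub_pos.2 h1⟩
  linarith

theorem phi_eq {g g' : ℝ → ℝ} (hg : Continuous g) (hg' : Continuous g')
    (hm : ∀ s, g s ∈ Ioo 0 Real.pi) (hm' : ∀ s, g' s ∈ Ioo 0 Real.pi) (hle : ∀ s, g s ≤ g' s)
    {L : ℝ} (hL : 0 < L) (hp : ∀ s, g (s + L) = g s) (hp' : ∀ s, g' (s + L) = g' s)
    (h0 : phi g g' L ≤ 0) : g = g' := by
  funext x
  by_contra hne
  have hlt : g x < g' x := lt_of_le_of_ne (hle x) hne
  have h1 := phi_lt hg hg' hm hm' hle (a := x) (b := x + L) (x₀ := x) (by linarith)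
    ⟨le_rfl, by linarith⟩ hlt
  have h2 := phi_addz hg hg' hp hp' x 1
  rw [Int.cast_one, one_mul, one_mul] at h2
  linarith

end Pool.Agent.H50.BQ
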