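/-
ROW Tay.  Second order lower bound for the length off an invariant circle.
PROOF.  u := ex (τ s + g s) (unit vector).  From bou s: γ (f s) - γ s = ℓ u with ℓ > 0, so ‖γ (f s) - γ s‖ = ℓ = Re ((γ (f s) - γ s) * ex (-(τ s + g s))).
For every y: ‖γ y - γ s‖ >= Re ((γ y - γ s) * ex (-(τ s + g s))) (Complex.re_le_norm, norm of the product).  Difference:
  Re ((γ y - γ (f s)) ex (-(τ s + g s))) = ∫_{f s}^y cos (τ x - τ s - g s) dx  (T.tangent, fundamental theorem of calculus)
  = ∫_{f s}^y cos (τ x - τ (f s) + g (f s)) dx   by Lf.tau.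
So  ‖γ y - γ s‖ - ∫_s^y cos g - (‖γ (f s) - γ s‖ - ∫_s^{f s} cos g) >= ∫_{f s}^y [cos (τ x - τ (f s) + g (f s)) - cos (g x)] dx,
and |cos a - cos b| <= |a - b| <= |τ x - τ (f s)| + |g x - g (f s)| <= 2 |τ x - τ (f s)| <= 2 K |x - f s| (leaf_lip, hK);
the integral of 2 K |x - f s| between f s and y is K (y - f s)^2 in absolute value (both orders of f s and y).
-/
import Mathlib
import Pool.Agent.H50.BQ.Lfb

set_option autoImplicit false

namespace Pool.Agent.H50.BQ

open Set Filter Topology Pool.Agent.H46.BL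

variable {T : Table}

/-- the component of the chord in the direction `a` -/
theorem Tay_der (T : Table) (c : ℂ) (a x : ℝ) :
    HasDerivAt (fun y => ((T.γ y - c) * ex (-a)).re) (Real.cos (T.τ x - a)) x := by
  have h1 : HasDerivAt (fun y => (T.γ y - c) * ex (-a)) (ex (T.τ x) * ex (-a)) x :=
    ((T.tangent x).sub_const c).mul_const _
  have h2 := (Complex.reCLM.hasFDerivAt (x := (T.γ x - c) * ex (-a))).comp_hasDerivAt x h1
  have h3 : Complex.reCLM (ex (T.τ x) * ex (-a)) = Real.cos (T.τ x - a) := by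
    rw [← ex_add, Complex.reCLM_apply, Ang_re, sub_eq_add_neg]
  rw [h3] at h2
  exact h2

theorem tay (hκ : ∀ s, 0 < deriv T.τ s) {g f : ℝ → ℝ} (h : Lf T g f) {K : ℝ}
    (hK : ∀ s s', |T.τ s - T.τ s'| ≤ K * |s - s'|) (s y : ℝ) :
    ‖T.γ (f s) - T.γ s‖ - (∫ x in s..(f s), Real.cos (g x)) - K * (y - f s) ^ 2
      ≤ ‖T.γ y - T.γ s‖ - ∫ x in s..y, Real.cos (g x) := by
  obtain ⟨-, -, -, -, -, ℓ, hℓ, hγ⟩ := h.bou s
  have hd : T.γ (f s) - T.γ s = (ℓ : ℂ) * ex (T.τ s + g s) := by rw [hγ]; ring
  have hlen : ‖T.γ (f s) - T.γ s‖ = ((T.γ (f s) - T.γ s) * ex (-(T.τ s + g s))).re := by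
    rw [hd, norm_mul, ex_norm, mul_one, Complex.norm_real, Real.norm_eq_abs, abs_of_pos hℓ, mul_assoc,
      ← ex_add, Complex.re_ofReal_mul, Ang_re]
    simp
  have hge : ((T.γ y - T.γ s) * ex (-(T.τ s + g s))).re ≤ ‖T.γ y - T.γ s‖ := by
    refine (Complex.re_le_norm _).trans ?_
    rw [norm_mul, ex_norm, mul_one]
  have hgc : Continuous fun x => Real.cos (g x) := Real.continuous_cos.comp h.leaf.cont
  have hτc : Continuous T.τ := T.smooth.continuous
  have hcc : Continuous fun x => Real.cos (T.τ x - (T.τ s + g s)) :=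
    Real.continuous_cos.comp (hτc.sub continuous_const)
  have hftc : ∫ x in (f s)..y, Real.cos (T.τ x - (T.τ s + g s)) =
      ((T.γ y - T.γ s) * ex (-(T.τ s + g s))).re - ((T.γ (f s) - T.γ s) * ex (-(T.τ s + g s))).re :=
    intervalIntegral.integral_eq_sub_of_hasDerivAt (fun x _ => Tay_der T (T.γ s) _ x)
      (hcc.intervalIntegrable _ _)
  have hadj : (∫ x in s..y, Real.cos (g x)) - (∫ x in s..(f s), Real.cos (g x)) =
      ∫ x in (f s)..y, Real.cos (g x) := by
    rw [intervalIntegral.integral_interval_sub_left (hgc.intervalIntegrable _ _)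
      (hgc.intervalIntegrable _ _)]
  -- pointwise bound
  have hpt : ∀ x, |Real.cos (T.τ x - (T.τ s + g s)) - Real.cos (g x)| ≤ 2 * K * |x - f s| := by
    intro x
    have h1 : |Real.cos (T.τ x - (T.τ s + g s)) - Real.cos (g x)| ≤
        |(T.τ x - (T.τ s + g s)) - g x| := Real.abs_cos_sub_cos_le _ _
    have h2 := h.tau s
    have h3 : (T.τ x - (T.τ s + g s)) - g x = (T.τ x - T.τ (f s)) + (g (f s) - g x) := by linarith
    have h4 := leaf_lip hκ h.leaf (f s) x
    have h5 := hK x (f s)
    have h6 : |T.τ (f s) - T.τ x| = |T.τ x - T.τ (f s)| := abs_sub_comm _ _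
    rw [h3] at h1
    have h7 := abs_add_le (T.τ x - T.τ (f s)) (g (f s) - g x)
    linarith
  -- integral bound
  have hint : |∫ x in (f s)..y, (Real.cos (T.τ x - (T.τ s + g s)) - Real.cos (g x))| ≤ K * (y - f s) ^ 2 := by
    rcases le_total (f s) y with hle | hle
    · have h1 : |∫ x in (f s)..y, (Real.cos (T.τ x - (T.τ s + g s)) - Real.cos (g x))| ≤
          ∫ x in (f s)..y, 2 * K * (x - f s) := by
        rw [← Real.norm_eq_abs]
        refine intervalIntegral.norm_integral_le_of_norm_le hle ?_ ?_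
        · refine Filter.Eventually.of_forall fun x hx => ?_
          have := hpt x
          rw [Real.norm_eq_abs]
          rw [abs_of_nonneg (by linarith [hx.1] : (0 : ℝ) ≤ x - f s)] at this
          exact this
        · exact (Continuous.intervalIntegrable (by fun_prop) _ _)
      have h2 : ∫ x in (f s)..y, 2 * K * (x - f s) = K * (y - f s) ^ 2 := by
        have : ∀ x, HasDerivAt (fun x => K * (x - f s) ^ 2) (2 * K * (x - f s)) x := by
          intro x
          have h3 := (((hasDerivAt_id x).sub_const (f s)).pow 2).const_mul K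
          refine HasDerivAt.congr_deriv h3 ?_
          simp; ring
        rw [intervalIntegral.integral_eq_sub_of_hasDerivAt (fun x _ => this x)
          (Continuous.intervalIntegrable (by fun_prop) _ _)]
        ring
      linarith
    · have h1 : |∫ x in y..(f s), (Real.cos (T.τ x - (T.τ s + g s)) - Real.cos (g x))| ≤
          ∫ x in y..(f s), 2 * K * (f s - x) := by
        rw [← Real.norm_eq_abs]
        refine intervalIntegral.norm_integral_le_of_norm_le hle ?_ ?_
        · refine Filter.Eventually.of_forall fun x hx => ?_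
          have := hpt x
          rw [Real.norm_eq_abs]
          rw [abs_of_nonpos (by linarith [hx.2] : x - f s ≤ 0)] at this
          linarith
        · exact (Continuous.intervalIntegrable (by fun_prop) _ _)
      have h2 : ∫ x in y..(f s), 2 * K * (f s - x) = K * (y - f s) ^ 2 := by
        have : ∀ x, HasDerivAt (fun x => - (K * (x - f s) ^ 2)) (2 * K * (f s - x)) x := by
          intro x
          have h3 := ((((hasDerivAt_id x).sub_const (f s)).pow 2).const_mul K).neg
          refine HasDerivAt.congr_deriv h3 ?_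
          simp; ring
        rw [intervalIntegral.integral_eq_sub_of_hasDerivAt (fun x _ => this x)
          (Continuous.intervalIntegrable (by fun_prop) _ _)]
        ring
      rw [intervalIntegral.integral_symm, abs_neg]
      linarith
  rw [intervalIntegral.integral_sub (hcc.intervalIntegrable _ _) (hgc.intervalIntegrable _ _), hftc] at hint
  have h8 := (abs_le.1 hint).1
  rw [hlen]
  linarith

/-- the same with the string constant -/
theorem tay' (hκ : ∀ s, 0 < deriv T.τ s) {g f : ℝ → ℝ} (h : Lf T g f) {K : ℝ}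
    (hK : ∀ s s', |T.τ s - T.τ s'| ≤ K * |s - s'|) {A : ℝ} (hA : Str T g f A) (s y : ℝ) :
    A - K * (y - f s) ^ 2 ≤ ‖T.γ y - T.γ s‖ - ∫ x in s..y, Real.cos (g x) := by
  have h1 := tay hκ h hK s y
  have h2 := ((hA s (f s) (h.lo s) (h.hi s)).2).2 rfl
  linarith

end Pool.Agent.H50.BQ
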