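/-
ROW GpL.  No gap below a circle of periodic orbits.
PROOF.  L = T.L, φ = phi g g' (g <= g'; φ is nondecreasing, φ (x + k L) = φ x + k Δ, Δ = φ L), A, A' string constants of g, g' (Lf.str), a := A' - A.
(1) For every x: ‖γ (f x) - γ x‖ = A + ∫_x^{f x} cos g (Str g f, equality case) <= A' + ∫_x^{f x} cos g' (Str g' f').  So φ (f x) - φ x <= a (phi_sub).
    Sum over x_i = f^[i] 0, i < q m:  q m a >= φ (f^[q m] 0) - φ 0 >= φ ((m p - 1) L) - φ 0 = (m p - 1) Δ (hlo with N = q m; phi_mono).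
    m → ∞:  q a >= p Δ.
(2) K from tau_lip.  x < f' x - ε for all x if 0 < ε <= ε0, ε0 > 0 (minimum of the continuous L-periodic positive function f' x - x on [0, L]).
    Let 0 < ε < ε0 and F x = f' x - ε.  For every x: x < F x < x + L, so by Str g f and tay' (for g', f'):
      A' - K ε^2 <= ‖γ (F x) - γ x‖ - ∫_x^{F x} cos g'  and  ‖γ (F x) - γ x‖ - ∫_x^{F x} cos g <= A, so  a - K ε^2 <= φ (F x) - φ x.
    F is strictly increasing, F (x+kL) = F x + kL.  F^[q] x <= f'^[q] x - ε = x + p L - ε.  So F^[q m] 0 <= m p L - m ε.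
    m := ceil (L/ε): F^[q m] 0 <= (m p - 1) L, hence q m (a - K ε^2) <= φ (F^[q m] 0) - φ 0 <= (m p - 1) Δ <= q m a - Δ, so
    Δ <= q m K ε^2 <= q K (L/ε + 1) ε^2 = q K (L + ε) ε.  As ε → 0: Δ <= 0.  phi_eq gives g = g'.
-/
import Mathlib
import Pool.Agent.H50.BQ.Tay
import Pool.Agent.H50.BQ.Phi

set_option autoImplicit false

namespace Pool.Agent.H50.BQ

open Set Filter Topology Pool.Agent.H46.BL

variable {T : Table}

private theorem GpL_sum {F φ : ℝ → ℝ} {c : ℝ} (h : ∀ x, φ (F x) - φ x ≤ c) (N : ℕ) (x : ℝ) :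
    φ (F^[N] x) - φ x ≤ N * c := by
  induction N with
  | zero => simp
  | succ n ih =>
    rw [Function.iterate_succ_apply']
    have := h (F^[n] x)
    push_cast
    linarith

private theorem GpL_sum' {F φ : ℝ → ℝ} {c : ℝ} (h : ∀ x, c ≤ φ (F x) - φ x) (N : ℕ) (x : ℝ) :
    N * c ≤ φ (F^[N] x) - φ x := by
  induction N with
  | zero => simp
  | succ n ih =>
    rw [Function.iterate_succ_apply']
    have := h (F^[n] x)
    push_cast
    linarith

theorem gap_lo (hκ : ∀ s, 0 < deriv T.τ s) {g f g' f' : ℝ → ℝ} (h : Lf T g f) (h' : Lf T g' f')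
    (hle : ∀ s, g s ≤ g' s) {p q : ℕ} (hq : 0 < q) (hper : ∀ s, f'^[q] s = s + p * T.L)
    (hlo : ∀ (N : ℕ) (s : ℝ), s + (N * ((p : ℝ) / q) - 1) * T.L ≤ f^[N] s) : g = g' := by
  obtain ⟨A, hA⟩ := h.str hκ
  obtain ⟨A', hA'⟩ := h'.str hκ
  have hgc := h.leaf.cont
  have hgc' := h'.leaf.cont
  have hL := T.Lpos
  have hq0 : (0 : ℝ) < q := by exact_mod_cast hq
  have hmono : Monotone (phi g g') := phi_mono hgc hgc' h.leaf.mem h'.leaf.mem hle
  have hadd : ∀ (t : ℝ) (k : ℤ), phi g g' (t + k * T.L) = phi g g' t + k * phi g g' T.L :=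
    phi_addz hgc hgc' h.leaf.per h'.leaf.per
  refine phi_eq hgc hgc' h.leaf.mem h'.leaf.mem hle hL h.leaf.per h'.leaf.per ?_
  obtain ⟨D, hD⟩ : ∃ D : ℝ, D = phi g g' T.L := ⟨_, rfl⟩
  rw [← hD]
  rw [← hD] at hadd
  have hadd' : ∀ (m : ℕ), phi g g' (0 + ((m : ℝ) * p - 1) * T.L) =
      phi g g' 0 + ((m : ℝ) * p - 1) * D := by
    intro m
    have h0 := hadd 0 ((m : ℤ) * p - 1)
    push_cast at h0
    exact h0
  -- (1)
  have h1 : ∀ x, phi g g' (f x) - phi g g' x ≤ A' - A := by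
    intro x
    rw [phi_sub hgc hgc']
    have e1 := ((hA x (f x) (h.lo x) (h.hi x)).2).2 rfl
    have e2 := (hA' x (f x) (h.lo x) (h.hi x)).1
    linarith
  have h2 : ∀ m : ℕ, ((m : ℝ) * p - 1) * D ≤ m * (q * (A' - A)) := by
    intro m
    have e1 := GpL_sum h1 (q * m) 0
    have e2 := hmono (hlo (q * m) 0)
    have e3 : (((q * m : ℕ) : ℝ) * ((p : ℝ) / q) - 1) = (m : ℝ) * p - 1 := by
      push_cast
      field_simp
    rw [e3, hadd'] at e2
    push_cast at e1
    linarith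
  have h3 : (p : ℝ) * D ≤ q * (A' - A) := by
    by_contra hcon
    push Not at hcon
    obtain ⟨m, hm⟩ := exists_nat_gt (D / (p * D - q * (A' - A)))
    have hpos : 0 < p * D - q * (A' - A) := by linarith
    rw [div_lt_iff₀ hpos] at hm
    have := h2 m
    nlinarith
  -- (2)
  obtain ⟨K, hK0, hK⟩ := tau_lip (T := T) hκ
  have hper' : Function.Periodic (fun x => f' x - x) T.L := by
    intro x
    have e1 := h'.addz hκ x 1
    push_cast at e1
    rw [one_mul] at e1
    show f' (x + T.L) - (x + T.L) = f' x - x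
    rw [e1]
    ring
  obtain ⟨ε0, hε0, hmin⟩ : ∃ ε0 : ℝ, 0 < ε0 ∧ ∀ x, ε0 ≤ f' x - x := by
    obtain ⟨x0, hx0, hx0m⟩ := (isCompact_Icc (a := (0 : ℝ)) (b := T.L)).exists_isMinOn
      (nonempty_Icc.2 hL.le) ((h'.cont.sub continuous_id).continuousOn)
    refine ⟨f' x0 - x0, sub_pos.2 (h'.lo x0), fun x => ?_⟩
    obtain ⟨y, hy, hxy⟩ := hper'.exists_mem_Ico₀ hL x
    have e1 : f' x0 - x0 ≤ f' y - y := hx0m (Ico_subset_Icc_self hy)
    have e2 : f' x - x = f' y - y := hxy
    rw [e2]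
    exact e1
  have key : ∀ ε : ℝ, 0 < ε → ε < ε0 → D ≤ q * K * (T.L + ε) * ε := by
    intro ε hε hε1
    obtain ⟨F, hF⟩ : ∃ F : ℝ → ℝ, F = fun x => f' x - ε := ⟨_, rfl⟩
    have hFx : ∀ x, F x = f' x - ε := fun x => by rw [hF]
    have hFlo : ∀ x, x < F x := by
      intro x
      rw [hFx]
      have := hmin x
      linarith
    have hFhi : ∀ x, F x < x + T.L := by
      intro x
      rw [hFx]
      have := h'.hi x
      linarith
    have k1 : ∀ x, A' - A - K * ε ^ 2 ≤ phi g g' (F x) - phi g g' x := by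
      intro x
      rw [phi_sub hgc hgc']
      have e1 := tay' hκ h' hK hA' x (F x)
      have e2 := (hA x (F x) (hFlo x) (hFhi x)).1
      have e3 : (F x - f' x) ^ 2 = ε ^ 2 := by
        rw [hFx]
        ring
      rw [e3] at e1
      linarith
    have k2 : ∀ (n : ℕ) (x : ℝ), F^[n] x ≤ f'^[n] x := by
      intro n x
      induction n with
      | zero => exact le_rfl
      | succ n ih =>
        rw [Function.iterate_succ_apply', Function.iterate_succ_apply', hFx]
        have := h'.mono.monotone ih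
        linarith
    have k3 : ∀ x, F^[q] x ≤ x + p * T.L - ε := by
      intro x
      obtain ⟨r, rfl⟩ := Nat.exists_eq_succ_of_ne_zero hq.ne'
      rw [← hper x, Function.iterate_succ_apply', Function.iterate_succ_apply', hFx]
      have := h'.mono.monotone (k2 r x)
      linarith
    have k4 : ∀ m : ℕ, F^[q * m] 0 ≤ m * p * T.L - m * ε := by
      intro m
      induction m with
      | zero => simp
      | succ m ih =>
        have e1 : q * (m + 1) = q + q * m := by ring
        rw [e1, Function.iterate_add_apply]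
        have := k3 (F^[q * m] 0)
        push_cast
        linarith
    obtain ⟨m, hm⟩ : ∃ m : ℕ, m = ⌈T.L / ε⌉₊ := ⟨_, rfl⟩
    have m1 : T.L / ε ≤ m := by
      rw [hm]
      exact Nat.le_ceil _
    have m2 : (m : ℝ) ≤ T.L / ε + 1 := by
      rw [hm]
      exact (Nat.ceil_lt_add_one (by positivity)).le
    have m1' : T.L ≤ m * ε := by
      rwa [div_le_iff₀ hε] at m1
    have k5 : F^[q * m] 0 ≤ 0 + ((m : ℝ) * p - 1) * T.L := by
      have := k4 m
      linarith
    have k6 := hmono k5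
    rw [hadd'] at k6
    have k7 := GpL_sum' k1 (q * m) 0
    push_cast at k7
    have k8 : (m : ℝ) * (p * D) ≤ m * (q * (A' - A)) :=
      mul_le_mul_of_nonneg_left h3 (Nat.cast_nonneg m)
    have k9 : D ≤ q * K * ε ^ 2 * m := by
      nlinarith
    have k10 : q * K * ε ^ 2 * m ≤ q * K * ε ^ 2 * (T.L / ε + 1) :=
      mul_le_mul_of_nonneg_left m2 (by positivity)
    have k11 : q * K * ε ^ 2 * (T.L / ε + 1) = q * K * (T.L + ε) * ε := by
      field_simp
    linarith
  by_contra hcon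
  push Not at hcon
  obtain ⟨ε, hε⟩ : ∃ ε : ℝ, ε = min (ε0 / 2) (min T.L (D / (4 * q * K * T.L))) := ⟨_, rfl⟩
  have c1 : 0 < D / (4 * q * K * T.L) := by positivity
  have c2 : 0 < ε := by
    rw [hε]
    exact lt_min (by linarith) (lt_min hL c1)
  have c3 : ε ≤ ε0 / 2 := by rw [hε]; exact min_le_left _ _
  have c4 : ε ≤ T.L := by rw [hε]; exact (min_le_right _ _).trans (min_le_left _ _)
  have c5 : ε ≤ D / (4 * q * K * T.L) := by rw [hε]; exact (min_le_right _ _).trans (min_le_right _ _)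
  have c6 := key ε c2 (by linarith)
  rw [le_div_iff₀ (by positivity)] at c5
  have c7 : q * K * (T.L + ε) * ε ≤ q * K * (T.L + T.L) * ε := by
    gcongr
  nlinarith

end Pool.Agent.H50.BQ
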