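/-
ROW GpU.  No gap above a circle of periodic orbits.
PROOF.  L = T.L, φ = phi g g' (g <= g'; φ is nondecreasing, φ (x + k L) = φ x + k Δ, Δ = φ L), A, A' string constants of g, g' (Lf.str), a := A' - A.
(1) For every x: ‖γ (f' x) - γ x‖ = A' + ∫_x^{f' x} cos g' (Str g' f', equality case) <= A + ∫_x^{f' x} cos g (Str g f).  So a <= φ (f' x) - φ x (phi_sub).
    Sum over x_i = f'^[i] 0, i < q m:  q m a <= φ (f'^[q m] 0) - φ 0 <= φ ((m p + 1) L) - φ 0 = (m p + 1) Δ (hup with N = q m, w q = p; phi_mono).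
    Divide by m, m → ∞:  q a <= p Δ.   (If q a > p Δ choose m > Δ / (q a - p Δ).)
(2) K from tau_lip.  f x + ε < x + L for all x if 0 < ε <= ε0, ε0 > 0: x ↦ x + L - f x is continuous, positive, L-periodic (Lf.addz, Lf.hi): minimum on [0, L].
    Let 0 < ε < ε0 and F x = f x + ε.  For every x: x < F x < x + L, so by Str g' f' and tay' (for g, f):
      A - K ε^2 <= ‖γ (F x) - γ x‖ - ∫_x^{F x} cos g  and  ‖γ (F x) - γ x‖ - ∫_x^{F x} cos g' <= A', so  φ (F x) - φ x <= a + K ε^2.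
    F is strictly increasing, F (x+kL) = F x + kL.  F^[q] x >= f^[q] x + ε = x + p L + ε (q > 0: F^[q] x = F (F^[q-1] x) >= f (f^[q-1] x) + ε).
    So F^[q m] 0 >= m p L + m ε (induction on m, F^[q] (y) >= y + p L + ε for all y).
    m := ceil (L/ε): F^[q m] 0 >= (m p + 1) L, hence (m p + 1) Δ <= φ (F^[q m] 0) - φ 0 <= q m (a + K ε^2) <= m p Δ + q m K ε^2, so
    Δ <= q m K ε^2 <= q K (L/ε + 1) ε^2 = q K (L + ε) ε.  As ε → 0: Δ <= 0.  phi_eq gives g = g'.
-/
import Mathlib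
import Pool.Agent.H50.BQ.Tay
import Pool.Agent.H50.BQ.Phi

set_option autoImplicit false

namespace Pool.Agent.H50.BQ

open Set Filter Topology Pool.Agent.H46.BL

variable {T : Table}

private theorem gpu_sum_lo {φ F : ℝ → ℝ} {a : ℝ} (h : ∀ x, a ≤ φ (F x) - φ x) (N : ℕ) (x : ℝ) :
    N * a ≤ φ (F^[N] x) - φ x := by
  induction N with
  | zero => simp
  | succ N ih =>
    rw [Function.iterate_succ_apply']
    have h1 := h (F^[N] x)
    push_cast
    linarith

private theorem gpu_sum_hi {φ F : ℝ → ℝ} {a : ℝ} (h : ∀ x, φ (F x) - φ x ≤ a) (N : ℕ) (x : ℝ) :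
    φ (F^[N] x) - φ x ≤ N * a := by
  induction N with
  | zero => simp
  | succ N ih =>
    rw [Function.iterate_succ_apply']
    have h1 := h (F^[N] x)
    push_cast
    linarith

private theorem gpu_grow {G : ℝ → ℝ} {c : ℝ} (h : ∀ y, y + c ≤ G y) (m : ℕ) : m * c ≤ G^[m] 0 := by
  induction m with
  | zero => simp
  | succ m ih =>
    rw [Function.iterate_succ_apply']
    have h1 := h (G^[m] 0)
    push_cast
    linarith

/-- a uniform gap below one turn -/
private theorem gpu_eps (hκ : ∀ s, 0 < deriv T.τ s) {g f : ℝ → ℝ} (h : Lf T g f) :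
    ∃ ε₀ : ℝ, 0 < ε₀ ∧ ∀ x, f x + ε₀ ≤ x + T.L := by
  have hL := T.Lpos
  have hc : Continuous fun x : ℝ => x + T.L - f x := by
    have := h.cont
    fun_prop
  obtain ⟨x0, hx0, hmin⟩ := isCompact_Icc.exists_isMinOn (nonempty_Icc.2 hL.le)
    (hc.continuousOn (s := Icc 0 T.L))
  refine ⟨x0 + T.L - f x0, by linarith [h.hi x0], fun x => ?_⟩
  have h1 : (⌊x / T.L⌋ : ℝ) * T.L ≤ x := (le_div_iff₀ hL).1 (Int.floor_le _)
  have h2 : x < ((⌊x / T.L⌋ : ℝ) + 1) * T.L := (div_lt_iff₀ hL).1 (Int.lt_floor_add_one _)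
  have h3 : x - (⌊x / T.L⌋ : ℝ) * T.L ∈ Icc 0 T.L := ⟨by linarith, by linarith⟩
  have h4 : x0 + T.L - f x0 ≤ (x - (⌊x / T.L⌋ : ℝ) * T.L) + T.L - f (x - (⌊x / T.L⌋ : ℝ) * T.L) := hmin h3
  have h5 := h.addz hκ (x - (⌊x / T.L⌋ : ℝ) * T.L) ⌊x / T.L⌋
  rw [sub_add_cancel] at h5
  rw [h5]
  linarith

theorem gap_up (hκ : ∀ s, 0 < deriv T.τ s) {g f g' f' : ℝ → ℝ} (h : Lf T g f) (h' : Lf T g' f')
    (hle : ∀ s, g s ≤ g' s) {p q : ℕ} (hq : 0 < q) (hper : ∀ s, f^[q] s = s + p * T.L)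
    (hup : ∀ (N : ℕ) (s : ℝ), f'^[N] s ≤ s + (N * ((p : ℝ) / q) + 1) * T.L) : g = g' := by
  have hL := T.Lpos
  have hg := h.leaf.cont
  have hg' := h'.leaf.cont
  obtain ⟨A, hA⟩ := h.str hκ
  obtain ⟨A', hA'⟩ := h'.str hκ
  obtain ⟨K, hK0, hK⟩ := tau_lip (T := T) hκ
  obtain ⟨ε₀, hε₀, hgap⟩ := gpu_eps hκ h
  have hmono : Monotone (phi g g') := phi_mono hg hg' h.leaf.mem h'.leaf.mem hle
  have hq' : (0 : ℝ) < q := by exact_mod_cast hq
  -- (1)
  have h1 : ∀ x, A' - A ≤ phi g g' (f' x) - phi g g' x := by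
    intro x
    rw [phi_sub hg hg']
    have e1 := (hA' x (f' x) (h'.lo x) (h'.hi x)).2.2 rfl
    have e2 := (hA x (f' x) (h'.lo x) (h'.hi x)).1
    linarith
  have hz : ∀ k : ℕ, phi g g' ((k : ℝ) * T.L) = phi g g' 0 + k * phi g g' T.L := by
    intro k
    have := phi_addz hg hg' h.leaf.per h'.leaf.per 0 (k : ℤ)
    rw [zero_add] at this
    exact_mod_cast this
  have h2 : ∀ m : ℕ, (m : ℝ) * (q * (A' - A) - p * phi g g' T.L) ≤ phi g g' T.L := by
    intro m
    have e1 := gpu_sum_lo h1 (q * m) 0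
    have e2 := hup (q * m) 0
    have e3 : (((q * m : ℕ) : ℝ) * ((p : ℝ) / q) + 1) * T.L = ((m * p + 1 : ℕ) : ℝ) * T.L := by
      push_cast
      field_simp
    rw [zero_add, e3] at e2
    have e4 := hmono e2
    rw [hz] at e4
    push_cast at e1 e4
    linarith
  have h3 : q * (A' - A) ≤ p * phi g g' T.L := by
    by_contra hcon
    push Not at hcon
    have hd : 0 < q * (A' - A) - p * phi g g' T.L := by linarith
    obtain ⟨m, hm⟩ := exists_nat_gt (phi g g' T.L / (q * (A' - A) - p * phi g g' T.L))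
    have := (div_lt_iff₀ hd).1 hm
    linarith [h2 m]
  -- (2)
  have h4 : ∀ ε : ℝ, 0 < ε → ε < ε₀ → phi g g' T.L ≤ q * K * (T.L + ε) * ε := by
    intro ε hε hεε
    set F : ℝ → ℝ := fun x => f x + ε with hF
    have b1 : ∀ x, phi g g' (F x) - phi g g' x ≤ (A' - A) + K * ε ^ 2 := by
      intro x
      rw [phi_sub hg hg']
      have hlo : x < F x := by
        have := h.lo x
        simp only [hF]
        linarith
      have hhi : F x < x + T.L := by
        have := hgap x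
        simp only [hF]
        linarith
      have e1 := (hA' x (F x) hlo hhi).1
      have e2 := tay' hκ h hK hA x (F x)
      have e3 : F x - f x = ε := by
        simp only [hF]
        ring
      rw [e3] at e2
      linarith
    have b2 : ∀ n x, f^[n] x ≤ F^[n] x := by
      intro n
      induction n with
      | zero => intro x; exact le_rfl
      | succ n ih =>
        intro x
        rw [Function.iterate_succ_apply', Function.iterate_succ_apply']
        have e1 := h.mono.monotone (ih x)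
        simp only [hF] at e1 ⊢
        linarith
    have b3 : ∀ y, y + (p * T.L + ε) ≤ F^[q] y := by
      intro y
      obtain ⟨r, rfl⟩ : ∃ r, q = r + 1 := ⟨q - 1, by omega⟩
      have e0 := hper y
      rw [Function.iterate_succ_apply'] at e0 ⊢
      have e1 := h.mono.monotone (b2 r y)
      simp only [hF] at e1 ⊢
      linarith
    have b4 : ∀ m : ℕ, (m : ℝ) * (p * T.L + ε) ≤ F^[q * m] 0 := by
      intro m
      rw [Function.iterate_mul]
      exact gpu_grow b3 m
    set m : ℕ := ⌈T.L / ε⌉₊ with hm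
    have c1 : T.L ≤ m * ε := (div_le_iff₀ hε).1 (Nat.le_ceil _)
    have c2 : (m : ℝ) < T.L / ε + 1 := Nat.ceil_lt_add_one (by positivity)
    have c3 : ((m * p + 1 : ℕ) : ℝ) * T.L ≤ F^[q * m] 0 := by
      refine le_trans ?_ (b4 m)
      push_cast
      linarith
    have c4 := hmono c3
    rw [hz] at c4
    have c5 := gpu_sum_hi b1 (q * m) 0
    push_cast at c4 c5
    have hm0 : (0 : ℝ) ≤ m := Nat.cast_nonneg m
    have c6 : (m : ℝ) * (q * (A' - A)) ≤ m * (p * phi g g' T.L) := mul_le_mul_of_nonneg_left h3 hm0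
    have c7 : phi g g' T.L ≤ q * K * ε ^ 2 * m := by
      linarith
    have c8 : q * K * ε ^ 2 * m ≤ q * K * ε ^ 2 * (T.L / ε + 1) :=
      mul_le_mul_of_nonneg_left c2.le (by positivity)
    have c9 : q * K * ε ^ 2 * (T.L / ε + 1) = q * K * (T.L + ε) * ε := by
      field_simp
    linarith
  refine phi_eq hg hg' h.leaf.mem h'.leaf.mem hle hL h.leaf.per h'.leaf.per ?_
  by_contra hcon
  push Not at hcon
  have hden : 0 < 2 * (q * K * (T.L + 1)) := by positivity
  set ε : ℝ := min (ε₀ / 2) (min 1 (phi g g' T.L / (2 * (q * K * (T.L + 1))))) with hε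
  have e1 : 0 < ε := by
    rw [hε]
    exact lt_min (by linarith) (lt_min one_pos (div_pos hcon hden))
  have e2 : ε < ε₀ := lt_of_le_of_lt (min_le_left _ _) (by linarith)
  have e3 : ε ≤ 1 := (min_le_right _ _).trans (min_le_left _ _)
  have e4 : ε ≤ phi g g' T.L / (2 * (q * K * (T.L + 1))) := (min_le_right _ _).trans (min_le_right _ _)
  have e5 := (le_div_iff₀ hden).1 e4
  have e6 := h4 ε e1 e2
  have e7 : q * K * (T.L + ε) * ε ≤ q * K * (T.L + 1) * ε := by
    refine mul_le_mul_of_nonneg_right (mul_le_mul_of_nonneg_left (by linarith) (by positivity)) e1.le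
  linarith

end Pool.Agent.H50.BQ
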