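/-
ROW Rot.  Rotation numbers.  L = T.L > 0.
PROOF.
(0) it_mul: F^[q] s = s + p L for all s implies F^[q*m] s = s + m p L (induction on m, Function.iterate_add_apply / iterate_mul).
(1) it_ge: if F^[N] s >= s + k L (k : ℤ) then F^[N*m] s >= s + m k L (induction with F^[N] monotone and Lf.it_addz).  it_le' the same with <=.
(2) rot_up: by Lf.it_le, f^[N] s <= F^[N] s.  Suppose F^[N] s > s + (N w + 1) L, w = p/q.  k := floor (N w) + 1 <= N w + 1, so F^[N] s >= s + k L, so by (1)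
    F^[N*q] s >= s + q k L; but F^[N*q] s = F^[q*N] s = s + N p L by (0).  So N p >= q k > q (N w) = N p: contradiction.
(3) rot_lo: F^[N] s <= f^[N] s.  Suppose F^[N] s < s + (N w - 1) L; k := ceil (N w) - 1 >= N w - 1, so F^[N] s <= s + k L, so s + N p L = F^[N*q] s <= s + q k L, so
    N p <= q k < q N w = N p: contradiction.
(4) ord: suppose g s = g' s for some s.  Then the two orbits of s coincide (Lf.eq_iff and g (f s) = τ (f s) - τ s - g s from Lf.tau), so f^[n] s = f'^[n] s for all n;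
    n = q q': s + q' p L = s + q p' L, contradiction to p q' < p' q.  So g - g' has no zero; being continuous it has a constant sign on ℝ.  If g' < g everywhere then
    f'^[q q'] s <= f^[q q'] s (Lf.it_le), i.e. s + q p' L <= s + q' p L: contradiction.  So g < g' everywhere.
-/
import Mathlib
import Pool.Agent.H50.BQ.Lfb

set_option autoImplicit false

namespace Pool.Agent.H50.BQ

open Set Filter Topology Pool.Agent.H46.BL

variable {T : Table}

theorem it_mul (hκ : ∀ s, 0 < deriv T.τ s) {G F : ℝ → ℝ} (hF : Lf T G F) {p q : ℕ}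
    (hper : ∀ s, F^[q] s = s + p * T.L) (m : ℕ) (s : ℝ) : F^[q * m] s = s + m * p * T.L := by
  induction m generalizing s with
  | zero => simp
  | succ m ih =>
    rw [Nat.mul_succ, Function.iterate_add_apply, hper s, ih]
    push_cast
    ring

theorem it_ge (hκ : ∀ s, 0 < deriv T.τ s) {G F : ℝ → ℝ} (hF : Lf T G F) {N : ℕ} {s : ℝ} {k : ℤ}
    (h : s + k * T.L ≤ F^[N] s) (m : ℕ) : s + m * k * T.L ≤ F^[N * m] s := by
  induction m with
  | zero => simp
  | succ m ih =>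
    rw [Nat.mul_succ, Nat.add_comm (N * m) N, Function.iterate_add_apply]
    have h1 := (hF.it_mono N).monotone ih
    have h2 := hF.it_addz hκ N s ((m : ℤ) * k)
    push_cast at h2 ⊢
    rw [h2] at h1
    linarith

theorem it_le' (hκ : ∀ s, 0 < deriv T.τ s) {G F : ℝ → ℝ} (hF : Lf T G F) {N : ℕ} {s : ℝ} {k : ℤ}
    (h : F^[N] s ≤ s + k * T.L) (m : ℕ) : F^[N * m] s ≤ s + m * k * T.L := by
  induction m with
  | zero => simp
  | succ m ih =>
    rw [Nat.mul_succ, Nat.add_comm (N * m) N, Function.iterate_add_apply]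
    have h1 := (hF.it_mono N).monotone ih
    have h2 := hF.it_addz hκ N s ((m : ℤ) * k)
    push_cast at h2 ⊢
    rw [h2] at h1
    linarith

theorem rot_up (hκ : ∀ s, 0 < deriv T.τ s) {g f G F : ℝ → ℝ} (h : Lf T g f) (hF : Lf T G F)
    (hle : ∀ s, g s ≤ G s) {p q : ℕ} (hq : 0 < q) (hper : ∀ s, F^[q] s = s + p * T.L) (N : ℕ) (s : ℝ) :
    f^[N] s ≤ s + (N * ((p : ℝ) / q) + 1) * T.L := by
  have h1 := h.it_le hκ hF hle N s
  refine h1.trans ?_
  by_contra hc
  rw [not_le] at hc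
  have hL := T.Lpos
  have hq' : (0 : ℝ) < q := by exact_mod_cast hq
  obtain ⟨k, hk⟩ : ∃ k : ℤ, k = ⌊(N : ℝ) * ((p : ℝ) / q)⌋ + 1 := ⟨_, rfl⟩
  have hk1 : (k : ℝ) ≤ (N : ℝ) * ((p : ℝ) / q) + 1 := by
    rw [hk]
    push_cast
    have := Int.floor_le ((N : ℝ) * ((p : ℝ) / q))
    linarith
  have hk2 : (N : ℝ) * ((p : ℝ) / q) < k := by
    rw [hk]
    push_cast
    exact Int.lt_floor_add_one _
  have h2 : s + k * T.L ≤ F^[N] s := by
    have h3 : (k : ℝ) * T.L ≤ ((N : ℝ) * ((p : ℝ) / q) + 1) * T.L :=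
      mul_le_mul_of_nonneg_right hk1 hL.le
    linarith
  have h4 := it_ge hκ hF h2 q
  rw [Nat.mul_comm, it_mul hκ hF hper N s] at h4
  have h5 : (q : ℝ) * k * T.L ≤ N * p * T.L := by linarith
  have h6 : (q : ℝ) * k ≤ N * p := le_of_mul_le_mul_right h5 hL
  have h7 : (q : ℝ) * ((N : ℝ) * ((p : ℝ) / q)) < q * k := mul_lt_mul_of_pos_left hk2 hq'
  have h8 : (q : ℝ) * ((N : ℝ) * ((p : ℝ) / q)) = N * p := by
    field_simp
  linarith

theorem rot_lo (hκ : ∀ s, 0 < deriv T.τ s) {g f G F : ℝ → ℝ} (h : Lf T g f) (hF : Lf T G F)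
    (hle : ∀ s, G s ≤ g s) {p q : ℕ} (hq : 0 < q) (hper : ∀ s, F^[q] s = s + p * T.L) (N : ℕ) (s : ℝ) :
    s + (N * ((p : ℝ) / q) - 1) * T.L ≤ f^[N] s := by
  have h1 := hF.it_le hκ h hle N s
  refine le_trans ?_ h1
  by_contra hc
  rw [not_le] at hc
  have hL := T.Lpos
  have hq' : (0 : ℝ) < q := by exact_mod_cast hq
  obtain ⟨k, hk⟩ : ∃ k : ℤ, k = ⌈(N : ℝ) * ((p : ℝ) / q)⌉ - 1 := ⟨_, rfl⟩
  have hk1 : (N : ℝ) * ((p : ℝ) / q) - 1 ≤ (k : ℝ) := by
    rw [hk]
    push_cast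
    have := Int.le_ceil ((N : ℝ) * ((p : ℝ) / q))
    linarith
  have hk2 : (k : ℝ) < (N : ℝ) * ((p : ℝ) / q) := by
    rw [hk]
    push_cast
    have := Int.ceil_lt_add_one ((N : ℝ) * ((p : ℝ) / q))
    linarith
  have h2 : F^[N] s ≤ s + k * T.L := by
    have h3 : ((N : ℝ) * ((p : ℝ) / q) - 1) * T.L ≤ (k : ℝ) * T.L :=
      mul_le_mul_of_nonneg_right hk1 hL.le
    linarith
  have h4 := it_le' hκ hF h2 q
  rw [Nat.mul_comm, it_mul hκ hF hper N s] at h4
  have h5 : (N : ℝ) * p * T.L ≤ q * k * T.L := by linarith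
  have h6 : (N : ℝ) * p ≤ q * k := le_of_mul_le_mul_right h5 hL
  have h7 : (q : ℝ) * k < q * ((N : ℝ) * ((p : ℝ) / q)) := mul_lt_mul_of_pos_left hk2 hq'
  have h8 : (q : ℝ) * ((N : ℝ) * ((p : ℝ) / q)) = N * p := by
    field_simp
  linarith

theorem Rot_same (hκ : ∀ s, 0 < deriv T.τ s) {g f g' f' : ℝ → ℝ} (h : Lf T g f) (h' : Lf T g' f')
    {t : ℝ} (ht : g t = g' t) (n : ℕ) : f^[n] t = f'^[n] t ∧ g (f^[n] t) = g' (f^[n] t) := by
  induction n with
  | zero => exact ⟨rfl, ht⟩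
  | succ n ih =>
    obtain ⟨h1, h2⟩ := ih
    have h3 : f (f^[n] t) = f' (f^[n] t) := (h.eq_iff hκ h' _).1 h2
    have h4 : f^[n + 1] t = f'^[n + 1] t := by
      rw [Function.iterate_succ_apply', Function.iterate_succ_apply', h3, h1]
    refine ⟨h4, ?_⟩
    rw [Function.iterate_succ_apply']
    have h5 := h.tau (f^[n] t)
    have h6 := h'.tau (f^[n] t)
    rw [← h3] at h6
    linarith

theorem Rot_lt (hL : 0 < T.L) {p q p' q' : ℕ} (hlt : p * q' < p' * q) {s : ℝ} :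
    s + q' * p * T.L < s + q * p' * T.L := by
  have h1 : ((p : ℝ) * q') < p' * q := by exact_mod_cast hlt
  have h2 := mul_lt_mul_of_pos_right h1 hL
  linarith

theorem ord (hκ : ∀ s, 0 < deriv T.τ s) {g f g' f' : ℝ → ℝ} (h : Lf T g f) (h' : Lf T g' f')
    {p q p' q' : ℕ} (hq : 0 < q) (hq' : 0 < q') (hper : ∀ s, f^[q] s = s + p * T.L)
    (hper' : ∀ s, f'^[q'] s = s + p' * T.L) (hlt : p * q' < p' * q) (s : ℝ) : g s < g' s := by
  have hL := T.Lpos
  have hne : ∀ t, g t ≠ g' t := by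
    intro t ht
    have h1 := (Rot_same hκ h h' ht (q * q')).1
    rw [it_mul hκ h hper q' t, Nat.mul_comm, it_mul hκ h' hper' q t] at h1
    have h2 := Rot_lt (T := T) hL hlt (s := t)
    linarith
  by_contra hc
  rw [not_lt] at hc
  have hc2 : g' s < g s := lt_of_le_of_ne hc (fun e => hne s e.symm)
  have hall : ∀ t, g' t ≤ g t := by
    intro t
    by_contra hd
    rw [not_le] at hd
    have hcont : Continuous fun u => g u - g' u := h.leaf.cont.sub h'.leaf.cont
    have h3 : (0 : ℝ) ∈ Set.range fun u => g u - g' u := by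
      apply mem_range_of_exists_le_of_exists_ge hcont
      · exact ⟨t, by linarith⟩
      · exact ⟨s, by linarith⟩
    obtain ⟨u, hu⟩ := h3
    simp only at hu
    exact hne u (by linarith)
  have h4 := h'.it_le hκ h hall (q * q') s
  rw [it_mul hκ h hper q' s, Nat.mul_comm, it_mul hκ h' hper' q s] at h4
  have h2 := Rot_lt (T := T) hL hlt (s := s)
  linarith

end Pool.Agent.H50.BQ
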