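/-
ROW Irr.  No gap at an irrational rotation number.
PROOF.  L = T.L, φ = phi g g' (nondecreasing, φ (x + k L) = φ x + k Δ), A, A' string constants (Lf.str), a := A' - A.
(1) For every x: ‖γ (f x) - γ x‖ = A + ∫_x^{f x} cos g (Str g f, equality case) and <= A' + ∫_x^{f x} cos g' with equality iff f x = f' x
    (Str g' f' at (x, f x)).  So e x := a + φ x - φ (f x) >= 0, and e x = 0 iff f x = f' x iff g x = g' x (Lf.eq_iff).
(2) For every x: ‖γ (f' x) - γ x‖ = A' + ∫_x^{f' x} cos g' <= A + ∫_x^{f' x} cos g.  So a <= φ (f' x) - φ x.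
Suppose g x0 < g' x0 for some x0.  E := {x | g x = g' x}: closed, x ∈ E iff x + k L ∈ E.
(3) E is not empty: otherwise e > 0 everywhere, e is continuous and L-periodic, so e >= e0 > 0.  Sum over f^[i] 0, i < N: N e0 <= N a + φ 0 - φ (f^[N] 0).
    By (2) along f'^[i] 0: N a <= φ (f'^[N] 0) - φ 0 <= φ ((N w + 1) L) - φ 0, and φ (f^[N] 0) >= φ ((N w - 1) L).  So
    N e0 <= φ ((N w + 1) L) - φ ((N w - 1) L) = 2 Δ (phi_addz with k = 2): false for large N.
(4) Invariance: x ∈ E → f x ∈ E: f x = f' x =: y and g y = τ y - τ x - g x = g' y (Lf.tau).  Conversely f x ∈ E → x ∈ E: y = f x; bou: Bounce x (g x) y (g y), and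
    g y = g' y, so Lf.prev for h' gives g x = g' x.  So x ∈ E iff f^[n] x ∈ E.  On E: φ (f x) - φ x = a.
(5) E has elements <= x0 and >= x0 (translates).  u := sSup (E ∩ Iic x0), v := sInf (E ∩ Ici x0), u, v ∈ E (closed), u < x0 < v, E ∩ Ioo u v = ∅.
    m := φ v - φ u > 0 (phi_lt).  u_n = f^[n] u, v_n = f^[n] v ∈ E, φ v_n - φ u_n = m (induction from (4)), and E ∩ Ioo u_n v_n = ∅
    (a point of it is f^[n] z, surjectivity, with z ∈ Ioo u v by strict monotonicity, and z ∈ E by (4)).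
(6) For each n let k_n = floor (u_n / L), c_n = u_n - k_n L ∈ [0, L), φ c_n ∈ [0, Δ] (φ 0 = 0).  The map n ↦ floor (φ c_n / m) takes finitely many values, so there are
    n ≠ n' with the same value (pigeonhole, Finite.exists_ne_map_eq_of_infinite), so |φ c_n - φ c_n'| < m.  Say c_n <= c_n' (otherwise exchange).
    d_n := v_n - k_n L: φ c_n' < φ c_n + m = φ d_n, so c_n' < d_n (monotone).  c_n' ∈ E and (c_n, d_n) contains no point of E, so c_n' = c_n.
    So u_n and u_n' differ by an integer multiple of L; say n < n', M = n' - n: f^[M] u_n = u_n + k L with an integer k.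
    Then f^[M j] u_n = u_n + j k L for all j (it_ge, it_le' from Rot, or directly).  hlo: (M j w - 1) L <= j k L for all j, so M w <= k.
    f <= f' (Lf.le_of_le) and Lf.it_le with hup: j k L <= (M j w + 1) L, so k <= M w.  So M w = k: contradiction, w is irrational.
-/
import Mathlib
import Pool.Agent.H50.BQ.Rot
import Pool.Agent.H50.BQ.Phi

set_option autoImplicit false

namespace Pool.Agent.H50.BQ

open Set Filter Topology Pool.Agent.H46.BL

variable {T : Table}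

private theorem Irr_num {x b : ℝ} (h : ∀ j : ℕ, (j : ℝ) * x ≤ b) : x ≤ 0 := by
  by_contra hx
  have hx' : 0 < x := not_le.1 hx
  obtain ⟨j, hj⟩ := exists_nat_gt (b / x)
  have h1 := h j
  rw [div_lt_iff₀ hx'] at hj
  linarith

/-- (1) and (2) -/
theorem irr_step (hκ : ∀ s, 0 < deriv T.τ s) {g f g' f' : ℝ → ℝ} (h : Lf T g f) (h' : Lf T g' f') :
    ∃ a : ℝ, (∀ x, phi g g' (f x) - phi g g' x ≤ a) ∧
      (∀ x, phi g g' (f x) - phi g g' x = a ↔ g x = g' x) ∧
      ∀ x, a ≤ phi g g' (f' x) - phi g g' x := by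
  obtain ⟨A, hA⟩ := h.str hκ
  obtain ⟨A', hA'⟩ := h'.str hκ
  have cg := h.leaf.cont
  have cg' := h'.leaf.cont
  refine ⟨A' - A, fun x => ?_, fun x => ?_, fun x => ?_⟩
  · have h1 := (hA x (f x) (h.lo x) (h.hi x)).2.2 rfl
    have h2 := (hA' x (f x) (h.lo x) (h.hi x)).1
    have h3 := phi_sub cg cg' x (f x)
    linarith
  · have h1 := (hA x (f x) (h.lo x) (h.hi x)).2.2 rfl
    have h2 := (hA' x (f x) (h.lo x) (h.hi x)).2
    have h3 := phi_sub cg cg' x (f x)
    rw [h.eq_iff hκ h' x, ← h2]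
    constructor <;> intro h4 <;> linarith
  · have h1 := (hA' x (f' x) (h'.lo x) (h'.hi x)).2.2 rfl
    have h2 := (hA x (f' x) (h'.lo x) (h'.hi x)).1
    have h3 := phi_sub cg cg' x (f' x)
    linarith

theorem gap_irr (hκ : ∀ s, 0 < deriv T.τ s) {g f g' f' : ℝ → ℝ} (h : Lf T g f) (h' : Lf T g' f')
    (hle : ∀ s, g s ≤ g' s) {w : ℝ} (hw : Irrational w)
    (hlo : ∀ (N : ℕ) (s : ℝ), s + (N * w - 1) * T.L ≤ f^[N] s)
    (hup : ∀ (N : ℕ) (s : ℝ), f'^[N] s ≤ s + (N * w + 1) * T.L) : g = g' := by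
  by_contra hne
  obtain ⟨x₀, hx₀⟩ : ∃ x₀, g x₀ ≠ g' x₀ := by
    by_contra hc
    push Not at hc
    exact hne (funext hc)
  have hL := T.Lpos
  have cg := h.leaf.cont
  have cg' := h'.leaf.cont
  obtain ⟨a, ha1, ha2, ha3⟩ := irr_step hκ h h'
  have hφ0 : phi g g' 0 = 0 := by
    unfold phi
    exact intervalIntegral.integral_same
  obtain ⟨φ, hφ⟩ : ∃ φ, φ = phi g g' := ⟨_, rfl⟩
  rw [← hφ] at ha1 ha2 ha3 hφ0
  have hφm : Monotone φ := by
    rw [hφ]
    exact phi_mono cg cg' h.leaf.mem h'.leaf.mem hle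
  have hφc : Continuous φ := by
    rw [hφ]
    exact phi_cont cg cg'
  obtain ⟨Δ, hΔ⟩ : ∃ Δ, Δ = φ T.L := ⟨_, rfl⟩
  have hφz : ∀ (t : ℝ) (k : ℤ), φ (t + k * T.L) = φ t + k * Δ := by
    intro t k
    rw [hΔ, hφ]
    exact phi_addz cg cg' h.leaf.per h'.leaf.per t k
  have hφlt : ∀ {b c x : ℝ}, b < c → x ∈ Icc b c → g x < g' x → φ b < φ c := by
    intro b c x hbc hx hx'
    rw [hφ]
    exact phi_lt cg cg' h.leaf.mem h'.leaf.mem hle hbc hx hx'
  have red : ∀ x : ℝ, 0 ≤ x + ((-⌊x / T.L⌋ : ℤ) : ℝ) * T.L ∧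
      x + ((-⌊x / T.L⌋ : ℤ) : ℝ) * T.L < T.L := by
    intro x
    have h1 : ((⌊x / T.L⌋ : ℤ) : ℝ) ≤ x / T.L := Int.floor_le _
    have h2 : x / T.L < ((⌊x / T.L⌋ : ℤ) : ℝ) + 1 := Int.lt_floor_add_one _
    rw [le_div_iff₀ hL] at h1
    rw [div_lt_iff₀ hL] at h2
    push_cast
    constructor <;> nlinarith
  -- (3)
  have hE : ∃ z, g z = g' z := by
    by_contra hc
    push Not at hc
    have hpos : ∀ x, 0 < a - (φ (f x) - φ x) := fun x =>
      lt_of_le_of_ne (by linarith [ha1 x]) (fun h0 => hc x ((ha2 x).1 (by linarith)))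
    have hcont : Continuous fun x => a - (φ (f x) - φ x) :=
      continuous_const.sub ((hφc.comp h.cont).sub hφc)
    obtain ⟨x₁, -, hx₁⟩ := (isCompact_Icc (a := (0 : ℝ)) (b := T.L)).exists_isMinOn
      (nonempty_Icc.2 hL.le) hcont.continuousOn
    obtain ⟨e₀, he₀⟩ : ∃ e₀, e₀ = a - (φ (f x₁) - φ x₁) := ⟨_, rfl⟩
    have he₀p : 0 < e₀ := by
      rw [he₀]
      exact hpos x₁
    have hmin : ∀ x, e₀ ≤ a - (φ (f x) - φ x) := by
      intro x
      obtain ⟨r1, r2⟩ := red x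
      obtain ⟨k, hk⟩ : ∃ k : ℤ, k = -⌊x / T.L⌋ := ⟨_, rfl⟩
      rw [← hk] at r1 r2
      have h1 : a - (φ (f x₁) - φ x₁) ≤ a - (φ (f (x + k * T.L)) - φ (x + k * T.L)) :=
        hx₁ ⟨r1, r2.le⟩
      rw [h.addz hκ x k, hφz, hφz] at h1
      linarith
    have hN : ∀ n : ℕ, φ (f^[n] 0) ≤ φ 0 + n * (a - e₀) := by
      intro n
      induction n with
      | zero => simp
      | succ n ih =>
        rw [Function.iterate_succ_apply']
        have h1 := hmin (f^[n] 0)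
        push_cast
        linarith
    have hN' : ∀ n : ℕ, φ 0 + n * a ≤ φ (f'^[n] 0) := by
      intro n
      induction n with
      | zero => simp
      | succ n ih =>
        rw [Function.iterate_succ_apply']
        have h1 := ha3 (f'^[n] 0)
        push_cast
        linarith
    have hfin : ∀ n : ℕ, (n : ℝ) * e₀ ≤ 2 * Δ := by
      intro n
      have h1 := hφm (hup n 0)
      have h2 := hφm (hlo n 0)
      have h3 := hφz (0 + (n * w - 1) * T.L) 2
      have h4 : (0 + (n * w - 1) * T.L) + ((2 : ℤ) : ℝ) * T.L = 0 + (n * w + 1) * T.L := by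
        push_cast
        ring
      rw [h4] at h3
      push_cast at h3
      have h5 := hN n
      have h6 := hN' n
      linarith
    have := Irr_num hfin
    linarith
  -- (4)
  have inv1 : ∀ x, g x = g' x ↔ g (f x) = g' (f x) := by
    intro x
    constructor
    · intro hx
      have h1 := (h.eq_iff hκ h' x).1 hx
      have h2 := h.tau x
      have h3 := h'.tau x
      rw [← h1] at h3
      linarith
    · intro hx
      have h1 := h.bou x
      rw [hx] at h1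
      exact (h'.prev hκ h1).2
  have invN : ∀ (n : ℕ) (x : ℝ), g x = g' x ↔ g (f^[n] x) = g' (f^[n] x) := by
    intro n x
    induction n with
    | zero => exact Iff.rfl
    | succ n ih =>
      rw [Function.iterate_succ_apply', ih]
      exact inv1 _
  have invz : ∀ (x : ℝ) (k : ℤ), g x = g' x ↔ g (x + k * T.L) = g' (x + k * T.L) := by
    intro x k
    rw [leaf_addz h.leaf, leaf_addz h'.leaf]
  -- (5)
  obtain ⟨z, hz⟩ := hE
  have hcl : IsClosed {x | g x = g' x} := isClosed_eq cg cg'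
  have hk1 : ((⌊(x₀ - z) / T.L⌋ : ℤ) : ℝ) ≤ (x₀ - z) / T.L := Int.floor_le _
  have hk2 : (x₀ - z) / T.L < ((⌊(x₀ - z) / T.L⌋ : ℤ) : ℝ) + 1 := Int.lt_floor_add_one _
  rw [le_div_iff₀ hL] at hk1
  rw [div_lt_iff₀ hL] at hk2
  have hu := (hcl.inter isClosed_Iic).csSup_mem (s := {x | g x = g' x} ∩ Iic x₀)
    ⟨z + ((⌊(x₀ - z) / T.L⌋ : ℤ) : ℝ) * T.L, (invz z _).1 hz, mem_Iic.2 (by
      linarith)⟩ ⟨x₀, fun y hy => hy.2⟩
  have hv := (hcl.inter isClosed_Ici).csInf_mem (s := {x | g x = g' x} ∩ Ici x₀)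
    ⟨z + ((⌊(x₀ - z) / T.L⌋ + 1 : ℤ) : ℝ) * T.L, (invz z _).1 hz, mem_Ici.2 (by
      push_cast
      linarith)⟩ ⟨x₀, fun y hy => hy.2⟩
  have huv0 : ∀ t, g t = g' t → t ≤ x₀ → t ≤ sSup ({x | g x = g' x} ∩ Iic x₀) := fun t h1 h2 =>
    le_csSup ⟨x₀, fun y hy => hy.2⟩ ⟨h1, h2⟩
  have huv1 : ∀ t, g t = g' t → x₀ ≤ t → sInf ({x | g x = g' x} ∩ Ici x₀) ≤ t := fun t h1 h2 =>
    csInf_le ⟨x₀, fun y hy => hy.2⟩ ⟨h1, h2⟩
  obtain ⟨u, hudef⟩ : ∃ u, u = sSup ({x | g x = g' x} ∩ Iic x₀) := ⟨_, rfl⟩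
  obtain ⟨v, hvdef⟩ : ∃ v, v = sInf ({x | g x = g' x} ∩ Ici x₀) := ⟨_, rfl⟩
  rw [← hudef] at hu huv0
  rw [← hvdef] at hv huv1
  have huE : g u = g' u := hu.1
  have hvE : g v = g' v := hv.1
  have hux : u < x₀ := lt_of_le_of_ne hu.2 (fun e => hx₀ (e ▸ huE))
  have hvx : x₀ < v := lt_of_le_of_ne hv.2 (fun e => hx₀ (e ▸ hvE))
  obtain ⟨m, hm⟩ : ∃ m, m = φ v - φ u := ⟨_, rfl⟩
  have hmpos : 0 < m := by
    have h1 := hφlt (hux.trans hvx) ⟨hux.le, hvx.le⟩ (lt_of_le_of_ne (hle x₀) hx₀)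
    linarith
  have stp : ∀ x, g x = g' x → φ (f x) = φ x + a := fun x hx => by
    have h1 := (ha2 x).2 hx
    linarith
  have hdiff : ∀ n : ℕ, φ (f^[n] v) = φ (f^[n] u) + m := by
    intro n
    induction n with
    | zero =>
      show φ v = φ u + m
      linarith
    | succ n ih =>
      rw [Function.iterate_succ_apply', Function.iterate_succ_apply',
        stp _ ((invN n u).1 huE), stp _ ((invN n v).1 hvE)]
      linarith
  have gap : ∀ (n : ℕ) (t : ℝ), f^[n] u < t → t < f^[n] v → g t ≠ g' t := by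
    intro n t h1 h2 h3
    obtain ⟨y, rfl⟩ := h.surj.iterate n t
    have h4 := (h.it_mono n).lt_iff_lt.1 h1
    have h5 := (h.it_mono n).lt_iff_lt.1 h2
    have h6 := (invN n y).2 h3
    rcases le_total y x₀ with h7 | h7
    · exact absurd (huv0 y h6 h7) (not_le.2 h4)
    · exact absurd (huv1 y h6 h7) (not_le.2 h5)
  -- (6)
  obtain ⟨k, hk⟩ : ∃ k : ℕ → ℤ, ∀ n, k n = -⌊f^[n] u / T.L⌋ := ⟨_, fun _ => rfl⟩
  obtain ⟨c, hc⟩ : ∃ c : ℕ → ℝ, ∀ n, c n = f^[n] u + k n * T.L := ⟨_, fun _ => rfl⟩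
  have hcr : ∀ n, 0 ≤ c n ∧ c n < T.L := by
    intro n
    rw [hc, hk]
    exact red _
  have hφr : ∀ n, 0 ≤ φ (c n) ∧ φ (c n) ≤ Δ := by
    intro n
    refine ⟨?_, ?_⟩
    · rw [← hφ0]
      exact hφm (hcr n).1
    · rw [hΔ]
      exact hφm (hcr n).2.le
  have key : ∀ n n', φ (c n') < φ (c n) + m → c n ≤ c n' → c n = c n' := by
    intro n n' h1 h2
    by_contra hcon
    have h3 : c n < c n' := lt_of_le_of_ne h2 hcon
    have h4 : φ (f^[n] v + k n * T.L) = φ (c n) + m := by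
      rw [hφz, hdiff, hc, hφz]
      ring
    have h5 : c n' < f^[n] v + k n * T.L := by
      by_contra h6
      have h7 := hφm (not_lt.1 h6)
      linarith
    have h6 : g (c n') = g' (c n') := by
      rw [hc]
      exact (invz _ _).1 ((invN n' u).1 huE)
    have h7 := (invz (c n') (-k n)).1 h6
    have h8 := hc n
    refine gap n _ ?_ ?_ h7
    · push_cast
      linarith
    · push_cast
      linarith
  have fin : ∀ n n', n < n' → c n = c n' → False := by
    intro n n' hnn he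
    obtain ⟨M, hM⟩ : ∃ M, n' = M + n := ⟨n' - n, by omega⟩
    have hMpos : 0 < M := by omega
    have h1 : f^[M] (f^[n] u) = f^[n] u + ((k n - k n' : ℤ) : ℝ) * T.L := by
      rw [← Function.iterate_add_apply, ← hM]
      have h2 := hc n
      have h3 := hc n'
      push_cast
      linarith
    obtain ⟨s, hs⟩ : ∃ s, s = f^[n] u := ⟨_, rfl⟩
    obtain ⟨K, hK⟩ : ∃ K : ℤ, K = k n - k n' := ⟨_, rfl⟩
    rw [← hs, ← hK] at h1
    have h2 : ∀ j : ℕ, f^[M * j] s = s + j * K * T.L := fun j =>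
      le_antisymm (it_le' hκ h h1.le j) (it_ge hκ h h1.ge j)
    have hMR : (0 : ℝ) < M := by exact_mod_cast hMpos
    have h3 : (M : ℝ) * w - K ≤ 0 := by
      refine Irr_num (b := 1) fun j => ?_
      have h4 := hlo (M * j) s
      rw [h2 j] at h4
      push_cast at h4
      have h5 : (j * (M * w - K) - 1) * T.L ≤ 0 := by linarith
      by_contra h6
      have h7 : 0 < j * ((M : ℝ) * w - K) - 1 := by linarith
      have := mul_pos h7 hL
      linarith
    have h4 : (K : ℝ) - M * w ≤ 0 := by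
      refine Irr_num (b := 1) fun j => ?_
      have h4 := (h.it_le hκ h' hle (M * j) s).trans (hup (M * j) s)
      rw [h2 j] at h4
      push_cast at h4
      have h5 : (j * (K - M * w) - 1) * T.L ≤ 0 := by linarith
      by_contra h6
      have h7 : 0 < j * ((K : ℝ) - M * w) - 1 := by linarith
      have := mul_pos h7 hL
      linarith
    refine hw ⟨(K : ℚ) / (M : ℚ), ?_⟩
    push_cast
    rw [div_eq_iff hMR.ne']
    linarith
  have hbd : ∀ n, ⌊φ (c n) / m⌋₊ < ⌊Δ / m⌋₊ + 1 := fun n =>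
    Nat.lt_succ_of_le (Nat.floor_mono (div_le_div_of_nonneg_right (hφr n).2 hmpos.le))
  obtain ⟨n, n', hnn, hF⟩ := Finite.exists_ne_map_eq_of_infinite
    (fun n : ℕ => (⟨⌊φ (c n) / m⌋₊, hbd n⟩ : Fin (⌊Δ / m⌋₊ + 1)))
  have hF' : ⌊φ (c n) / m⌋₊ = ⌊φ (c n') / m⌋₊ := congrArg Fin.val hF
  have cmp : ∀ i j : ℕ, ⌊φ (c i) / m⌋₊ = ⌊φ (c j) / m⌋₊ → φ (c j) < φ (c i) + m := by
    intro i j hij
    have h1 : φ (c j) / m < (⌊φ (c j) / m⌋₊ : ℝ) + 1 := Nat.lt_floor_add_one _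
    have h2 : (⌊φ (c i) / m⌋₊ : ℝ) ≤ φ (c i) / m :=
      Nat.floor_le (div_nonneg (hφr i).1 hmpos.le)
    rw [← hij] at h1
    have h3 : φ (c j) / m < φ (c i) / m + 1 := by linarith
    rw [div_lt_iff₀ hmpos, add_mul, div_mul_cancel₀ _ hmpos.ne', one_mul] at h3
    exact h3
  have hceq : c n = c n' := by
    rcases le_total (c n) (c n') with h1 | h1
    · exact key n n' (cmp n n' hF') h1
    · exact (key n' n (cmp n' n hF'.symm) h1).symm
  rcases lt_or_gt_of_ne hnn with h1 | h1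
  · exact fin n n' h1 hceq
  · exact fin n' n h1 hceq.symm

end Pool.Agent.H50.BQ
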