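/-
ROW Low.  The circles of n-gons shrink to the boundary.
PROOF.  L = T.L; K from tau_lip; H_n = ∫_0^L cos (G n); A_n the string constant of G n (Lf.str).
(1) chord: for δ >= 0 and all x: ‖γ (x+δ) - γ x‖ >= Re ((γ (x+δ) - γ x) ex (-τ x)) = ∫_x^{x+δ} cos (τ y - τ x) dy >= ∫_x^{x+δ} (1 - (τ y - τ x)^2 / 2) dy
    >= δ - K^2 δ^3 / 6   (Real.one_sub_sq_div_two_le_cos).
(2) γ is 1-Lipschitz: ‖γ y - γ x‖ <= |y - x| (derivative of norm 1).
(3) Let N >= 2, δ = L/N < L.  Str at (x, x+δ), x = i δ, i < N; sum: N (δ - K^2 δ^3 / 6) <= N A_n + H_n, i.e. L - K^2 L^3 / (6 N^2) <= N A_n + H_n.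
(4) Orbit x_i = (Fm n)^[i] 0, x_n = L: Σ ‖γ x_{i+1} - γ x_i‖ = n A_n + H_n (equality case of Str, adjacent intervals) and <= Σ (x_{i+1} - x_i) = L.
    So A_n <= (L - H_n)/n.
(5) n = 2N: L - K^2 L^3/(6N^2) <= (L - H_n)/2 + H_n, so L - H_n <= K^2 L^3/(3 N^2) for all N >= 2, n = 2N.
(6) Suppose θ0 <= G n s0 for all n >= 3; WLOG θ0 < pi (G n s0 < pi).  |G n s - G n s0| <= |τ s - τ s0| <= K |s - s0| (leaf_lip), so G n s >= θ0/2 for
    |s - s0| <= θ0/(2K); with d = min (θ0/(2K)) (L/2): L - H_n = ∫_{s0}^{s0+L} (1 - cos (G n)) >= ∫_{s0}^{s0+d} >= d (1 - cos (θ0/2)) > 0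
    (periodicity: Function.Periodic.intervalIntegral_add_eq).  Contradiction to (5) for large N.
-/
import Mathlib
import Pool.Agent.H50.BQ.Lfb

set_option autoImplicit false

namespace Pool.Agent.H50.BQ

open Set Filter Topology Pool.Agent.H46.BL

variable {T : Table}

theorem chord_lb {K : ℝ} (hK0 : 0 < K) (hK : ∀ s s', |T.τ s - T.τ s'| ≤ K * |s - s'|) {δ : ℝ}
    (hδ : 0 ≤ δ) (x : ℝ) : δ - K ^ 2 * δ ^ 3 / 6 ≤ ‖T.γ (x + δ) - T.γ x‖ := by
  have hd : ∀ y, HasDerivAt (fun y => ((T.γ y - T.γ x) * ex (-T.τ x)).re -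
      ((y - x) - K ^ 2 * (y - x) ^ 3 / 6))
      (Real.cos (T.τ y - T.τ x) - (1 - K ^ 2 * (y - x) ^ 2 / 2)) y := by
    intro y
    have h1 : HasDerivAt (fun y => (T.γ y - T.γ x) * ex (-T.τ x)) (ex (T.τ y) * ex (-T.τ x)) y :=
      ((T.tangent y).sub_const _).mul_const _
    have h2 := (Complex.reCLM.hasFDerivAt (x := (T.γ y - T.γ x) * ex (-T.τ x))).comp_hasDerivAt y h1
    rw [Nxt_mul] at h2
    have h3 : Complex.reCLM (ex (T.τ y - T.τ x)) = Real.cos (T.τ y - T.τ x) := Ang_re _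
    rw [h3] at h2
    have h4 : HasDerivAt (fun y : ℝ => (y - x) - K ^ 2 * (y - x) ^ 3 / 6)
        (1 - K ^ 2 * (y - x) ^ 2 / 2) y := by
      have h5 : HasDerivAt (fun y : ℝ => y - x) 1 y := (hasDerivAt_id y).sub_const x
      have h6 := (h5.pow 3).const_mul (K ^ 2) |>.div_const 6
      have h7 := h5.sub h6
      refine h7.congr_deriv ?_
      simp
      ring
    exact h2.sub h4
  have hm : Monotone (fun y => ((T.γ y - T.γ x) * ex (-T.τ x)).re -
      ((y - x) - K ^ 2 * (y - x) ^ 3 / 6)) := by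
    apply monotone_of_hasDerivAt_nonneg hd
    intro y
    change 0 ≤ Real.cos (T.τ y - T.τ x) - (1 - K ^ 2 * (y - x) ^ 2 / 2)
    have h1 := Real.one_sub_sq_div_two_le_cos (x := T.τ y - T.τ x)
    have h2 : (T.τ y - T.τ x) ^ 2 ≤ K ^ 2 * (y - x) ^ 2 := by
      rw [← sq_abs (T.τ y - T.τ x), ← sq_abs (y - x), ← mul_pow]
      exact pow_le_pow_left₀ (abs_nonneg _) (hK y x) 2
    linarith
  have h1 := hm (show x ≤ x + δ by linarith)
  simp only [sub_self, zero_mul, Complex.zero_re, add_sub_cancel_left] at h1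
  have h2 : ((T.γ (x + δ) - T.γ x) * ex (-T.τ x)).re ≤ ‖T.γ (x + δ) - T.γ x‖ := by
    refine (Complex.re_le_norm _).trans ?_
    rw [norm_mul, ex_norm, mul_one]
  have h3 : (0 : ℝ) - (0 - K ^ 2 * 0 ^ 3 / 6) = 0 := by ring
  linarith

theorem chord_ub (x y : ℝ) : ‖T.γ y - T.γ x‖ ≤ |y - x| := by
  have h := Convex.norm_image_sub_le_of_norm_hasDerivWithin_le (f := T.γ)
    (f' := fun s => ex (T.τ s)) (C := 1) (s := univ) (x := x) (y := y)
    (fun s _ => (T.tangent s).hasDerivWithinAt) (fun s _ => (ex_norm _).le) convex_univ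
    (mem_univ _) (mem_univ _)
  simpa using h

theorem Low_key (hκ : ∀ s, 0 < deriv T.τ s) {K : ℝ} (hK0 : 0 < K)
    (hK : ∀ s s', |T.τ s - T.τ s'| ≤ K * |s - s'|) {N : ℕ} (hN : 2 ≤ N) {g f : ℝ → ℝ}
    (h : Lf T g f) (hper : f^[2 * N] 0 = 0 + T.L) :
    T.L - (∫ x in (0 : ℝ)..T.L, Real.cos (g x)) ≤ K ^ 2 * T.L ^ 3 / (3 * (N : ℝ) ^ 2) := by
  obtain ⟨A, hA⟩ := h.str hκ
  have hL := T.Lpos
  have hN0 : (0 : ℝ) < N := by
    have : 0 < N := by omega
    exact_mod_cast this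
  have hN2 : (2 : ℝ) ≤ N := by exact_mod_cast hN
  set δ : ℝ := T.L / N with hδd
  have hδ0 : 0 < δ := div_pos hL hN0
  have hNδ : N * δ = T.L := by
    rw [hδd]
    field_simp
  have hδL : δ < T.L := by nlinarith
  have h1 : ∀ i : ℕ, δ - K ^ 2 * δ ^ 3 / 6 ≤
      A + ∫ y in ((i : ℝ) * δ)..(((i + 1 : ℕ) : ℝ) * δ), Real.cos (g y) := by
    intro i
    have e : ((i + 1 : ℕ) : ℝ) * δ = i * δ + δ := by
      push_cast
      ring
    rw [e]
    have h2 := (hA (i * δ) (i * δ + δ) (by linarith) (by linarith)).1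
    have h3 := chord_lb (T := T) hK0 hK hδ0.le (i * δ)
    linarith
  have h2 := Finset.sum_le_sum fun (i : ℕ) (_ : i ∈ Finset.range N) => h1 i
  have h3 := Per_int T h.leaf (x := fun i : ℕ => (i : ℝ) * δ) (p := 1) (q := N) (by
    simp only [Nat.cast_zero, zero_mul, Nat.cast_one, one_mul, zero_add]
    exact hNδ)
  rw [Finset.sum_add_distrib] at h2
  simp only [Finset.sum_const, Finset.card_range, nsmul_eq_mul, Nat.cast_one, one_mul] at h2 h3
  rw [h3] at h2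
  have h4 : ∀ i : ℕ, A + (∫ y in (f^[i] 0)..(f^[i + 1] 0), Real.cos (g y)) ≤
      f^[i + 1] 0 - f^[i] 0 := by
    intro i
    have e : f^[i + 1] 0 = f (f^[i] 0) := Function.iterate_succ_apply' f i 0
    rw [e]
    have h5 := (hA (f^[i] 0) (f (f^[i] 0)) (h.lo _) (h.hi _)).2.2 rfl
    have h6 := chord_ub (T := T) (f^[i] 0) (f (f^[i] 0))
    rw [abs_of_pos (by linarith [h.lo (f^[i] 0)])] at h6
    linarith
  have h5 := Finset.sum_le_sum fun (i : ℕ) (_ : i ∈ Finset.range (2 * N)) => h4 i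
  have h6 := Per_int T h.leaf (x := fun i : ℕ => f^[i] 0) (p := 1) (q := 2 * N) (by
    simp only [Nat.cast_one, one_mul]
    exact hper)
  rw [Finset.sum_add_distrib, Finset.sum_range_sub (fun i => f^[i] 0) (2 * N), hper] at h5
  simp only [Finset.sum_const, Finset.card_range, nsmul_eq_mul, Nat.cast_one, one_mul] at h5 h6
  rw [h6] at h5
  have h7 : f^[0] 0 = (0 : ℝ) := rfl
  rw [h7] at h5
  push_cast at h5
  have h8 : K ^ 2 * T.L ^ 3 / (3 * (N : ℝ) ^ 2) = 2 * (N * (K ^ 2 * δ ^ 3 / 6)) := by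
    rw [hδd]
    field_simp
    ring
  rw [h8]
  nlinarith

theorem shrink (hκ : ∀ s, 0 < deriv T.τ s) {G F : ℕ → ℝ → ℝ}
    (h : ∀ n, 3 ≤ n → Lf T (G n) (F n) ∧ ∀ s, (F n)^[n] s = s + T.L) (s₀ : ℝ) {θ₀ : ℝ} (hθ : 0 < θ₀) :
    ∃ n, 3 ≤ n ∧ G n s₀ < θ₀ := by
  by_contra hcon
  have hcon' : ∀ n, 3 ≤ n → θ₀ ≤ G n s₀ := by
    intro n hn
    by_contra hlt
    exact hcon ⟨n, hn, not_le.1 hlt⟩
  obtain ⟨K, hK0, hK⟩ := tau_lip hκ
  have hL := T.Lpos
  set d : ℝ := min (θ₀ / (2 * K)) (T.L / 2) with hdd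
  have hd0 : 0 < d := lt_min (by positivity) (by positivity)
  have hθπ : θ₀ < Real.pi := (hcon' 3 le_rfl).trans_lt ((h 3 le_rfl).1.leaf.mem s₀).2
  have hcos : Real.cos (θ₀ / 2) < 1 := by
    have h1 := Real.cos_lt_cos_of_nonneg_of_le_pi (x := 0) (y := θ₀ / 2) le_rfl (by linarith)
      (by linarith)
    rwa [Real.cos_zero] at h1
  have hc0 : 0 < d * (1 - Real.cos (θ₀ / 2)) := mul_pos hd0 (by linarith)
  have key : ∀ N : ℕ, 2 ≤ N →
      d * (1 - Real.cos (θ₀ / 2)) ≤ K ^ 2 * T.L ^ 3 / (3 * (N : ℝ) ^ 2) := by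
    intro N hN
    obtain ⟨hl, hp⟩ := h (2 * N) (by omega)
    refine le_trans ?_ (Low_key hκ hK0 hK hN hl (hp 0))
    have hc : Continuous fun x => Real.cos (G (2 * N) x) := Real.continuous_cos.comp hl.leaf.cont
    have hc1 : Continuous fun x => 1 - Real.cos (G (2 * N) x) := continuous_const.sub hc
    have e1 : T.L - (∫ x in (0 : ℝ)..T.L, Real.cos (G (2 * N) x)) =
        ∫ x in (0 : ℝ)..T.L, (1 - Real.cos (G (2 * N) x)) := by
      rw [intervalIntegral.integral_sub (by simp) (hc.intervalIntegrable _ _)]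
      simp
    have hP : Function.Periodic (fun x => 1 - Real.cos (G (2 * N) x)) T.L := by
      intro x
      change 1 - Real.cos (G (2 * N) (x + T.L)) = _
      rw [hl.leaf.per]
    have e2 := hP.intervalIntegral_add_eq 0 s₀
    rw [zero_add] at e2
    rw [e1, e2]
    have e3 := intervalIntegral.integral_add_adjacent_intervals
      (hc1.intervalIntegrable (μ := MeasureTheory.volume) s₀ (s₀ + d))
      (hc1.intervalIntegrable (s₀ + d) (s₀ + T.L))
    have hdL : d ≤ T.L / 2 := min_le_right _ _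
    have hdK : d ≤ θ₀ / (2 * K) := min_le_left _ _
    have e4 : 0 ≤ ∫ x in (s₀ + d)..(s₀ + T.L), (1 - Real.cos (G (2 * N) x)) := by
      apply intervalIntegral.integral_nonneg (by linarith)
      intro x _
      linarith [Real.cos_le_one (G (2 * N) x)]
    have e5 : ∫ x in s₀..(s₀ + d), (1 - Real.cos (θ₀ / 2)) ≤
        ∫ x in s₀..(s₀ + d), (1 - Real.cos (G (2 * N) x)) := by
      apply intervalIntegral.integral_mono_on (by linarith) (by simp)
        (hc1.intervalIntegrable _ _)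
      intro x hx
      have h1 := leaf_lip hκ hl.leaf x s₀
      have h2 := hK x s₀
      have h3 : |x - s₀| ≤ d := by
        rw [abs_of_nonneg (by linarith [hx.1])]
        linarith [hx.2]
      have h4 : K * |x - s₀| ≤ θ₀ / 2 := by
        calc K * |x - s₀| ≤ K * (θ₀ / (2 * K)) := by
              apply mul_le_mul_of_nonneg_left (h3.trans hdK) hK0.le
          _ = θ₀ / 2 := by field_simp
      have h5 := (abs_le.1 ((h1.trans h2).trans h4)).1
      have h6 := hcon' (2 * N) (by omega)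
      have h7 : θ₀ / 2 ≤ G (2 * N) x := by linarith
      have h8 := Real.cos_le_cos_of_nonneg_of_le_pi (by linarith) (hl.leaf.mem x).2.le h7
      linarith
    rw [intervalIntegral.integral_const, smul_eq_mul, add_sub_cancel_left] at e5
    linarith
  obtain ⟨M, hM⟩ := exists_nat_gt (K ^ 2 * T.L ^ 3 / (3 * (d * (1 - Real.cos (θ₀ / 2)))))
  have h1 := key (max M 2) (le_max_right _ _)
  have h2 : (2 : ℝ) ≤ (max M 2 : ℕ) := by exact_mod_cast le_max_right M 2
  have h3 : (M : ℝ) ≤ (max M 2 : ℕ) := by exact_mod_cast le_max_left M 2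
  have h4 : K ^ 2 * T.L ^ 3 / (3 * (d * (1 - Real.cos (θ₀ / 2)))) < (max M 2 : ℕ) := hM.trans_le h3
  rw [div_lt_iff₀ (by positivity)] at h4
  rw [le_div_iff₀ (by positivity)] at h1
  nlinarith [mul_pos hc0 (show (0 : ℝ) < (max M 2 : ℕ) by linarith)]

end Pool.Agent.H50.BQ
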