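/-
ROW Fil.  Circles of periodic points for all rationals in (0, 1/3] fill the region below the circle 1/3.
PROOF.  L = T.L.  For r : ℚ with 0 < r <= 1/3 put p = r.num.toNat, q = r.den (0 < p, 3 p <= q, (p:ℝ)/q = r); hr and choice give G r, F r with Lf T (G r) (F r) and
(F r)^[q] s = s + p L.  By ord (Rot): r < r' implies G r s < G r' s for all s.  The circle of the statement is G (1/3), F (1/3) (q = 3, p = 1).
Fix s0 and 0 < θ0 < G (1/3) s0.  Rm = {r | 0 < r <= 1/3, G r s0 <= θ0}, Rp = {r | 0 < r <= 1/3, θ0 < G r s0}; 1/3 ∈ Rp; Rm ∪ Rp is everything, every element of Rm is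
< every element of Rp.  Rm ≠ ∅: shrink (Low) applied to n ↦ G (1/n) gives n >= 3 with G (1/n) s0 < θ0 (for n < 3 put anything).
gm s := sSup {G r s | r ∈ Rm}, gp s := sInf {G r s | r ∈ Rp}: leaves by leaf_sup / leaf_inf (Lim) applied to F = G '' Rm, G '' Rp (chains by ord; bound b = G (1/3), resp.
b = G r1 with some r1 ∈ Rm).  G r s <= gm s <= gp s <= G r' s for r ∈ Rm, r' ∈ Rp; gm s0 <= θ0 <= gp s0.  Let fm, fp be their maps (lf_exists).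
w := sSup of the casts of Rm: 0 < w <= 1/3; every rational r with w < r <= 1/3 is in Rp, every rational 0 < r < w is in Rm.
Bounds, for all N, s:  s + (N w - 1) L <= fm^[N] s, fp^[N] s  and  fm^[N] s, fp^[N] s <= s + (N w + 1) L:  rot_lo with G r, r ∈ Rm, r → w (or r = w if w ∈ Rm; use
le_of_forall_lt-type arguments: for every real v < w there is r ∈ Rm with v < r), rot_up with r' ∈ Rp, r' → w (for every v > w there is r' ∈ Rp with r' < v: a rational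
between w and min v (1/3) if w < 1/3, and r' = 1/3 if w = 1/3).
* w irrational: gap_irr gives gm = gp, so gm s0 = θ0: gm is the leaf.
* w = r rational (0 < r <= 1/3), r ∈ Rm: G r <= gp; gap_up for G r, gp (p, q of r) gives G r = gp, so θ0 <= gp s0 = G r s0 <= θ0: the leaf is G r.
* w = r rational, r ∈ Rp: gm <= G r; gap_lo for gm, G r gives gm = G r, so θ0 < G r s0 = gm s0 <= θ0: contradiction.
-/
import Mathlib
import Pool.Agent.H50.BQ.Rot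
import Pool.Agent.H50.BQ.Lim
import Pool.Agent.H50.BQ.GpU
import Pool.Agent.H50.BQ.GpL
import Pool.Agent.H50.BQ.Irr
import Pool.Agent.H50.BQ.Low

set_option autoImplicit false

namespace Pool.Agent.H50.BQ

open Set Filter Topology Pool.Agent.H46.BL

variable {T : Table}

theorem Fil_cast {r : ℚ} (hr : 0 < r) : ((r.num.toNat : ℕ) : ℝ) / (r.den : ℝ) = (r : ℝ) := by
  have h1 : ((r.num.toNat : ℕ) : ℤ) = r.num := Int.toNat_of_nonneg (Rat.num_nonneg.2 hr.le)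
  have h2 : ((r.num.toNat : ℕ) : ℝ) = (r.num : ℝ) := by
    rw [← Int.cast_natCast, h1]
  rw [h2]
  exact (Rat.cast_def r).symm

theorem Fil_pos {r : ℚ} (hr : 0 < r) : 0 < r.num.toNat := by
  have := Rat.num_pos.2 hr
  omega

theorem Fil_third {r : ℚ} (hr : 0 < r) (h : r ≤ 1 / 3) : 3 * r.num.toNat ≤ r.den := by
  have h1 : (0 : ℝ) < (r.den : ℝ) := by exact_mod_cast r.den_pos
  have h2 : ((r.num.toNat : ℕ) : ℝ) / (r.den : ℝ) ≤ 1 / 3 := by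
    rw [Fil_cast hr]
    have h3 : (r : ℝ) ≤ ((1 / 3 : ℚ) : ℝ) := by exact_mod_cast h
    push_cast at h3
    exact h3
  rw [div_le_iff₀ h1] at h2
  have h3 : (3 : ℝ) * (r.num.toNat : ℕ) ≤ (r.den : ℝ) := by linarith
  exact_mod_cast h3

theorem Fil_lt {r r' : ℚ} (hr : 0 < r) (hr' : 0 < r') (h : r < r') :
    r.num.toNat * r'.den < r'.num.toNat * r.den := by
  have h1 : (0 : ℝ) < (r.den : ℝ) := by exact_mod_cast r.den_pos
  have h2 : (0 : ℝ) < (r'.den : ℝ) := by exact_mod_cast r'.den_pos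
  have h3 : ((r.num.toNat : ℕ) : ℝ) / (r.den : ℝ) < ((r'.num.toNat : ℕ) : ℝ) / (r'.den : ℝ) := by
    rw [Fil_cast hr, Fil_cast hr']
    exact_mod_cast h
  rw [div_lt_div_iff₀ h1 h2] at h3
  exact_mod_cast h3

theorem Fil_inv {n : ℕ} (hn : 3 ≤ n) : 0 < ((n : ℚ)⁻¹) ∧ ((n : ℚ)⁻¹) ≤ 1 / 3 ∧ ((n : ℚ)⁻¹).den = n ∧
    ((n : ℚ)⁻¹).num.toNat = 1 := by
  have h0 : 0 < n := by omega
  have h1 : (0 : ℚ) < (n : ℚ) := by exact_mod_cast h0
  refine ⟨inv_pos.2 h1, ?_, Rat.inv_natCast_den_of_pos h0, ?_⟩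
  · rw [one_div]
    exact inv_anti₀ (by norm_num) (by exact_mod_cast hn)
  · rw [Rat.inv_natCast_num_of_pos h0]
    rfl

theorem fill (hκ : ∀ s, 0 < deriv T.τ s)
    (hr : ∀ p q : ℕ, 0 < p → 3 * p ≤ q → ∃ g f, Lf T g f ∧ ∀ s, f^[q] s = s + p * T.L) :
    ∃ g f, Lf T g f ∧ (∀ s, f (f (f s)) = s + T.L) ∧
      ∀ s θ, 0 < θ → θ < g s → ∃ g', T.Leaf g' ∧ g' s = θ := by
  have hL : 0 < T.L := T.Lpos
  have hr' : ∀ r : ℚ, (0 < r ∧ r ≤ 1 / 3) → ∃ g f : ℝ → ℝ, Lf T g f ∧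
      ∀ s, f^[r.den] s = s + (r.num.toNat : ℕ) * T.L :=
    fun r h => hr _ _ (Fil_pos h.1) (Fil_third h.1 h.2)
  choose! G F hGF using hr'
  have hord : ∀ r r' : ℚ, 0 < r → r < r' → r' ≤ 1 / 3 → ∀ s, G r s < G r' s := by
    intro r r' h0 h1 h2 s
    have k1 := hGF r ⟨h0, h1.le.trans h2⟩
    have k2 := hGF r' ⟨h0.trans h1, h2⟩
    exact ord hκ k1.1 k2.1 r.den_pos r'.den_pos k1.2 k2.2 (Fil_lt h0 (h0.trans h1) h1) s
  have hordle : ∀ r r' : ℚ, 0 < r → r ≤ r' → r' ≤ 1 / 3 → ∀ s, G r s ≤ G r' s := by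
    intro r r' h0 h1 h2 s
    rcases h1.eq_or_lt with rfl | h1
    · exact le_rfl
    · exact (hord r r' h0 h1 h2 s).le
  have hthird : (0 : ℚ) < 1 / 3 ∧ (1 / 3 : ℚ) ≤ 1 / 3 := by norm_num
  obtain ⟨hT1, hT2⟩ := hGF (1 / 3) hthird
  refine ⟨G (1 / 3), F (1 / 3), hT1, fun s => ?_, fun s0 θ0 hθ hθ' => ?_⟩
  · have h := hT2 s
    have e0 : (1 / 3 : ℚ) = (((3 : ℕ) : ℚ)⁻¹) := by norm_num
    have e1 : (1 / 3 : ℚ).den = 3 := by rw [e0]; exact (Fil_inv le_rfl).2.2.1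
    have e2 : (1 / 3 : ℚ).num.toNat = 1 := by rw [e0]; exact (Fil_inv le_rfl).2.2.2
    rw [e1, e2, Nat.cast_one, one_mul] at h
    exact h
  obtain ⟨Rm, hRm⟩ : ∃ Rm : Set ℚ, ∀ r, r ∈ Rm ↔ (0 < r ∧ r ≤ 1 / 3) ∧ G r s0 ≤ θ0 :=
    ⟨{r | (0 < r ∧ r ≤ 1 / 3) ∧ G r s0 ≤ θ0}, fun r => Iff.rfl⟩
  obtain ⟨Rp, hRp⟩ : ∃ Rp : Set ℚ, ∀ r, r ∈ Rp ↔ (0 < r ∧ r ≤ 1 / 3) ∧ θ0 < G r s0 :=
    ⟨{r | (0 < r ∧ r ≤ 1 / 3) ∧ θ0 < G r s0}, fun r => Iff.rfl⟩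
  have hp3 : (1 / 3 : ℚ) ∈ Rp := (hRp _).2 ⟨hthird, hθ'⟩
  have hmp : ∀ r ∈ Rm, ∀ r' ∈ Rp, r < r' := by
    intro r h r' h'
    rw [hRm] at h
    rw [hRp] at h'
    by_contra hcon
    push Not at hcon
    have := hordle r' r h'.1.1 hcon h.1.2 s0
    linarith [h.2, h'.2]
  have hmne : ∃ r1, r1 ∈ Rm := by
    obtain ⟨n, hn, h1⟩ := shrink hκ (G := fun n => G ((n : ℚ)⁻¹)) (F := fun n => F ((n : ℚ)⁻¹))
      (fun n hn => by
        obtain ⟨a1, a2, a3, a4⟩ := Fil_inv hn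
        obtain ⟨b1, b2⟩ := hGF _ ⟨a1, a2⟩
        refine ⟨b1, fun s => ?_⟩
        have b3 := b2 s
        rw [a3, a4, Nat.cast_one, one_mul] at b3
        exact b3) s0 hθ
    obtain ⟨a1, a2, _, _⟩ := Fil_inv hn
    exact ⟨_, (hRm _).2 ⟨⟨a1, a2⟩, h1.le⟩⟩
  obtain ⟨r1, hr1⟩ := hmne
  have hr1' := (hRm r1).1 hr1
  -- the rotation number
  have hbdd : BddAbove ((fun r : ℚ => (r : ℝ)) '' Rm) := by
    refine ⟨((1 / 3 : ℚ) : ℝ), ?_⟩
    rintro _ ⟨r, h, rfl⟩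
    have := ((hRm r).1 h).1.2
    show (r : ℝ) ≤ ((1 / 3 : ℚ) : ℝ)
    exact_mod_cast this
  obtain ⟨w, hw⟩ : ∃ w, w = sSup ((fun r : ℚ => (r : ℝ)) '' Rm) := ⟨_, rfl⟩
  have hwm : ∀ r ∈ Rm, (r : ℝ) ≤ w := by
    intro r h
    rw [hw]
    exact le_csSup hbdd ⟨r, h, rfl⟩
  have hwp : ∀ r ∈ Rp, w ≤ (r : ℝ) := by
    intro r' h'
    rw [hw]
    refine csSup_le ⟨_, r1, hr1, rfl⟩ ?_
    rintro _ ⟨r, h, rfl⟩
    show (r : ℝ) ≤ (r' : ℝ)
    exact_mod_cast (hmp r h r' h').le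
  have hwup : ∀ v : ℝ, w < v → ∃ r' ∈ Rp, (r' : ℝ) < v := by
    intro v hv
    have hw3 := hwp _ hp3
    rcases hw3.eq_or_lt with h | h
    · exact ⟨1 / 3, hp3, by rw [← h]; exact hv⟩
    · obtain ⟨r', h1, h2⟩ := exists_rat_btwn (lt_min hv h)
      refine ⟨r', ?_, h2.trans_le (min_le_left _ _)⟩
      have h3 : (r' : ℝ) < ((1 / 3 : ℚ) : ℝ) := h2.trans_le (min_le_right _ _)
      have h4 : r' < 1 / 3 := by exact_mod_cast h3
      have h5 : (r1 : ℝ) < (r' : ℝ) := (hwm r1 hr1).trans_lt h1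
      have h6 : r1 < r' := by exact_mod_cast h5
      have h7 : 0 < r' := hr1'.1.1.trans h6
      refine (hRp _).2 ⟨⟨h7, h4.le⟩, ?_⟩
      by_contra hcon
      push Not at hcon
      have h8 := hwm r' ((hRm _).2 ⟨⟨h7, h4.le⟩, hcon⟩)
      linarith
  -- bounds on the iterates
  have hlo : ∀ g f : ℝ → ℝ, Lf T g f → (∀ r ∈ Rm, ∀ s, G r s ≤ g s) → ∀ (N : ℕ) (s : ℝ),
      s + (N * w - 1) * T.L ≤ f^[N] s := by
    intro g f hgf hle N s
    have key : ∀ r ∈ Rm, (N : ℝ) * r ≤ (f^[N] s - s) / T.L + 1 := by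
      intro r h
      have h' := (hRm r).1 h
      obtain ⟨k1, k2⟩ := hGF r h'.1
      have k3 := rot_lo hκ hgf k1 (hle r h) r.den_pos k2 N s
      rw [Fil_cast h'.1.1] at k3
      have k4 : (N : ℝ) * r - 1 ≤ (f^[N] s - s) / T.L := by
        rw [le_div_iff₀ hL]
        linarith
      linarith
    have k5 : (N : ℝ) * w ≤ (f^[N] s - s) / T.L + 1 := by
      rcases Nat.eq_zero_or_pos N with h0 | h0
      · rw [h0]
        simp
      · have hN : (0 : ℝ) < N := by exact_mod_cast h0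
        have : w ≤ ((f^[N] s - s) / T.L + 1) / N := by
          rw [hw]
          refine csSup_le ⟨_, r1, hr1, rfl⟩ ?_
          rintro _ ⟨r, h, rfl⟩
          rw [le_div_iff₀ hN]
          have := key r h
          show (r : ℝ) * N ≤ _
          linarith
        rw [le_div_iff₀ hN] at this
        linarith
    have k6 : ((N : ℝ) * w - 1) * T.L ≤ f^[N] s - s := by
      rw [← le_div_iff₀ hL]
      linarith
    linarith
  have hup : ∀ g f : ℝ → ℝ, Lf T g f → (∀ r ∈ Rp, ∀ s, g s ≤ G r s) → ∀ (N : ℕ) (s : ℝ),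
      f^[N] s ≤ s + (N * w + 1) * T.L := by
    intro g f hgf hle N s
    have key : ∀ r ∈ Rp, (f^[N] s - s) / T.L - 1 ≤ (N : ℝ) * r := by
      intro r h
      have h' := (hRp r).1 h
      obtain ⟨k1, k2⟩ := hGF r h'.1
      have k3 := rot_up hκ hgf k1 (hle r h) r.den_pos k2 N s
      rw [Fil_cast h'.1.1] at k3
      have k4 : (f^[N] s - s) / T.L ≤ (N : ℝ) * r + 1 := by
        rw [div_le_iff₀ hL]
        linarith
      linarith
    have k5 : (f^[N] s - s) / T.L - 1 ≤ (N : ℝ) * w := by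
      rcases Nat.eq_zero_or_pos N with h0 | h0
      · rw [h0]
        simp
      · have hN : (0 : ℝ) < N := by exact_mod_cast h0
        have : ((f^[N] s - s) / T.L - 1) / N ≤ w := by
          refine le_of_forall_pos_le_add fun ε hε => ?_
          obtain ⟨r', h1, h2⟩ := hwup (w + ε) (by linarith)
          have h3 := key r' h1
          rw [div_le_iff₀ hN]
          have h4 : (r' : ℝ) * N ≤ (w + ε) * N := mul_le_mul_of_nonneg_right h2.le hN.le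
          linarith
        rw [div_le_iff₀ hN] at this
        linarith
    have k6 : f^[N] s - s ≤ ((N : ℝ) * w + 1) * T.L := by
      rw [← div_le_iff₀ hL]
      linarith
    linarith
  -- the two limit leaves
  have hleafm : ∀ r, (0 < r ∧ r ≤ 1 / 3) → T.Leaf (G r) := fun r h => (hGF r h).1.leaf
  have hchain : ∀ r r', (0 < r ∧ r ≤ 1 / 3) → (0 < r' ∧ r' ≤ 1 / 3) →
      (∀ s, G r s ≤ G r' s) ∨ (∀ s, G r' s ≤ G r s) := by
    intro r r' h h'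
    rcases le_total r r' with h1 | h1
    · exact Or.inl (hordle r r' h.1 h1 h'.2)
    · exact Or.inr (hordle r' r h'.1 h1 h.2)
  obtain ⟨gm, hgm⟩ : ∃ gm : ℝ → ℝ, gm = fun s => sSup ((fun G' : ℝ → ℝ => G' s) '' (G '' Rm)) := ⟨_, rfl⟩
  obtain ⟨gp, hgp⟩ : ∃ gp : ℝ → ℝ, gp = fun s => sInf ((fun G' : ℝ → ℝ => G' s) '' (G '' Rp)) := ⟨_, rfl⟩
  have hlm : T.Leaf gm := by
    rw [hgm]
    refine leaf_sup hκ ⟨_, r1, hr1, rfl⟩ ?_ ?_ (b := G (1 / 3)) (fun s => (hT1.leaf.mem s).2) ?_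
    · rintro _ ⟨r, h, rfl⟩
      exact hleafm r ((hRm r).1 h).1
    · rintro _ ⟨r, h, rfl⟩ _ ⟨r', h', rfl⟩
      exact hchain r r' ((hRm r).1 h).1 ((hRm r').1 h').1
    · rintro _ ⟨r, h, rfl⟩ s
      have h' := ((hRm r).1 h).1
      exact hordle r (1 / 3) h'.1 h'.2 le_rfl s
  have hlp : T.Leaf gp := by
    rw [hgp]
    refine leaf_inf hκ ⟨_, 1 / 3, hp3, rfl⟩ ?_ ?_ (b := G r1) (fun s => ((hleafm r1 hr1'.1).mem s).1) ?_
    · rintro _ ⟨r, h, rfl⟩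
      exact hleafm r ((hRp r).1 h).1
    · rintro _ ⟨r, h, rfl⟩ _ ⟨r', h', rfl⟩
      exact hchain r r' ((hRp r).1 h).1 ((hRp r').1 h').1
    · rintro _ ⟨r, h, rfl⟩ s
      exact hordle r1 r hr1'.1.1 (hmp r1 hr1 r h).le ((hRp r).1 h).1.2 s
  have hbm : ∀ s, BddAbove ((fun G' : ℝ → ℝ => G' s) '' (G '' Rm)) := by
    intro s
    refine ⟨G (1 / 3) s, ?_⟩
    rintro _ ⟨_, ⟨r, h, rfl⟩, rfl⟩
    have h' := ((hRm r).1 h).1
    exact hordle r (1 / 3) h'.1 h'.2 le_rfl s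
  have hbp : ∀ s, BddBelow ((fun G' : ℝ → ℝ => G' s) '' (G '' Rp)) := by
    intro s
    refine ⟨G r1 s, ?_⟩
    rintro _ ⟨_, ⟨r, h, rfl⟩, rfl⟩
    exact hordle r1 r hr1'.1.1 (hmp r1 hr1 r h).le ((hRp r).1 h).1.2 s
  have m1 : ∀ r ∈ Rm, ∀ s, G r s ≤ gm s := by
    intro r h s
    rw [hgm]
    exact le_csSup (hbm s) ⟨G r, ⟨r, h, rfl⟩, rfl⟩
  have m2 : ∀ r ∈ Rp, ∀ s, gp s ≤ G r s := by
    intro r h s
    rw [hgp]
    exact csInf_le (hbp s) ⟨G r, ⟨r, h, rfl⟩, rfl⟩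
  have m3 : ∀ r ∈ Rp, ∀ s, gm s ≤ G r s := by
    intro r' h' s
    rw [hgm]
    refine csSup_le ⟨_, G r1, ⟨r1, hr1, rfl⟩, rfl⟩ ?_
    rintro _ ⟨_, ⟨r, h, rfl⟩, rfl⟩
    exact hordle r r' ((hRm r).1 h).1.1 (hmp r h r' h').le ((hRp r').1 h').1.2 s
  have m4 : ∀ s, gm s ≤ gp s := by
    intro s
    rw [hgp]
    refine le_csInf ⟨_, G (1 / 3), ⟨1 / 3, hp3, rfl⟩, rfl⟩ ?_
    rintro _ ⟨_, ⟨r, h, rfl⟩, rfl⟩
    exact m3 r h s
  have m5 : ∀ r ∈ Rm, ∀ s, G r s ≤ gp s := fun r h s => (m1 r h s).trans (m4 s)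
  have m6 : gm s0 ≤ θ0 := by
    rw [hgm]
    refine csSup_le ⟨_, G r1, ⟨r1, hr1, rfl⟩, rfl⟩ ?_
    rintro _ ⟨_, ⟨r, h, rfl⟩, rfl⟩
    exact ((hRm r).1 h).2
  have m7 : θ0 ≤ gp s0 := by
    rw [hgp]
    refine le_csInf ⟨_, G (1 / 3), ⟨1 / 3, hp3, rfl⟩, rfl⟩ ?_
    rintro _ ⟨_, ⟨r, h, rfl⟩, rfl⟩
    exact ((hRp r).1 h).2.le
  obtain ⟨fm, hfm⟩ := lf_exists hκ hlm
  obtain ⟨fp, hfp⟩ := lf_exists hκ hlp
  by_cases hirr : Irrational w
  · have heq := gap_irr hκ hfm hfp m4 hirr (hlo gm fm hfm m1) (hup gp fp hfp m2)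
    refine ⟨gm, hlm, le_antisymm m6 ?_⟩
    rw [heq]
    exact m7
  · unfold Irrational at hirr
    push Not at hirr
    obtain ⟨r, hrw⟩ := hirr
    have hr1w := hwm r1 hr1
    have hw3 := hwp _ hp3
    rw [← hrw] at hr1w hw3
    have hr1r : r1 ≤ r := by exact_mod_cast hr1w
    have hr3 : r ≤ 1 / 3 := by exact_mod_cast hw3
    have hr0 : 0 < r := hr1'.1.1.trans_le hr1r
    obtain ⟨k1, k2⟩ := hGF r ⟨hr0, hr3⟩
    have hcast := Fil_cast hr0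
    rcases le_or_gt (G r s0) θ0 with hc | hc
    · have hm : r ∈ Rm := (hRm r).2 ⟨⟨hr0, hr3⟩, hc⟩
      have heq := gap_up hκ k1 hfp (m5 r hm) r.den_pos k2 (by
        rw [hcast, hrw]
        exact hup gp fp hfp m2)
      refine ⟨G r, k1.leaf, le_antisymm hc ?_⟩
      rw [heq]
      exact m7
    · have hp : r ∈ Rp := (hRp r).2 ⟨⟨hr0, hr3⟩, hc⟩
      have heq := gap_lo hκ hfm k1 (m3 r hp) r.den_pos k2 (by
        rw [hcast, hrw]
        exact hlo gm fm hfm m1)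
      exfalso
      rw [heq] at m6
      linarith

end Pool.Agent.H50.BQ
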