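/-
Cir: from helper1's invariant circles `Circ T φ` (boundary maps) to leaves (graphs of the angle).
-/
import Mathlib
import Pool.Agent.H50.BQ.Lim
import Pool.Agent.H1.BR.Defs

set_option autoImplicit false

namespace Pool.Agent.H50.BQ

open Set Filter Topology Pool.Agent.H46.BL

variable {T : Table}

theorem l1_bounce {s θ s' θ' : ℝ} (hb : T.Bounce s θ s' θ') :
    Pool.Agent.H1.BR.l1 T s s' = - Real.cos θ ∧ Pool.Agent.H1.BR.l2 T s s' = Real.cos θ' := by
  obtain ⟨-, -, -, -, hτ, ℓ, hℓ, hγ⟩ := hb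
  have hd : T.γ s' - T.γ s = (ℓ : ℂ) * ex (T.τ s + θ) := by rw [hγ]; ring
  have hlen : Pool.Agent.H1.BR.len T s s' = ℓ := by
    unfold Pool.Agent.H1.BR.len
    rw [hd, norm_mul, ex_norm, mul_one, Complex.norm_real, Real.norm_eq_abs, abs_of_pos hℓ]
  have hre : ∀ a : ℝ, ((T.γ s' - T.γ s) * ex (-a)).re = ℓ * Real.cos (T.τ s + θ - a) := by
    intro a
    rw [hd, mul_assoc, ← ex_add, Complex.re_ofReal_mul, Ang_re, sub_eq_add_neg]
  constructor
  · unfold Pool.Agent.H1.BR.l1
    rw [hre, hlen, add_sub_cancel_left]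
    field_simp
  · unfold Pool.Agent.H1.BR.l2
    rw [hre, hlen, hτ, show T.τ s + θ - (T.τ s + θ + θ') = -θ' by ring, Real.cos_neg]
    field_simp

theorem leaf_of_circ (hκ : ∀ s, 0 < deriv T.τ s) {φ : ℝ → ℝ} (hφ : Pool.Agent.H1.BR.Circ T φ) :
    ∃ g, Lf T g φ := by
  have hτm : StrictMono T.τ := strictMono_of_deriv_pos hκ
  have hlo : ∀ s, s < φ s := fun s => hτm.lt_iff_lt.1 (hφ.tw s).1
  have hhi : ∀ s, φ s < s + T.L := fun s => by
    apply hτm.lt_iff_lt.1
    rw [T.turning]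
    exact (hφ.tw s).2
  have hex : ∀ s, ∃ θ θ', T.Bounce s θ (φ s) θ' := fun s => exists_angles T hκ (hlo s) (hhi s)
  choose g g' hb using hex
  have hcos : ∀ s, Real.cos (g s) = - Pool.Agent.H1.BR.l1 T s (φ s) := fun s => by
    rw [(l1_bounce (hb s)).1, neg_neg]
  have hcos' : ∀ s, Real.cos (g' s) = Real.cos (g (φ s)) := fun s => by
    rw [hcos (φ s), ← (l1_bounce (hb s)).2]
    have := hφ.el s
    linarith
  have hg' : ∀ s, g' s = g (φ s) := fun s => by
    have h1 : g' s ∈ Icc 0 Real.pi := ⟨(hb s).2.1.1.le, (hb s).2.1.2.le⟩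
    have h2 : g (φ s) ∈ Icc 0 Real.pi := ⟨(hb (φ s)).1.1.le, (hb (φ s)).1.2.le⟩
    exact Real.injOn_cos h1 h2 (hcos' s)
  have hb' : ∀ s, T.Bounce s (g s) (φ s) (g (φ s)) := fun s => by
    have := hb s
    rw [hg'] at this
    exact this
  have hgeq : g = fun s => Real.arccos (- Pool.Agent.H1.BR.l1 T s (φ s)) := by
    funext s
    rw [← hcos s, Real.arccos_cos (hb s).1.1.le (hb s).1.2.le]
  have hγc : Continuous T.γ := continuous_iff_continuousAt.2 fun x => (T.tangent x).continuousAt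
  have hgc : Continuous g := by
    rw [hgeq]
    refine Real.continuous_arccos.comp (Continuous.neg ?_)
    unfold Pool.Agent.H1.BR.l1 Pool.Agent.H1.BR.len
    refine Continuous.div ?_ ?_ ?_
    · refine (Complex.continuous_re.comp ?_).neg
      exact ((hγc.comp hφ.cont).sub hγc).mul (ex_smooth.continuous.comp T.smooth.continuous.neg)
    · exact ((hγc.comp hφ.cont).sub hγc).norm
    · intro s h0
      obtain ⟨-, -, -, -, -, ℓ, hℓ, hγ⟩ := hb s
      have hd : T.γ (φ s) - T.γ s = (ℓ : ℂ) * ex (T.τ s + g s) := by rw [hγ]; ring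
      rw [hd, norm_mul, ex_norm, mul_one, Complex.norm_real, Real.norm_eq_abs, abs_of_pos hℓ] at h0
      exact hℓ.ne' h0
  have hper : ∀ s, g (s + T.L) = g s := by
    intro s
    have h1 := hb' (s + T.L)
    have h2 := bounce_add (hb' s)
    rw [hφ.per] at h1
    exact (angles_unique T h1 h2).1
  have hleaf : T.Leaf g := by
    refine leaf_of_fwd hκ hgc hper (fun s => (hb s).1) ?_
    intro s s' θ' h
    have h1 : s' = φ s := Per_next T hκ h (hb' s)
    rw [h1] at h ⊢
    exact (angles_unique T h (hb' s)).2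
  refine ⟨g, hleaf, hφ.cont, hφ.mono, ?_, hb'⟩
  apply hφ.cont.surjective
  · exact tendsto_atTop_mono (fun s => (hlo s).le) tendsto_id
  · exact tendsto_atBot_mono (fun s => (hhi s).le) (tendsto_atBot_add_const_right _ _ tendsto_id)

end Pool.Agent.H50.BQ
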