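/-
ROW Col.  The collar of H46/BL gives good level graphs for the levels just above the value at θ = 0 (after a change of sign of W).
PROOF.  L = T.L, k, K from curv_bounds (k <= τ' <= K).
(1) For a leaf g with map f and g < d everywhere: f s - s <= (g s + g (f s))/k <= 2 d / k (mean value theorem for τ and Lf.tau), so f (f (f s)) <= s + 6 d / k < s + L if d < k L / 6.
    So (last clause of Foliated, with d = k L / 7) there is b in (0,1) such that every leaf G c, c in (0, b], satisfies f (f (f s)) < s + L (apply the clause with c0, take b < c0).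
(2) On U = {(s, θ) | 0 < θ < G b s} deriv (W s) θ ≠ 0: by Foliated (fill clause; monotonicity in c) (s, θ) lies on G c with c < b [θ < G b s; the fill clause only covers θ < ε, so take b also so small
    that G b s < ε for all s (last clause)], and hnd applies to G c and its map (lf_exists).
(3) Sign: let ε1 = min over s of G b s > 0 (continuous, periodic).  deriv (W s) θ is continuous and ≠ 0 on the connected set ℝ × (0, ε1), so it has a constant sign σ there
    (IsPreconnected, intermediate value); for fixed s it is ≠ 0 on the interval (0, G b s), so it has the sign σ on all of U.  Put V s θ = σ W s θ; deriv (V s) θ = σ deriv (W s) θ > 0 on U.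
(4) c0 := V 0 0 = V s 0 for all s (h0).  η := V 0 (ε1/2) - c0 > 0 (V 0 strictly increasing on [0, ε1/2]).  For c0 < c < c0 + η the intermediate value theorem gives θ in (0, ε1/2) with V 0 θ = c; the leaf
    G c' through (0, θ) (c' < b) has V s (G c' s) = c for all s (hlev), f^3 < s + L by (1), and deriv (V s) > 0 on (0, G c' s] ⊆ (0, G b s).
-/
import Mathlib
import Pool.Agent.H46.BL.Tay
import Pool.Agent.H46.BL.Fol
import Pool.Agent.H46.BL.Pon
import Pool.Agent.H50.BQ.Lfb

set_option autoImplicit false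

namespace Pool.Agent.H50.BQ

open Set Filter Topology Pool.Agent.H46.BL
open scoped ContDiff

variable {T : Table}

private theorem Col_three {k K : ℝ} (hk : 0 < k)
    (h : ∀ s, k ≤ deriv T.τ s ∧ deriv T.τ s ≤ K) {g f : ℝ → ℝ} (hf : Lf T g f)
    (hg : ∀ s, g s < k * T.L / 7) (s : ℝ) : f (f (f s)) < s + T.L := by
  have key : ∀ x, f x - x < 2 * T.L / 7 := by
    intro x
    have h1 := (Pon_tau T h (hf.lo x)).1
    have h2 := hf.tau x
    have h3 := hg x
    have h4 := hg (f x)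
    have h5 : k * (f x - x) < k * (2 * T.L / 7) := by
      have : k * (2 * T.L / 7) = k * T.L / 7 + k * T.L / 7 := by ring
      rw [this]
      linarith
    exact lt_of_mul_lt_mul_left h5 hk.le
  have h1 := key s
  have h2 := key (f s)
  have h3 := key (f (f s))
  have h4 := T.Lpos
  linarith

theorem collar (hκ : ∀ s, 0 < deriv T.τ s) {W : ℝ → ℝ → ℝ} (hW : Wint T W)
    (h0 : ∀ s s', W s 0 = W s' 0) {G : ℝ → ℝ → ℝ} {ε : ℝ} (hfol : T.Foliated G ε)
    (hlev : ∀ c ∈ Ioo (0 : ℝ) 1, ∀ s s', W s (G c s) = W s' (G c s'))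
    (hnd : ∀ g f, Lf T g f → (∀ s s', W s (g s) = W s' (g s')) → (∀ s, f (f (f s)) ≤ s + T.L) →
      ∀ s, deriv (W s) (g s) ≠ 0) :
    ∃ σ : ℝ, (σ = 1 ∨ σ = -1) ∧ ∃ c₀ η : ℝ, 0 < η ∧ (∀ s, σ * W s 0 = c₀) ∧
      ∀ c, c₀ < c → c < c₀ + η → ∃ g f, Gd T (fun s θ => σ * W s θ) c g f := by
  obtain ⟨k, K, hk, hkK⟩ := curv_bounds T hκ
  have hL := T.Lpos
  obtain ⟨hε, -, -, -, -, hmono, hfill, hshr⟩ := id hfol
  have hd : 0 < min (k * T.L / 7) ε := lt_min (by positivity) hε
  obtain ⟨c0, hc0, hsm⟩ := hshr _ hd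
  set b : ℝ := c0 / 2 with hb
  have hb0 : 0 < b := by rw [hb]; linarith [hc0.1]
  have hb1 : b < 1 := by rw [hb]; linarith [hc0.1, hc0.2]
  have hbc : b < c0 := by rw [hb]; linarith [hc0.1]
  have hbI : b ∈ Ioo (0 : ℝ) 1 := ⟨hb0, hb1⟩
  have hleafb := hfol.leaf hbI
  have hbε : ∀ s, G b s < ε := fun s => (hsm b ⟨hb0, hbc⟩ s).trans_le (min_le_right _ _)
  have hbpos : ∀ s, 0 < G b s := fun s => (hleafb.mem s).1
  -- leaves through the points below the graph of `G b`
  have hleaf : ∀ s θ, 0 < θ → θ < G b s → ∃ c, c ∈ Ioo 0 b ∧ c ∈ Ioo (0 : ℝ) 1 ∧ G c s = θ ∧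
      ∃ f, Lf T (G c) f ∧ ∀ x, f (f (f x)) < x + T.L := by
    intro s θ h1 h2
    obtain ⟨c, hc, hcs⟩ := hfill s θ ⟨h1, h2.trans (hbε s)⟩
    have hcb : c < b := by
      by_contra hn
      rcases (not_lt.1 hn).lt_or_eq with h3 | h3
      · have := hmono b hbI c hc h3 s
        linarith
      · rw [h3] at h2
        linarith
    obtain ⟨f, hf⟩ := lf_exists hκ (hfol.leaf hc)
    exact ⟨c, ⟨hc.1, hcb⟩, hc, hcs, f, hf, fun x => Col_three hk hkK hf
      (fun y => (hsm c ⟨hc.1, hcb.trans hbc⟩ y).trans_le (min_le_left _ _)) x⟩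
  have hne : ∀ s θ, 0 < θ → θ < G b s → deriv (W s) θ ≠ 0 := by
    intro s θ h1 h2
    obtain ⟨c, -, hc, hcs, f, hf, hf3⟩ := hleaf s θ h1 h2
    have := hnd (G c) f hf (hlev c hc) (fun x => (hf3 x).le) s
    rwa [hcs] at this
  have hcd : Continuous fun z : ℝ × ℝ => deriv (W z.1) z.2 := by
    have h1 := (smooth_iter hW.smooth 1).continuous
    simpa only [iteratedDeriv_one] using h1
  have hWs : ∀ s, ContDiff ℝ ∞ (W s) := fun s =>
    hW.smooth.comp (contDiff_const.prodMk contDiff_id : ContDiff ℝ ∞ fun θ : ℝ => (s, θ))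
  have hWd : ∀ s θ, DifferentiableAt ℝ (W s) θ := fun s θ => (hWs s).differentiable (by simp) θ
  -- the sign
  have hsc : Continuous fun s => deriv (W s) (G b s / 2) :=
    hcd.comp (continuous_id.prodMk (hleafb.cont.div_const 2))
  obtain ⟨σ', hσ0, hσ'⟩ := Fol_sign hsc
    (fun s => hne s _ (by linarith [hbpos s]) (by linarith [hbpos s]))
  obtain ⟨σ, hσ, hσs⟩ : ∃ σ : ℝ, (σ = 1 ∨ σ = -1) ∧ ∀ s, 0 < σ * deriv (W s) (G b s / 2) := by
    rcases lt_or_gt_of_ne hσ0 with h1 | h1
    · refine ⟨-1, Or.inr rfl, fun s => ?_⟩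
      have h2 := neg_of_mul_pos_right (hσ' s) h1.le
      linarith
    · refine ⟨1, Or.inl rfl, fun s => ?_⟩
      have h2 := (mul_pos_iff_of_pos_left h1).1 (hσ' s)
      linarith
  have hσne : σ ≠ 0 := by
    rcases hσ with h | h <;> rw [h] <;> norm_num
  have hpos : ∀ s θ, 0 < θ → θ < G b s → 0 < σ * deriv (W s) θ := by
    intro s θ h1 h2
    by_contra hn
    have hc1 : ContinuousOn (fun x => σ * deriv (W s) x) (Ioo 0 (G b s)) :=
      (continuous_const.mul (hcd.comp (continuous_const.prodMk continuous_id))).continuousOn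
    have h3 := (isPreconnected_Ioo : IsPreconnected (Ioo 0 (G b s))).image _ hc1
    have h4 := h3.ordConnected.out (mem_image_of_mem _ (⟨h1, h2⟩ : θ ∈ Ioo 0 (G b s)))
      (mem_image_of_mem _ (⟨by linarith [hbpos s], by linarith [hbpos s]⟩ : G b s / 2 ∈ Ioo 0 (G b s)))
    obtain ⟨x, hx, hx0⟩ := h4 ⟨not_lt.1 hn, (hσs s).le⟩
    exact (mul_ne_zero hσne (hne s x hx.1 hx.2)) hx0
  have hder : ∀ s θ, deriv (fun θ => σ * W s θ) θ = σ * deriv (W s) θ := fun s θ =>
    deriv_const_mul σ (hWd s θ)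
  refine ⟨σ, hσ, σ * W 0 0, σ * W 0 (G b 0 / 2) - σ * W 0 0, ?_, fun s => by rw [h0 s 0], ?_⟩
  · have hmn : StrictMonoOn (fun θ => σ * W 0 θ) (Icc 0 (G b 0 / 2)) := by
      apply strictMonoOn_of_deriv_pos (convex_Icc _ _)
      · exact (continuous_const.mul (hWs 0).continuous).continuousOn
      · intro x hx
        rw [interior_Icc] at hx
        rw [hder]
        exact hpos 0 x hx.1 (by linarith [hx.2, hbpos 0])
    have h1 := hmn (left_mem_Icc.2 (by linarith [hbpos 0])) (right_mem_Icc.2 (by linarith [hbpos 0]))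
      (by linarith [hbpos 0] : (0 : ℝ) < G b 0 / 2)
    have h2 : σ * W 0 0 < σ * W 0 (G b 0 / 2) := h1
    linarith
  · intro c hc1 hc2
    have hcont : ContinuousOn (fun θ => σ * W 0 θ) (Icc 0 (G b 0 / 2)) :=
      (continuous_const.mul (hWs 0).continuous).continuousOn
    obtain ⟨θ, hθ, hθc⟩ := intermediate_value_Ioo (by linarith [hbpos 0] : (0 : ℝ) ≤ G b 0 / 2) hcont
      (⟨hc1, by linarith⟩ : c ∈ Ioo ((fun θ => σ * W 0 θ) 0) ((fun θ => σ * W 0 θ) (G b 0 / 2)))
    obtain ⟨c', hc'b, hc', hcs, f, hf, hf3⟩ := hleaf 0 θ hθ.1 (by linarith [hθ.2, hbpos 0])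
    refine ⟨G c', f, hf, ?_, hf3, ?_⟩
    · intro s
      show σ * W s (G c' s) = c
      rw [hlev c' hc' s 0, hcs]
      exact hθc
    · intro s x hx1 hx2
      rw [hder]
      exact hpos s x hx1 (hx2.trans_lt (hmono c' hc' b hbI hc'b.2 s))

end Pool.Agent.H50.BQ
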