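/-
ROW Ind.  Independence of dF and dH at a boundary vector that is not tangent: the differential of fn does not vanish.
PROOF (as in H46/BL/Gln.lean, glancing_indep; copy its d1, d2).  z0 = (γ s, r ex (τ s + θ)), P = T.phase, Φ = fderivWithin F̂ P z0, κ = deriv τ s.
 (1) ∂θ fn = Φ (0, r ex (τ s + θ) i);  (2) ∂s fn = Φ (ex (τ s), κ r ex (τ s + θ) i) = Φ (ex (τ s), 0) + κ ∂θ fn;  (3) Φ (r ex (τ s + θ), 0) = 0 (Gln_transport).
Suppose ∂s fn = ∂θ fn = 0.  Then Φ (ex (τ s), 0) = 0 and Φ (ex (τ s + θ), 0) = 0; since 0 < θ < pi, ex (τ s) and ex (τ s + θ) span ℂ over ℝ, so Φ (v, 0) = 0 for all v.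
Φ (0, i ex (τ s + θ)) = 0.  The derivative of `energy` at z0 is (v, w) ↦ Re (conj (r ex (τ s + θ)) w) (see Gln.lean); it vanishes on (v, 0) and on (0, i ex (τ s + θ)) too.
Every (v, w) = (v, 0) + (0, x ex (τ s + θ)) + (0, y i ex (τ s + θ)), so Φ = c * fderiv energy with c = Φ (0, ex (τ s + θ)) / r: linearly dependent, contradiction.
-/
import Mathlib
import Pool.Agent.H46.BL.Gln
import Pool.Agent.H50.BQ.Defs

set_option autoImplicit false

namespace Pool.Agent.H50.BQ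

open Set Filter Topology Pool.Agent.H46.BL
open scoped ContDiff

theorem ind_deriv (T : Table) {F : ℂ → ℂ → ℝ} (hF : T.Integral F) {r : ℝ} (hr : 0 < r) {s θ : ℝ}
    (hθ : θ ∈ Ioo 0 Real.pi)
    (hli : LinearIndependent ℝ ![fderivWithin ℝ (fun z : ℂ × ℂ => F z.1 z.2) T.phase
        (T.γ s, (r : ℂ) * ex (T.τ s + θ)), fderiv ℝ energy (T.γ s, (r : ℂ) * ex (T.τ s + θ))]) :
    deriv (fun y => T.fn F r y θ) s ≠ 0 ∨ deriv (T.fn F r s) θ ≠ 0 := by
  by_contra hcon
  rw [not_or, not_not, not_not] at hcon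
  obtain ⟨hz1, hz2⟩ := hcon
  have hr' : (r : ℂ) ≠ 0 := by exact_mod_cast hr.ne'
  have hU := Gln_uniq T
  have hsm : ContDiffOn ℝ ∞ (fun z : ℂ × ℂ => F z.1 z.2) T.phase := hF.smooth
  set Φ : ℂ × ℂ → (ℂ × ℂ →L[ℝ] ℝ) :=
    fun z => fderivWithin ℝ (fun z : ℂ × ℂ => F z.1 z.2) T.phase z with hΦ
  have hmem : ∀ x θ : ℝ, ((T.γ x, (r : ℂ) * ex (T.τ x + θ)) : ℂ × ℂ) ∈ T.phase := fun x θ =>
    ⟨T.γ_mem x, mul_ne_zero hr' (ex_ne _)⟩
  have hFd : ∀ x θ : ℝ, HasFDerivWithinAt (fun z : ℂ × ℂ => F z.1 z.2)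
      (Φ (T.γ x, (r : ℂ) * ex (T.τ x + θ))) T.phase (T.γ x, (r : ℂ) * ex (T.τ x + θ)) := fun x θ =>
    (hsm.differentiableOn (by simp) _ (hmem x θ)).hasFDerivWithinAt
  have hτd : ∀ x, HasDerivAt T.τ (deriv T.τ x) x := fun x =>
    (T.smooth.differentiable (by simp) x).hasDerivAt
  -- derivative in θ
  have d2 : ∀ x θ : ℝ, HasDerivAt (T.fn F r x)
      (Φ (T.γ x, (r : ℂ) * ex (T.τ x + θ)) (0, (r : ℂ) * (ex (T.τ x + θ) * Complex.I))) θ := by
    intro x θ
    have hcurve : HasDerivAt (fun t : ℝ => ((T.γ x, (r : ℂ) * ex (T.τ x + t)) : ℂ × ℂ))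
        (0, (r : ℂ) * (ex (T.τ x + θ) * Complex.I)) θ := by
      refine HasDerivAt.prodMk (hasDerivAt_const _ _) ?_
      exact ((Gln_ex_deriv (T.τ x + θ)).comp_const_add (T.τ x) θ).const_mul (r : ℂ)
    exact (hFd x θ).comp_hasDerivAt θ hcurve (Eventually.of_forall fun t => hmem x t)
  -- derivative in x
  have d1 : ∀ x θ : ℝ, HasDerivAt (fun y => T.fn F r y θ)
      (Φ (T.γ x, (r : ℂ) * ex (T.τ x + θ))
        (ex (T.τ x), (r : ℂ) * ((deriv T.τ x : ℝ) • (ex (T.τ x + θ) * Complex.I)))) x := by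
    intro x θ
    have hcurve : HasDerivAt (fun t : ℝ => ((T.γ t, (r : ℂ) * ex (T.τ t + θ)) : ℂ × ℂ))
        (ex (T.τ x), (r : ℂ) * ((deriv T.τ x : ℝ) • (ex (T.τ x + θ) * Complex.I))) x := by
      refine HasDerivAt.prodMk (T.tangent x) ?_
      have h1 : HasDerivAt (fun t => T.τ t + θ) (deriv T.τ x) x := (hτd x).add_const θ
      exact ((Gln_ex_deriv (T.τ x + θ)).scomp x h1).const_mul (r : ℂ)
    exact (hFd x θ).comp_hasDerivAt x hcurve (Eventually.of_forall fun t => hmem t θ)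
  have d1' : ∀ x θ : ℝ, Φ (T.γ x, (r : ℂ) * ex (T.τ x + θ))
        (ex (T.τ x), (r : ℂ) * ((deriv T.τ x : ℝ) • (ex (T.τ x + θ) * Complex.I)))
      = Φ (T.γ x, (r : ℂ) * ex (T.τ x + θ)) (ex (T.τ x), 0)
        + deriv T.τ x * Φ (T.γ x, (r : ℂ) * ex (T.τ x + θ)) (0, (r : ℂ) * (ex (T.τ x + θ) * Complex.I)) := by
    intro x θ
    have h1 : ((ex (T.τ x), (r : ℂ) * ((deriv T.τ x : ℝ) • (ex (T.τ x + θ) * Complex.I))) : ℂ × ℂ)
        = (ex (T.τ x), 0) + (deriv T.τ x : ℝ) • (0, (r : ℂ) * (ex (T.τ x + θ) * Complex.I)) := by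
      ext1
      · simp
      · simp [mul_left_comm]
    rw [h1, map_add, map_smul, smul_eq_mul]
  rw [(d1 s θ).deriv, d1'] at hz1
  rw [(d2 s θ).deriv] at hz2
  have htr := Gln_transport T hF _ (hmem s θ)
  set t := ex (T.τ s + θ) with ht
  have hz1' : Φ (T.γ s, (r : ℂ) * t) (ex (T.τ s), 0) = 0 := by
    rw [hz2, mul_zero, add_zero] at hz1
    exact hz1
  have hP1 : Φ (T.γ s, (r : ℂ) * t) (t, 0) = 0 := by
    have h2 : (((r : ℂ) * t, 0) : ℂ × ℂ) = r • ((t, 0) : ℂ × ℂ) := by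
      ext1
      · simp
      · simp
    simp only at htr
    rw [h2, map_smul, smul_eq_mul] at htr
    rcases mul_eq_zero.1 htr with h3 | h3
    · exact absurd h3 hr.ne'
    · exact h3
  have hP2 : Φ (T.γ s, (r : ℂ) * t) (t * Complex.I, 0) = 0 := by
    have h2 : ((ex (T.τ s), 0) : ℂ × ℂ) = Real.cos θ • ((t, 0) : ℂ × ℂ)
        + (-Real.sin θ) • ((t * Complex.I, 0) : ℂ × ℂ) := by
      have h3 : ex (-θ) = (Real.cos θ : ℂ) - (Real.sin θ : ℂ) * Complex.I := by
        unfold ex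
        rw [Complex.exp_mul_I, ← Complex.ofReal_cos, ← Complex.ofReal_sin, Real.cos_neg,
          Real.sin_neg]
        push_cast
        ring
      have h4 : ex (T.τ s) = t * ex (-θ) := by
        rw [ht, ← ex_add]
        congr 1
        ring
      ext1
      · simp only [Prod.fst_add, Prod.smul_fst, Complex.real_smul]
        rw [h4, h3]
        push_cast
        ring
      · simp
    rw [h2, map_add, map_smul, map_smul, smul_eq_mul, smul_eq_mul, hP1, mul_zero, zero_add] at hz1'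
    rcases mul_eq_zero.1 hz1' with h3 | h3
    · have := Real.sin_pos_of_pos_of_lt_pi hθ.1 hθ.2
      linarith
    · exact h3
  have hP3 : Φ (T.γ s, (r : ℂ) * t) (0, t * Complex.I) = 0 := by
    have h2 : ((0, (r : ℂ) * (t * Complex.I)) : ℂ × ℂ) = r • ((0, t * Complex.I) : ℂ × ℂ) := by
      ext1
      · simp
      · simp
    rw [h2, map_smul, smul_eq_mul] at hz2
    rcases mul_eq_zero.1 hz2 with h3 | h3
    · exact absurd h3 hr.ne'
    · exact h3
  -- the energy
  have hE : HasFDerivAt energy ((innerSL ℝ ((r : ℂ) * t)).comp (ContinuousLinearMap.snd ℝ ℂ ℂ))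
      (T.γ s, (r : ℂ) * t) := by
    have h1 : HasFDerivAt (fun z : ℂ × ℂ => z.2) (ContinuousLinearMap.snd ℝ ℂ ℂ) (T.γ s, (r : ℂ) * t) :=
      hasFDerivAt_snd
    have h2 := h1.norm_sq
    have h3 := h2.const_mul ((2 : ℝ)⁻¹)
    have h4 : energy = fun z : ℂ × ℂ => (2 : ℝ)⁻¹ * ‖z.2‖ ^ 2 := by
      funext z; unfold energy; ring
    rw [h4]
    refine h3.congr_fderiv ?_
    apply ContinuousLinearMap.ext
    intro z
    simp only [ContinuousLinearMap.smul_apply, ContinuousLinearMap.comp_apply, smul_eq_mul, nsmul_eq_mul]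
    push_cast
    ring
  have hnorm : (starRingEnd ℂ) t * t = 1 := by
    rw [ht, ex_conj, ← ex_add]; simp [ex]
  have hEv : ∀ a b c d : ℝ, fderiv ℝ energy (T.γ s, (r : ℂ) * t)
      (a • t + b • (t * Complex.I), c • t + d • (t * Complex.I)) = r * c := by
    intro a b c d
    rw [hE.fderiv]
    simp only [ContinuousLinearMap.comp_apply, ContinuousLinearMap.coe_snd', innerSL_apply_apply]
    rw [Complex.inner]
    have h1 : (c • t + d • (t * Complex.I)) * (starRingEnd ℂ) ((r : ℂ) * t)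
        = (r : ℂ) * ((c : ℂ) + d * Complex.I) * ((starRingEnd ℂ) t * t) := by
      simp only [map_mul, Complex.conj_ofReal, Complex.real_smul]
      ring
    rw [h1, hnorm]
    simp
  have hFv : ∀ a b c d : ℝ, Φ (T.γ s, (r : ℂ) * t)
      (a • t + b • (t * Complex.I), c • t + d • (t * Complex.I)) = c * Φ (T.γ s, (r : ℂ) * t) (0, t) := by
    intro a b c d
    have h1 : ((a • t + b • (t * Complex.I), c • t + d • (t * Complex.I)) : ℂ × ℂ)
        = a • (t, 0) + b • (t * Complex.I, 0) + c • (0, t) + d • (0, t * Complex.I) := by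
      ext1
      · simp
      · simp
    rw [h1]
    simp only [map_add, map_smul, hP1, hP2, hP3, smul_eq_mul, mul_zero, zero_add, add_zero]
  have hdec : ∀ w : ℂ, w = ((starRingEnd ℂ) t * w).re • t + ((starRingEnd ℂ) t * w).im • (t * Complex.I) := by
    intro w
    have h1 : w = ((starRingEnd ℂ) t * w) * t := by
      calc w = ((starRingEnd ℂ) t * t) * w := by rw [hnorm, one_mul]
        _ = _ := by ring
    conv_lhs => rw [h1, ← Complex.re_add_im ((starRingEnd ℂ) t * w)]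
    simp only [Complex.real_smul]
    ring
  rw [LinearIndependent.pair_iff] at hli
  have := hli r (- Φ (T.γ s, (r : ℂ) * t) (0, t)) (by
    apply ContinuousLinearMap.ext
    rintro ⟨q, p⟩
    rw [hdec q, hdec p]
    simp only [ContinuousLinearMap.add_apply, ContinuousLinearMap.smul_apply, ContinuousLinearMap.zero_apply]
    rw [hEv]
    have h5 := hFv ((starRingEnd ℂ) t * q).re ((starRingEnd ℂ) t * q).im ((starRingEnd ℂ) t * p).re
      ((starRingEnd ℂ) t * p).im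
    simp only [hΦ] at h5 ⊢
    rw [h5]
    simp only [smul_eq_mul]
    ring)
  exact hr.ne' this.1

end Pool.Agent.H50.BQ
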