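/-
ROW Cnt.  Continuation: near an invariant level graph with W_θ > 0 all levels near c0 are invariant circles.
PROOF.  L = T.L.  All functions are L-periodic in s (g, W, deriv (W s) θ), so compactness of [0, L] applies.
(1) There are η > 0, k > 0 with [g s - η, g s + η] ⊆ (0, pi) and deriv (W s) θ >= k for |θ - g s| <= η, all s.  ((s, t) ↦ deriv (W s) (g s + t) is continuous
    (deriv in the second variable of a smooth function of two variables: H46/BL/Tay.lean smooth_iter with k = 1) and positive on the compact [0,L] × {0}: by contradiction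
    with sequences, or generalized tube lemma, or uniform continuity.)
(2) Let |c - c0| < k η.  W s (g s + η) >= c0 + k η > c > c0 - k η >= W s (g s - η) and W s is strictly increasing on [g s - η, g s + η]: there is a unique g' s in the open interval with
    W s (g' s) = c, and k |g' s - g s| <= |c - c0| (mean value theorem).  g' is L-periodic by uniqueness.  g' is continuous: at s0, for small e > 0 with g' s0 ± e in the open interval:
    W s0 (g' s0 - e) < c < W s0 (g' s0 + e); these inequalities persist for s near s0 and g' s0 ± e stay in (g s - η, g s + η); by monotonicity |g' s - g' s0| < e.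
(3) Forward invariance: S of exists_next; D (s, θ) := (τ (S s θ) - τ s - θ) - g (S s θ), continuous on ℝ × (0, pi), L-periodic in s (bounce_add, Per_next), D (s, g s) = 0 (g is a leaf).
    So there is 0 < η' <= η with |θ - g s| <= η' → |D (s, θ)| < η for all s (compactness of the graph of g over [0, L] as in (1)).  δ := k η' (if η' = η take the smaller of both).
    Let |c - c0| < δ: |g' s - g s| < η'.  If Bounce s (g' s) s' θ' then s' = S s (g' s) (Per_next), θ' = τ s' - τ s - g' s, so |θ' - g s'| < η, and W s' θ' = W s (g' s) = c (Wint.inv), so θ' = g' s'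
    by uniqueness.  leaf_of_fwd (Lim) gives T.Leaf g'.
(4) positivity of deriv (W s) on uIcc (g s) (g' s): |θ - g s| <= η there.
-/
import Mathlib
import Pool.Agent.H46.BL.Tay
import Pool.Agent.H50.BQ.Lim

set_option autoImplicit false

namespace Pool.Agent.H50.BQ

open Set Filter Topology Pool.Agent.H46.BL
open scoped ContDiff

variable {T : Table}

theorem Cnt_pos_unif {L : ℝ} (hL : 0 < L) {Φ : ℝ → ℝ → ℝ} (hc : Continuous (fun z : ℝ × ℝ => Φ z.1 z.2))
    (hp : ∀ s t, Φ (s + L) t = Φ s t) (h0 : ∀ s, 0 < Φ s 0) :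
    ∃ η > 0, ∃ k > 0, ∀ s t, |t| ≤ η → k ≤ Φ s t := by
  have hc0 : Continuous (fun s => Φ s 0) := hc.comp (continuous_id.prodMk continuous_const)
  obtain ⟨s0, -, hs0⟩ := (isCompact_Icc : IsCompact (Icc (0 : ℝ) L)).exists_isMinOn
    (nonempty_Icc.2 hL.le) hc0.continuousOn
  have hm : 0 < Φ s0 0 := h0 s0
  have hopen : IsOpen {z : ℝ × ℝ | Φ s0 0 / 2 < Φ z.1 z.2} := isOpen_lt continuous_const hc
  have hsub : Icc (0 : ℝ) L ×ˢ ({0} : Set ℝ) ⊆ {z : ℝ × ℝ | Φ s0 0 / 2 < Φ z.1 z.2} := by
    rintro ⟨s, t⟩ ⟨hs, ht⟩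
    have ht0 : t = 0 := ht
    subst ht0
    have h1 : Φ s0 0 ≤ Φ s 0 := hs0 hs
    show Φ s0 0 / 2 < Φ s 0
    linarith
  obtain ⟨u, v, hu, hv, hu2, hv2, huv⟩ := generalized_tube_lemma isCompact_Icc isCompact_singleton hopen hsub
  have h0v : (0 : ℝ) ∈ v := hv2 rfl
  obtain ⟨r, hr, hrv⟩ := Metric.isOpen_iff.1 hv 0 h0v
  refine ⟨r / 2, by linarith, Φ s0 0 / 2, by linarith, ?_⟩
  intro s t ht
  have hper : Function.Periodic (fun s => Φ s t) L := fun s => hp s t
  obtain ⟨y, hy, hys⟩ := hper.exists_mem_Ico₀ hL s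
  have hys' : Φ s t = Φ y t := hys
  rw [hys']
  have htv : t ∈ v := hrv (by
    rw [Metric.mem_ball, Real.dist_eq, sub_zero]
    linarith)
  have : (y, t) ∈ {z : ℝ × ℝ | Φ s0 0 / 2 < Φ z.1 z.2} := huv ⟨hu2 ⟨hy.1, hy.2.le⟩, htv⟩
  exact le_of_lt this

theorem cnt (hκ : ∀ s, 0 < deriv T.τ s) {W : ℝ → ℝ → ℝ} (hW : Wint T W) {g : ℝ → ℝ} (hl : T.Leaf g)
    {c₀ : ℝ} (hlev : ∀ s, W s (g s) = c₀) (hpos : ∀ s, 0 < deriv (W s) (g s)) :
    ∃ δ > 0, ∃ k > 0, ∀ c, |c - c₀| < δ → ∃ g', T.Leaf g' ∧ (∀ s, W s (g' s) = c) ∧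
      (∀ s, k * |g' s - g s| ≤ |c - c₀|) ∧ ∀ s, ∀ θ ∈ uIcc (g s) (g' s), 0 < deriv (W s) θ := by
  have hWc : Continuous (fun z : ℝ × ℝ => W z.1 z.2) := hW.smooth.continuous
  have hdc : Continuous (fun z : ℝ × ℝ => deriv (W z.1) z.2) := by
    have h1 := (smooth_iter hW.smooth 1).continuous
    simpa only [iteratedDeriv_one] using h1
  have hWp : ∀ s, W (s + T.L) = W s := fun s => funext fun θ => hW.per s θ
  have hWd : ∀ s, Differentiable ℝ (W s) := by
    intro s
    have h1 : ContDiff ℝ ∞ (W s) := hW.smooth.comp (contDiff_const.prodMk contDiff_id)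
    exact h1.differentiable (by simp)
  -- step 1
  obtain ⟨η, hη, k, hk, h1⟩ := Cnt_pos_unif T.Lpos
    (Φ := fun s t => min (deriv (W s) (g s + t)) (min (g s + t) (Real.pi - (g s + t))))
    (by
      have hgt : Continuous (fun z : ℝ × ℝ => g z.1 + z.2) := (hl.cont.comp continuous_fst).add continuous_snd
      have h2 : Continuous (fun z : ℝ × ℝ => deriv (W z.1) (g z.1 + z.2)) :=
        hdc.comp (continuous_fst.prodMk hgt)
      exact h2.min (hgt.min (continuous_const.sub hgt)))
    (by
      intro s t
      simp only [hWp, hl.per])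
    (by
      intro s
      have h2 := hl.mem s
      simp only [add_zero]
      exact lt_min (hpos s) (lt_min h2.1 (by linarith [h2.2])))
  have hd : ∀ s t, |t| ≤ η → k ≤ deriv (W s) (g s + t) := fun s t ht => (h1 s t ht).trans (min_le_left _ _)
  have hmem : ∀ s t, |t| ≤ η → g s + t ∈ Ioo 0 Real.pi := by
    intro s t ht
    have h2 := (h1 s t ht).trans (min_le_right _ _)
    have h3 := h2.trans (min_le_left _ _)
    have h4 := h2.trans (min_le_right _ _)
    exact ⟨by linarith, by linarith⟩
  -- growth of W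
  have hgr : ∀ s u v, |u| ≤ η → |v| ≤ η → u ≤ v → k * (v - u) ≤ W s (g s + v) - W s (g s + u) := by
    intro s u v hu hv huv
    have h2 := (convex_Icc (g s - η) (g s + η)).mul_sub_le_image_sub_of_le_deriv (f := W s) (C := k)
      (hWd s).continuous.continuousOn (hWd s).differentiableOn
      (fun x hx => by
        have hx2 := interior_subset hx
        have h3 := hd s (x - g s) (by rw [abs_le]; constructor <;> linarith [hx2.1, hx2.2])
        rwa [show g s + (x - g s) = x by ring] at h3)
      (g s + u) ⟨by linarith [(abs_le.1 hu).1], by linarith [(abs_le.1 hu).2]⟩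
      (g s + v) ⟨by linarith [(abs_le.1 hv).1], by linarith [(abs_le.1 hv).2]⟩ (by linarith)
    have h3 : g s + v - (g s + u) = v - u := by ring
    rw [h3] at h2
    exact h2
  have habs : ∀ s u v, |u| ≤ η → |v| ≤ η → k * |v - u| ≤ |W s (g s + v) - W s (g s + u)| := by
    intro s u v hu hv
    rcases le_total u v with huv | huv
    · rw [abs_of_nonneg (by linarith : (0 : ℝ) ≤ v - u)]
      exact (hgr s u v hu hv huv).trans (le_abs_self _)
    · rw [abs_sub_comm v u, abs_of_nonneg (by linarith : (0 : ℝ) ≤ u - v), abs_sub_comm (W s _)]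
      exact (hgr s v u hv hu huv).trans (le_abs_self _)
  -- the next bounce
  obtain ⟨S, hSc, hSb⟩ := exists_next T hκ
  have hcl : ∀ t : ℝ, |max (-η) (min η t)| ≤ η := by
    intro t
    rw [abs_le]
    exact ⟨le_max_left _ _, max_le (by linarith) (min_le_left _ _)⟩
  have hclc : Continuous (fun t : ℝ => max (-η) (min η t)) :=
    continuous_const.max (continuous_const.min continuous_id)
  have hcle : ∀ t : ℝ, |t| ≤ η → max (-η) (min η t) = t := by
    intro t ht
    have h2 := abs_le.1 ht
    rw [min_eq_right h2.2, max_eq_right h2.1]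
  have hS2 : Continuous (fun z : ℝ × ℝ => S z.1 (g z.1 + max (-η) (min η z.2))) := by
    have h2 : Continuous (fun z : ℝ × ℝ => (z.1, g z.1 + max (-η) (min η z.2))) :=
      continuous_fst.prodMk ((hl.cont.comp continuous_fst).add (hclc.comp continuous_snd))
    have h3 := hSc.comp (s := univ) h2.continuousOn
      (fun z _ => ⟨mem_univ _, hmem z.1 _ (hcl z.2)⟩)
    exact continuousOn_univ.1 h3
  have hτc : Continuous T.τ := T.smooth.continuous
  have hSp : ∀ s θ, θ ∈ Ioo 0 Real.pi → S (s + T.L) θ = S s θ + T.L := by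
    intro s θ hθ
    exact Per_next T hκ (hSb (s + T.L) θ hθ) (bounce_add (hSb s θ hθ))
  obtain ⟨η1, hη1, k1, hk1, h2⟩ := Cnt_pos_unif T.Lpos
    (Φ := fun s t => η - |(T.τ (S s (g s + max (-η) (min η t))) - T.τ s - (g s + max (-η) (min η t)))
      - g (S s (g s + max (-η) (min η t)))|)
    (by
      have hgt : Continuous (fun z : ℝ × ℝ => g z.1 + max (-η) (min η z.2)) :=
        (hl.cont.comp continuous_fst).add (hclc.comp continuous_snd)
      exact continuous_const.sub ((((hτc.comp hS2).sub (hτc.comp continuous_fst)).sub hgt).sub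
        (hl.cont.comp hS2)).abs)
    (by
      intro s t
      simp only [hl.per]
      rw [hSp s _ (hmem s _ (hcl t)), T.turning, T.turning, hl.per]
      congr 2
      ring)
    (by
      intro s
      have e : max (-η) (min η (0 : ℝ)) = 0 := hcle 0 (by simpa using hη.le)
      simp only [e, add_zero]
      have h3 := (hl.inv _ _ _ _ (hSb s (g s) (hl.mem s))).1 rfl
      rw [h3, sub_self, abs_zero, sub_zero]
      exact hη)
  obtain ⟨η', hη'd⟩ : ∃ η' : ℝ, η' = min η η1 := ⟨_, rfl⟩
  have hη'0 : 0 < η' := by rw [hη'd]; exact lt_min hη hη1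
  have hη'1 : η' ≤ η := by rw [hη'd]; exact min_le_left _ _
  have hη'2 : η' ≤ η1 := by rw [hη'd]; exact min_le_right _ _
  refine ⟨k * η', by positivity, k, hk, ?_⟩
  intro c hc
  -- step 2
  have hex : ∀ s, ∃ t : ℝ, |t| < η' ∧ W s (g s + t) = c := by
    intro s
    have h3 := hgr s 0 η' (by simpa using hη.le) (by rw [abs_of_pos hη'0]; exact hη'1) hη'0.le
    have h4 := hgr s (-η') 0 (by rw [abs_neg, abs_of_pos hη'0]; exact hη'1) (by simpa using hη.le)
      (by linarith)
    rw [add_zero, hlev] at h3 h4
    have h5 := abs_lt.1 hc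
    have hcont : ContinuousOn (fun t => W s (g s + t)) (Icc (-η') η') :=
      ((hWd s).continuous.comp (continuous_const.add continuous_id)).continuousOn
    obtain ⟨t, ht, htc⟩ := intermediate_value_Ioo (by linarith : -η' ≤ η') hcont
      (show c ∈ Ioo (W s (g s + -η')) (W s (g s + η')) by
        constructor
        · nlinarith
        · nlinarith)
    exact ⟨t, abs_lt.2 ⟨ht.1, ht.2⟩, htc⟩
  choose t ht1 ht2 using hex
  have htη : ∀ s, |t s| ≤ η := fun s => (ht1 s).le.trans hη'1
  have huni : ∀ s u, |u| ≤ η → W s (g s + u) = c → u = t s := by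
    intro s u hu hwu
    have h3 := habs s (t s) u (htη s) hu
    rw [hwu, ht2, sub_self, abs_zero] at h3
    have h4 : |u - t s| ≤ 0 := by
      by_contra hcon
      push Not at hcon
      nlinarith
    have h5 := abs_nonpos_iff.1 h4
    linarith
  have htp : ∀ s, t (s + T.L) = t s := by
    intro s
    apply huni s _ (htη _)
    have h3 := ht2 (s + T.L)
    rw [hWp, hl.per] at h3
    exact h3
  have htc : Continuous t := by
    rw [continuous_iff_continuousAt]
    intro s0
    have hlim : Tendsto (fun s => |c - W s (g s + t s0)| / k) (𝓝 s0) (𝓝 0) := by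
      have h3 : Continuous (fun s => |c - W s (g s + t s0)| / k) := by
        have h4 : Continuous (fun s => W s (g s + t s0)) :=
          hWc.comp (continuous_id.prodMk (hl.cont.add continuous_const))
        exact (continuous_const.sub h4).abs.div_const k
      have h5 := h3.tendsto s0
      rw [ht2, sub_self, abs_zero, zero_div] at h5
      exact h5
    rw [ContinuousAt, tendsto_iff_dist_tendsto_zero]
    refine squeeze_zero (fun _ => dist_nonneg) (fun s => ?_) hlim
    rw [Real.dist_eq, le_div_iff₀ hk]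
    have h3 := habs s (t s0) (t s) (htη s0) (htη s)
    rw [ht2] at h3
    linarith
  have hgc : Continuous (fun s => g s + t s) := hl.cont.add htc
  have hleaf : T.Leaf (fun s => g s + t s) := by
    apply leaf_of_fwd hκ hgc
    · intro s
      show g (s + T.L) + t (s + T.L) = g s + t s
      rw [hl.per, htp]
    · intro s
      exact hmem s _ (htη s)
    · intro s s' θ' hb
      have hb1 := hSb s (g s + t s) (hmem s _ (htη s))
      have hs' : s' = S s (g s + t s) := Per_next T hκ hb hb1
      have hθ' : θ' = T.τ s' - T.τ s - (g s + t s) := by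
        have := hb.2.2.2.2.1
        linarith
      have h3 := h2 s (t s) ((ht1 s).le.trans hη'2)
      simp only [hcle (t s) (htη s)] at h3
      rw [← hs', ← hθ'] at h3
      have h4 : |θ' - g s'| ≤ η := by linarith
      have h5 : W s' (g s' + (θ' - g s')) = c := by
        rw [show g s' + (θ' - g s') = θ' by ring, ← hW.inv _ _ _ _ hb]
        exact ht2 s
      have h6 := huni s' (θ' - g s') h4 h5
      show θ' = g s' + t s'
      linarith
  refine ⟨fun s => g s + t s, hleaf, ht2, ?_, ?_⟩
  · intro s
    have h3 := habs s 0 (t s) (by simpa using hη.le) (htη s)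
    rw [ht2, add_zero, hlev, sub_zero] at h3
    show k * |g s + t s - g s| ≤ |c - c₀|
    rw [show g s + t s - g s = t s by ring]
    exact h3
  · intro s θ hθ
    have h3 : |θ - g s| ≤ η := by
      have h4 := abs_sub_left_of_mem_uIcc hθ
      have h5 : g s + t s - g s = t s := by ring
      rw [h5] at h4
      exact h4.trans (htη s)
    have h4 := hd s (θ - g s) h3
    rw [show g s + (θ - g s) = θ by ring] at h4
    linarith

end Pool.Agent.H50.BQ
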