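/-
ROW Eq3.  If the level circle g winds at most as fast as 1/3 and has one 3-periodic orbit, then all its orbits are 3-periodic.
PROOF.  L = T.L.
(0) no_two: two leaves g, g' with g s ≠ g' s for all s cannot both have an orbit with f^3 x = x + L, f'^3 y = y + L: Per_strict (H46/BL/Per.lean) with p = 1, q = 3 applied to the orbit n ↦ f^[n] x of g
    gives 3 A + H < 3 A' + H', and with the orbit of g' the converse inequality.  (Per_exists gives the string constants.)
(1) cnt gives δ, k.  c_n = c0 + δ/(n+2), leaves g_n with maps f_n (lf_exists), |g_n s - g s| <= (c_n - c0)/k.  g s < g_n s: W s is strictly increasing on uIcc (g s) (g_n s) (positive derivative) and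
    W s (g s) = c0 < c_n = W s (g_n s).  So f s < f_n s (Lf.lt_iff) for all s.
(2) f_n (f_n (f_n s)) > s + L for all s: at s0 it is > f (f (f s0)) = s0 + L (monotonicity).  If it were <= x + L for some x, the intermediate value theorem (continuity of f_n) would give y with
    f_n (f_n (f_n y)) = y + L, contradiction to no_two.
(3) Limit: S of exists_next; f_n s = S s (g_n s), f s = S s (g s) (Per_next / Lf.next).  If t_n → t then g_n t_n → g t (|g_n t_n - g t_n| → 0, g continuous), so f_n t_n → f t (S continuous at (t, g t)).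
    Apply three times: f_n (f_n (f_n s)) → f (f (f s)), so f (f (f s)) >= s + L.  With hle: equality.
-/
import Mathlib
import Pool.Agent.H50.BQ.Cnt

set_option autoImplicit false

namespace Pool.Agent.H50.BQ

open Set Filter Topology Pool.Agent.H46.BL
open scoped ContDiff

variable {T : Table}

theorem no_two (hκ : ∀ s, 0 < deriv T.τ s) {g f g' f' : ℝ → ℝ} (h : Lf T g f) (h' : Lf T g' f')
    (hne : ∀ s, g s ≠ g' s) {x y : ℝ} (hx : f (f (f x)) = x + T.L) (hy : f' (f' (f' y)) = y + T.L) :
    False := by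
  obtain ⟨A, hA⟩ := Per_exists T hκ h.leaf
  obtain ⟨A', hA'⟩ := Per_exists T hκ h'.leaf
  have orb : ∀ {a b : ℝ → ℝ}, Lf T a b → ∀ z : ℝ, ∀ i : ℕ,
      T.Bounce (b^[i] z) (a (b^[i] z)) (b^[i + 1] z) (a (b^[i + 1] z)) := by
    intro a b hab z i
    rw [Function.iterate_succ_apply']
    exact hab.bou _
  have e1 := Per_strict T hκ h.leaf h'.leaf hne hA hA' (x := fun i => f^[i] x) (orb h x)
    (p := 1) (q := 3) (by norm_num) (by
      show f (f (f x)) = x + ((1 : ℕ) : ℝ) * T.L
      rw [hx, Nat.cast_one, one_mul])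
  have e2 := Per_strict T hκ h'.leaf h.leaf (fun s => (hne s).symm) hA' hA
    (x := fun i => f'^[i] y) (orb h' y) (p := 1) (q := 3) (by norm_num) (by
      show f' (f' (f' y)) = y + ((1 : ℕ) : ℝ) * T.L
      rw [hy, Nat.cast_one, one_mul])
  linarith

theorem eq3 (hκ : ∀ s, 0 < deriv T.τ s) {W : ℝ → ℝ → ℝ} (hW : Wint T W) {g f : ℝ → ℝ} (h : Lf T g f)
    {c₀ : ℝ} (hlev : ∀ s, W s (g s) = c₀) (hpos : ∀ s, 0 < deriv (W s) (g s))
    (hle : ∀ s, f (f (f s)) ≤ s + T.L) {s₀ : ℝ} (heq : f (f (f s₀)) = s₀ + T.L) (s : ℝ) :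
    f (f (f s)) = s + T.L := by
  obtain ⟨δ, hδ, k, hk, hc⟩ := cnt hκ hW h.leaf hlev hpos
  have hcn : ∀ n : ℕ, |c₀ + δ / ((n : ℝ) + 2) - c₀| = δ / ((n : ℝ) + 2) := by
    intro n
    rw [add_sub_cancel_left, abs_of_pos (by positivity)]
  have hcl : ∀ n : ℕ, |c₀ + δ / ((n : ℝ) + 2) - c₀| < δ := by
    intro n
    rw [hcn, div_lt_iff₀ (by positivity)]
    have : (0 : ℝ) ≤ n := Nat.cast_nonneg n
    nlinarith
  choose G hG1 hG2 hG3 hG4 using fun n : ℕ => hc (c₀ + δ / ((n : ℝ) + 2)) (hcl n)
  choose F hF using fun n : ℕ => lf_exists hκ (hG1 n)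
  have hWc : ∀ s, Continuous (W s) := by
    intro s
    have h1 : Continuous (fun θ : ℝ => ((s, θ) : ℝ × ℝ)) := by fun_prop
    exact hW.smooth.continuous.comp h1
  -- the circles are above `g`
  have hgt : ∀ n s, g s < G n s := by
    intro n s
    have hδn : 0 < δ / ((n : ℝ) + 2) := by positivity
    rcases lt_trichotomy (g s) (G n s) with h1 | h1 | h1
    · exact h1
    · have h2 := hG2 n s
      rw [← h1, hlev] at h2
      linarith
    · exfalso
      have h2 : StrictMonoOn (W s) (Icc (G n s) (g s)) := by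
        refine strictMonoOn_of_deriv_pos (convex_Icc _ _) (hWc s).continuousOn fun θ hθ => ?_
        refine hG4 n s θ ?_
        rw [uIcc_of_ge h1.le]
        exact interior_subset hθ
      have h3 := h2 ⟨le_rfl, h1.le⟩ ⟨h1.le, le_rfl⟩ h1
      rw [hG2 n s, hlev] at h3
      linarith
  have hne : ∀ n s, g s ≠ G n s := fun n s => (hgt n s).ne
  have hff : ∀ n s, f s < F n s := fun n s => (h.lt_iff hκ (hF n) s).1 (hgt n s)
  -- they turn faster than `1 / 3`
  have h0 : ∀ n, s₀ + T.L < F n (F n (F n s₀)) := by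
    intro n
    rw [← heq]
    have h1 := hff n s₀
    have h2 : f (f s₀) < F n (F n s₀) := (hff n (f s₀)).trans ((hF n).mono h1)
    exact (hff n (f (f s₀))).trans ((hF n).mono h2)
  have hall : ∀ n s, s + T.L ≤ F n (F n (F n s)) := by
    intro n s
    by_contra hlt
    push Not at hlt
    have hcont : Continuous (fun y => F n (F n (F n y)) - y) :=
      ((hF n).cont.comp ((hF n).cont.comp (hF n).cont)).sub continuous_id
    obtain ⟨y, hy⟩ := mem_range_of_exists_le_of_exists_ge hcont (c := T.L)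
      ⟨s, by show F n (F n (F n s)) - s ≤ T.L; linarith⟩
      ⟨s₀, by show T.L ≤ F n (F n (F n s₀)) - s₀; linarith [h0 n]⟩
    have hy' : F n (F n (F n y)) - y = T.L := hy
    exact no_two hκ h (hF n) (hne n) heq (by linarith : F n (F n (F n y)) = y + T.L)
  -- the limit
  obtain ⟨S, hSc, hS⟩ := exists_next T hκ
  have hSF : ∀ n s, F n s = S s (G n s) := fun n s =>
    ((hF n).next hκ (hS s (G n s) ((hF n).bou s).1)).1.symm
  have hSf : ∀ s, f s = S s (g s) := fun s => (h.next hκ (hS s (g s) (h.bou s).1)).1.symm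
  have hlim0 : Tendsto (fun n : ℕ => δ / ((n : ℝ) + 2) / k) atTop (𝓝 0) := by
    have h1 : Tendsto (fun n : ℕ => (n : ℝ) + 2) atTop atTop :=
      tendsto_natCast_atTop_atTop.atTop_add tendsto_const_nhds
    have h2 := (h1.const_div_atTop δ).div_const k
    rw [zero_div] at h2
    exact h2
  have hstep : ∀ (t : ℕ → ℝ) (t' : ℝ), Tendsto t atTop (𝓝 t') →
      Tendsto (fun n => F n (t n)) atTop (𝓝 (f t')) := by
    intro t t' ht
    have h1 : Tendsto (fun n => G n (t n) - g (t n)) atTop (𝓝 0) := by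
      refine squeeze_zero_norm (fun n => ?_) hlim0
      rw [Real.norm_eq_abs, le_div_iff₀ hk, mul_comm, ← hcn n]
      exact hG3 n (t n)
    have h2 : Tendsto (fun n => g (t n)) atTop (𝓝 (g t')) :=
      (h.leaf.cont.tendsto t').comp ht
    have h3 : Tendsto (fun n => G n (t n)) atTop (𝓝 (g t')) := by
      have h4 := h1.add h2
      simp only [sub_add_cancel, zero_add] at h4
      exact h4
    have h5 : ContinuousAt (fun z : ℝ × ℝ => S z.1 z.2) (t', g t') :=
      hSc.continuousAt ((isOpen_univ.prod isOpen_Ioo).mem_nhds ⟨mem_univ _, (h.bou t').1⟩)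
    have h6 := h5.tendsto.comp (ht.prodMk_nhds h3)
    rw [hSf t']
    refine h6.congr fun n => ?_
    rw [hSF]
    rfl
  have h1 := hstep (fun _ => s) s tendsto_const_nhds
  have h2 := hstep _ _ h1
  have h3 := hstep _ _ h2
  have h4 : s + T.L ≤ f (f (f s)) := ge_of_tendsto' h3 fun n => hall n s
  exact le_antisymm (hle s) h4

end Pool.Agent.H50.BQ
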