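/-
ROW Ndg.  On an invariant circle on which W is constant, W_θ ≠ 0 wherever dW ≠ 0.  And the bound pi - 2m.
PROOF.
(1) ndg: suppose deriv (W s) (g s) = 0.  W is jointly differentiable at (s, g s) (Wint.smooth) with derivative (u, v) ↦ a u + 0 v, a = deriv (fun y => W y (g s)) s.
    0 = W s' (g s') - W s (g s) = a (s' - s) + o(|s' - s| + |g s' - g s|), and |g s' - g s| <= |τ s' - τ s| <= K |s' - s| (leaf_lip, tau_lip).
    So a (s' - s) = o(|s' - s|), a = 0: contradiction to hd.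
    (Simplest in Lean: HasFDerivAt W' L (s, g s); isLittleO; for every e > 0, |a| |s' - s| <= e (1 + K) |s' - s| near s.)
(2) bnd: let s be given, s = f s0 (surjective), s1 = s, s2 = f s1, s3 = f s2.  Lf.tau three times: τ s3 - τ s0 = g s0 + 2 g s1 + 2 g s2 + g s3.
    s3 = f (f (f s0)) <= s0 + L and τ is monotone: τ s3 <= τ s0 + 2 pi (turning).  So 2 g s <= 2 pi - g s0 - 2 g s2 - g s3 <= 2 pi - 4 m.
-/
import Mathlib
import Pool.Agent.H50.BQ.Lfb

set_option autoImplicit false

namespace Pool.Agent.H50.BQ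

open Set Filter Topology Pool.Agent.H46.BL
open scoped ContDiff

variable {T : Table}

theorem ndg (hκ : ∀ s, 0 < deriv T.τ s) {W : ℝ → ℝ → ℝ} (hW : Wint T W) {g : ℝ → ℝ} (hl : T.Leaf g)
    (hlev : ∀ s s', W s (g s) = W s' (g s')) {s : ℝ}
    (hd : deriv (fun y => W y (g s)) s ≠ 0 ∨ deriv (W s) (g s) ≠ 0) : deriv (W s) (g s) ≠ 0 := by
  intro hb
  have ha : deriv (fun y => W y (g s)) s ≠ 0 := by
    rcases hd with h | h
    · exact h
    · exact absurd hb h
  obtain ⟨K, hK, hlip⟩ := tau_lip (T := T) hκ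
  have hg : ∀ x, |g x - g s| ≤ K * |x - s| := fun x => (leaf_lip hκ hl x s).trans (hlip x s)
  have hdF : DifferentiableAt ℝ (fun z : ℝ × ℝ => W z.1 z.2) (s, g s) :=
    (hW.smooth.differentiable (by simp)).differentiableAt
  obtain ⟨M, hM⟩ : ∃ M, HasFDerivAt (fun z : ℝ × ℝ => W z.1 z.2) M (s, g s) := ⟨_, hdF.hasFDerivAt⟩
  -- the two partial derivatives
  have h1 : M (1, 0) = deriv (fun y => W y (g s)) s := by
    have hc : HasDerivAt (fun y : ℝ => ((y, g s) : ℝ × ℝ)) (1, 0) s :=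
      (hasDerivAt_id s).prodMk (hasDerivAt_const s (g s))
    have := hM.comp_hasDerivAt s hc
    exact this.deriv.symm
  have h2 : M (0, 1) = 0 := by
    have hc : HasDerivAt (fun y : ℝ => ((s, y) : ℝ × ℝ)) (0, 1) (g s) :=
      (hasDerivAt_const (g s) s).prodMk (hasDerivAt_id (g s))
    have h4 := hM.comp_hasDerivAt (g s) hc
    have h5 : deriv (W s) (g s) = M (0, 1) := h4.deriv
    rw [← h5, hb]
  have h3 : ∀ u v : ℝ, M (u, v) = u * deriv (fun y => W y (g s)) s := by
    intro u v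
    have e : ((u, v) : ℝ × ℝ) = u • (1, 0) + v • (0, 1) := by simp
    rw [e, map_add, map_smul, map_smul, h1, h2]
    simp
  -- the curve
  have hcont : Tendsto (fun x : ℝ => ((x, g x) : ℝ × ℝ)) (𝓝 s) (𝓝 (s, g s)) := by
    apply Tendsto.prodMk_nhds tendsto_id
    rw [tendsto_iff_norm_sub_tendsto_zero]
    have h4 : Tendsto (fun x : ℝ => K * |x - s|) (𝓝 s) (𝓝 0) := by
      have h5 : Continuous (fun x : ℝ => K * |x - s|) := by fun_prop
      have h6 := h5.tendsto s
      simpa using h6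
    exact squeeze_zero (fun x => norm_nonneg _) (fun x => hg x) h4
  have hO : (fun x : ℝ => ((x, g x) : ℝ × ℝ) - (s, g s)) =O[𝓝 s] (fun x : ℝ => x - s) := by
    apply Asymptotics.IsBigO.of_bound (max 1 K)
    filter_upwards with x
    rw [Prod.norm_def]
    apply max_le
    · show ‖x - s‖ ≤ max 1 K * ‖x - s‖
      calc ‖x - s‖ = 1 * ‖x - s‖ := (one_mul _).symm
        _ ≤ _ := mul_le_mul_of_nonneg_right (le_max_left _ _) (norm_nonneg _)
    · show ‖g x - g s‖ ≤ max 1 K * ‖x - s‖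
      exact (hg x).trans (mul_le_mul_of_nonneg_right (le_max_right _ _) (abs_nonneg _))
  have ho := (hM.isLittleO.comp_tendsto hcont).trans_isBigO hO
  have hder : HasDerivAt (fun x => W x (g x)) (deriv (fun y => W y (g s)) s) s := by
    rw [hasDerivAt_iff_isLittleO]
    refine ho.congr_left ?_
    intro x
    show W x (g x) - W s (g s) - M ((x, g x) - (s, g s)) = _
    rw [Prod.mk_sub_mk, h3, smul_eq_mul]
  have hconst : HasDerivAt (fun x => W x (g x)) 0 s := by
    have e : (fun x => W x (g x)) = fun _ => W s (g s) := by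
      funext x
      exact hlev x s
    rw [e]
    exact hasDerivAt_const s _
  exact ha (hder.unique hconst)

theorem bnd (hκ : ∀ s, 0 < deriv T.τ s) {g f : ℝ → ℝ} (h : Lf T g f) {m : ℝ} (hm : ∀ s, m ≤ g s)
    (h3 : ∀ s, f (f (f s)) ≤ s + T.L) (s : ℝ) : g s ≤ Real.pi - 2 * m := by
  obtain ⟨a, ha⟩ := h.surj s
  have e1 := h.tau a
  have e2 := h.tau s
  have e3 := h.tau (f s)
  rw [ha] at e1
  have e4 := h3 a
  rw [ha] at e4
  have e5 := (Ang_mono T hκ).monotone e4
  rw [T.turning] at e5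
  have m1 := hm a
  have m2 := hm (f s)
  have m3 := hm (f (f s))
  linarith

end Pool.Agent.H50.BQ
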