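/-
ROW SupA.  Three lemmas for the continuity argument.
PROOF.  L = T.L.
(1) gd_mono: Gd c g f, Gd c' g' f'.  W s is strictly increasing on [0, g s] and on [0, g' s] (positive derivative inside, continuous).  If c < c' then g s < g' s for all s (if g' s <= g s then both are in
    [0, g s], so c' <= c: contradiction); if c = c' then g s = g' s (otherwise strict monotonicity on the larger interval gives c < c' or c' < c).
(2) map_tendsto: S of exists_next; F n s = S s (G n s), f s = S s (g s) (Lf.next).  All leaves are Lipschitz: |G n (t n) - G n t0| <= |τ (t n) - τ t0| -> 0 (leaf_lip), G n t0 -> g t0, so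
    G n (t n) -> g t0, and S is continuous at (t0, g t0) (g t0 in (0, pi), S is continuous on the open set ℝ × (0, pi)).
(3) gd_open: cnt at g (deriv (W s) (g s) > 0 by Gd.pos): δ0, k.  For c < c' < c + δ0 the leaf g' of level c' with its map f' (lf_exists): W s is increasing on uIcc (g s) (g' s) and W s (g s) = c < c', so
    g s < g' s; deriv (W s) > 0 on (0, g s] (Gd.pos) and on [g s, g' s] (cnt).  Remains: f' (f' (f' s)) < s + L for all s if c' is close to c.  By contradiction: otherwise there are c_n -> c (c_n > c), leaves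
    G n, F n as above and s_n with F n (F n (F n (s_n))) >= s_n + L; shift s_n into [0, L] (Lf.addz), take a convergent subsequence s_n -> s*; |G n s - g s| <= (c_n - c)/k -> 0; map_tendsto three times:
    f (f (f s*)) >= s* + L, contradiction to Gd.rot.  (c' = c: g itself.)
-/
import Mathlib
import Pool.Agent.H50.BQ.Ndg
import Pool.Agent.H50.BQ.Eq3

set_option autoImplicit false

namespace Pool.Agent.H50.BQ

open Set Filter Topology Pool.Agent.H46.BL
open scoped ContDiff

variable {T : Table}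

theorem SupA_mono {W : ℝ → ℝ → ℝ} (hW : Wint T W) {c : ℝ} {g f : ℝ → ℝ} (h : Gd T W c g f) (s : ℝ) :
    StrictMonoOn (W s) (Icc 0 (g s)) := by
  have hWc : Continuous (W s) := by
    have h1 : Continuous (fun θ : ℝ => ((s, θ) : ℝ × ℝ)) := by fun_prop
    exact hW.smooth.continuous.comp h1
  refine strictMonoOn_of_deriv_pos (convex_Icc _ _) hWc.continuousOn fun θ hθ => ?_
  rw [interior_Icc] at hθ
  exact h.pos s θ hθ.1 hθ.2.le

theorem gd_mono {W : ℝ → ℝ → ℝ} (hW : Wint T W) {c c' : ℝ} {g f g' f' : ℝ → ℝ}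
    (h : Gd T W c g f) (h' : Gd T W c' g' f') : (c < c' → ∀ s, g s < g' s) ∧ (c = c' → g = g') := by
  have m1 : ∀ s, 0 < g s := fun s => (h.lf.leaf.mem s).1
  have m2 : ∀ s, 0 < g' s := fun s => (h'.lf.leaf.mem s).1
  refine ⟨fun hc s => ?_, fun hc => ?_⟩
  · by_contra hlt
    push Not at hlt
    have h1 := (SupA_mono hW h s).monotoneOn ⟨(m2 s).le, hlt⟩ ⟨(m1 s).le, le_rfl⟩ hlt
    rw [h.lev, h'.lev] at h1
    linarith
  · funext s
    rcases lt_trichotomy (g s) (g' s) with h1 | h1 | h1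
    · have h2 := SupA_mono hW h' s ⟨(m1 s).le, h1.le⟩ ⟨(m2 s).le, le_rfl⟩ h1
      rw [h.lev, h'.lev] at h2
      linarith
    · exact h1
    · have h2 := SupA_mono hW h s ⟨(m2 s).le, h1.le⟩ ⟨(m1 s).le, le_rfl⟩ h1
      rw [h.lev, h'.lev] at h2
      linarith

/-- passing to the limit in the map of a leaf -/
theorem map_tendsto (hκ : ∀ s, 0 < deriv T.τ s) {g f : ℝ → ℝ} (h : Lf T g f) {G F : ℕ → ℝ → ℝ}
    (hG : ∀ n, Lf T (G n) (F n)) (hlim : ∀ s, Tendsto (fun n => G n s) atTop (𝓝 (g s))) {t : ℕ → ℝ}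
    {t₀ : ℝ} (ht : Tendsto t atTop (𝓝 t₀)) : Tendsto (fun n => F n (t n)) atTop (𝓝 (f t₀)) := by
  obtain ⟨S, hSc, hS⟩ := exists_next T hκ
  have hSF : ∀ n s, F n s = S s (G n s) := fun n s =>
    ((hG n).next hκ (hS s (G n s) ((hG n).bou s).1)).1.symm
  have hSf : ∀ s, f s = S s (g s) := fun s => (h.next hκ (hS s (g s) (h.bou s).1)).1.symm
  have hτc : Continuous T.τ := T.smooth.continuous
  have h0 : Tendsto (fun n => |T.τ (t n) - T.τ t₀|) atTop (𝓝 0) := by
    have h1 : Tendsto (fun n => T.τ (t n)) atTop (𝓝 (T.τ t₀)) := (hτc.tendsto t₀).comp ht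
    have h2 := (h1.sub_const (T.τ t₀)).abs
    simpa using h2
  have h1 : Tendsto (fun n => G n (t n) - G n t₀) atTop (𝓝 0) := by
    refine squeeze_zero_norm (fun n => ?_) h0
    rw [Real.norm_eq_abs]
    exact leaf_lip hκ (hG n).leaf (t n) t₀
  have h3 : Tendsto (fun n => G n (t n)) atTop (𝓝 (g t₀)) := by
    have h4 := h1.add (hlim t₀)
    simp only [sub_add_cancel, zero_add] at h4
    exact h4
  have h5 : ContinuousAt (fun z : ℝ × ℝ => S z.1 z.2) (t₀, g t₀) :=
    hSc.continuousAt ((isOpen_univ.prod isOpen_Ioo).mem_nhds ⟨mem_univ _, (h.bou t₀).1⟩)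
  have h6 := h5.tendsto.comp (ht.prodMk_nhds h3)
  rw [hSf t₀]
  refine h6.congr fun n => ?_
  rw [hSF]
  rfl

/-- openness: step (8) -/
theorem gd_open (hκ : ∀ s, 0 < deriv T.τ s) {W : ℝ → ℝ → ℝ} (hW : Wint T W) {c : ℝ} {g f : ℝ → ℝ}
    (h : Gd T W c g f) : ∃ δ > 0, ∀ c', c ≤ c' → c' < c + δ → ∃ g' f', Gd T W c' g' f' := by
  obtain ⟨δ, hδ, k, hk, hc⟩ := cnt hκ hW h.lf.leaf h.lev
    (fun s => h.pos s (g s) (h.lf.leaf.mem s).1 le_rfl)
  by_contra hcon
  push Not at hcon
  have hcn : ∀ n : ℕ, ∃ c', c ≤ c' ∧ c' < c + δ / ((n : ℝ) + 2) ∧ ∀ g' f', ¬ Gd T W c' g' f' :=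
    fun n => hcon (δ / ((n : ℝ) + 2)) (by positivity)
  choose C hC1 hC2 hC3 using hcn
  have hClt : ∀ n, c < C n := by
    intro n
    rcases (hC1 n).lt_or_eq with h1 | h1
    · exact h1
    · exact absurd h (h1 ▸ hC3 n g f)
  have hsmall : ∀ n : ℕ, δ / ((n : ℝ) + 2) < δ := by
    intro n
    rw [div_lt_iff₀ (by positivity)]
    have : (0 : ℝ) ≤ n := Nat.cast_nonneg n
    nlinarith
  have hCabs : ∀ n, |C n - c| = C n - c := fun n => abs_of_pos (by linarith [hClt n])
  have hCl : ∀ n, |C n - c| < δ := by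
    intro n
    rw [hCabs]
    linarith [hC2 n, hsmall n]
  choose G hG1 hG2 hG3 hG4 using fun n : ℕ => hc (C n) (hCl n)
  choose F hF using fun n : ℕ => lf_exists hκ (hG1 n)
  have hpos : ∀ n s θ, 0 < θ → θ ≤ G n s → 0 < deriv (W s) θ := by
    intro n s θ h0 h1
    rcases le_or_gt θ (g s) with h2 | h2
    · exact h.pos s θ h0 h2
    · refine hG4 n s θ ?_
      rw [uIcc_of_le (by linarith)]
      exact ⟨h2.le, h1⟩
  have hbad : ∀ n, ∃ s, s + T.L ≤ F n (F n (F n s)) := by
    intro n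
    by_contra hno
    push Not at hno
    exact hC3 n (G n) (F n) ⟨hF n, hG2 n, hno, hpos n⟩
  choose z hz using hbad
  have hL := T.Lpos
  -- shift into one period
  have hsh : ∀ n, ∃ s ∈ Icc (0 : ℝ) T.L, s + T.L ≤ F n (F n (F n s)) := by
    intro n
    refine ⟨z n + ((-⌊z n / T.L⌋ : ℤ) : ℝ) * T.L, ?_, ?_⟩
    · have h1 := Int.floor_le (z n / T.L)
      have h2 := Int.lt_floor_add_one (z n / T.L)
      rw [le_div_iff₀ hL] at h1
      rw [div_lt_iff₀ hL] at h2
      push_cast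
      constructor
      · linarith
      · linarith
    · rw [(hF n).addz hκ, (hF n).addz hκ, (hF n).addz hκ]
      linarith [hz n]
  choose y hy1 hy2 using hsh
  obtain ⟨y₀, -, φ, hφ, hlim⟩ := isCompact_Icc.tendsto_subseq hy1
  have hlim0 : Tendsto (fun n : ℕ => δ / ((n : ℝ) + 2) / k) atTop (𝓝 0) := by
    have h1 : Tendsto (fun n : ℕ => (n : ℝ) + 2) atTop atTop :=
      tendsto_natCast_atTop_atTop.atTop_add tendsto_const_nhds
    have h2 := (h1.const_div_atTop δ).div_const k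
    rw [zero_div] at h2
    exact h2
  have hGl : ∀ s, Tendsto (fun n => G n s) atTop (𝓝 (g s)) := by
    intro s
    rw [tendsto_iff_norm_sub_tendsto_zero]
    refine squeeze_zero (fun n => norm_nonneg _) (fun n => ?_) hlim0
    rw [Real.norm_eq_abs, le_div_iff₀ hk, mul_comm]
    have h1 := hG3 n s
    rw [hCabs] at h1
    linarith [hC2 n]
  have hGl' : ∀ s, Tendsto (fun n => G (φ n) s) atTop (𝓝 (g s)) :=
    fun s => (hGl s).comp hφ.tendsto_atTop
  have hstep : ∀ (t : ℕ → ℝ) (t' : ℝ), Tendsto t atTop (𝓝 t') →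
      Tendsto (fun n => F (φ n) (t n)) atTop (𝓝 (f t')) := fun t t' ht =>
    map_tendsto hκ h.lf (G := fun n => G (φ n)) (F := fun n => F (φ n)) (fun n => hF (φ n)) hGl' ht
  have hlim' : Tendsto (fun n => y (φ n)) atTop (𝓝 y₀) := hlim
  have h1 := hstep _ _ hlim'
  have h2 := hstep _ _ h1
  have h3 := hstep _ _ h2
  have h4 : y₀ + T.L ≤ f (f (f y₀)) :=
    le_of_tendsto_of_tendsto' (hlim'.add_const T.L) h3 fun n => hy2 (φ n)
  linarith [h.rot y₀]

end Pool.Agent.H50.BQ
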