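/-
ROW SupB.  The continuity argument: the level circles continue up to the circle of rotation number 1/3.
PROOF.  L = T.L.
(1) gd_mono: Gd c g f, Gd c' g' f'.  W s is strictly increasing on [0, g s] and on [0, g' s] (positive derivative inside).  If c < c' then g s < g' s for all s (if g' s <= g s then both are in [0, g s], so c' <= c);
    if c = c' then g = g'.
(2) I := {c | c0 < c ∧ ∀ c' ∈ Ioc c0 c, ∃ g f, Gd T W c' g f}.  c0 + η/2 ∈ I.  I is bounded above: c ∈ I gives c = W 0 (g 0) with g 0 in [0, pi], and W 0 is bounded on [0, pi].  cs := sSup I > c0.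
    For every c in (c0, cs) there is a good g (c < some element of I).  FF := {g | ∃ c ∈ Ioo c0 cs, ∃ f, Gd T W c g f}: a chain by (1).
(3) Lower bound: pick one c1 in (c0, cs) with g1; m := min g1 > 0 (continuous periodic).  FF1 := {g ∈ FF with level >= c1}: g >= g1 >= m, so g <= pi - 2m (bnd).  gs s := sSup {g s | g ∈ FF1}: a leaf by leaf_sup
    (b = pi - 2m); fs its map (lf_exists).  g s < gs s for every g ∈ FF (levels are not maximal: take a larger level, gd_mono).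
(4) W s (gs s) = cs: gs s = sup over levels c → cs; W s is continuous and W s (g_c s) = c; g_c s increases to gs s as c ↑ cs (monotone), so W s (gs s) = lim c = cs.
(5) deriv (W s) θ > 0 for 0 < θ < gs s: θ < g_c s for some c.
(6) fs (fs (fs s)) <= s + L: for g_c in FF1, f_c f_c f_c s < s + L, and f_c t_c → fs t if t_c → t (S of exists_next is continuous; g_c t_c → gs t because all leaves are Lipschitz with |g s - g s'| <= |τ s - τ s'|):
    take a sequence c_n ↑ cs and pass to the limit three times (as in Eq3 (3)).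
(7) hnd (with gs, fs): deriv (W s) (gs s) ≠ 0, and >= 0 by (5) and continuity: > 0.
(8) If fs (fs (fs s)) < s + L for all s: Gd T W cs gs fs.  cnt at gs: δ, k; for cs <= c < cs + δ' leaves g' with maps f' and levels c, deriv (W s) > 0 on (0, g' s] [(0, gs s] by (5), (7) and uIcc (gs s) (g' s) by cnt; g' s >= gs s or <],
    and f' f' f' s < s + L for c close to cs: the minimum over [0, L] of s + L - fs^3 s is positive and f'^3 → fs^3 uniformly; simplest by contradiction: otherwise sequences c_n ↓ cs, s_n ∈ [0, L] with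
    f_n^3 s_n >= s_n + L, s_n → s* (subsequence), limit: fs^3 s* >= s* + L, contradiction.  So (c0, cs + δ') ⊆ I-levels, cs + δ'/2 ∈ I: contradiction to the sup.
    So there is s1 with fs (fs (fs s1)) = s1 + L, and eq3 gives fs^3 = id + L.
(9) filled: 0 < θ < gs s: θ < g_c s for some c in (c0, cs), c ∈ I-range; c' := W s θ; c0 = W s 0 < c' < W s (g_c s) = c (strict monotonicity on [0, g_c s]); let g' be the good circle of level c': W s (g' s) = c' = W s θ;
    g' s < g_c s by (1), and W s is injective on [0, g_c s], so g' s = θ.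
(gd_mono, map_tendsto and gd_open of SupA are steps (1), part of (6), and the openness in (8).)
-/
import Mathlib
import Pool.Agent.H50.BQ.SupA

set_option autoImplicit false

namespace Pool.Agent.H50.BQ

open Set Filter Topology Pool.Agent.H46.BL
open scoped ContDiff

variable {T : Table}

private theorem supb_lb {φ : ℝ → ℝ} (hc : Continuous φ) {L : ℝ} (hL : 0 < L) (hp : ∀ s, φ (s + L) = φ s)
    (h0 : ∀ s, 0 < φ s) : ∃ m : ℝ, 0 < m ∧ ∀ s, m ≤ φ s := by
  obtain ⟨x0, hx0, hmin⟩ := isCompact_Icc.exists_isMinOn (nonempty_Icc.2 hL.le)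
    (hc.continuousOn (s := Icc 0 L))
  refine ⟨φ x0, h0 x0, fun s => ?_⟩
  have hper : Function.Periodic φ L := hp
  obtain ⟨y, hy, e⟩ := hper.exists_mem_Ico₀ hL s
  rw [e]
  exact hmin ⟨hy.1, hy.2.le⟩

private theorem supb_smooth {W : ℝ → ℝ → ℝ} (hW : Wint T W) (s : ℝ) : ContDiff ℝ ∞ (W s) :=
  hW.smooth.comp (contDiff_const.prodMk contDiff_id)

private theorem supb_cont {W : ℝ → ℝ → ℝ} (hW : Wint T W) (s : ℝ) : Continuous (W s) :=
  (supb_smooth hW s).continuous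

private theorem supb_dcont {W : ℝ → ℝ → ℝ} (hW : Wint T W) (s : ℝ) : Continuous (deriv (W s)) :=
  (supb_smooth hW s).continuous_deriv (by norm_cast)

private theorem supb_strict {W : ℝ → ℝ → ℝ} (hW : Wint T W) {c : ℝ} {g f : ℝ → ℝ} (h : Gd T W c g f) (s : ℝ) :
    StrictMonoOn (W s) (Icc 0 (g s)) := by
  refine strictMonoOn_of_deriv_pos (convex_Icc _ _) (supb_cont hW s).continuousOn fun x hx => ?_
  rw [interior_Icc] at hx
  exact h.pos s x hx.1 hx.2.le

theorem sup_arg (hκ : ∀ s, 0 < deriv T.τ s) {W : ℝ → ℝ → ℝ} (hW : Wint T W) {c₀ : ℝ}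
    (h0 : ∀ s, W s 0 = c₀) {η : ℝ} (hη : 0 < η)
    (hcol : ∀ c, c₀ < c → c < c₀ + η → ∃ g f, Gd T W c g f)
    (hnd : ∀ g f, Lf T g f → (∀ s s', W s (g s) = W s' (g s')) → (∀ s, f (f (f s)) ≤ s + T.L) →
      ∀ s, deriv (W s) (g s) ≠ 0) :
    ∃ g f, Lf T g f ∧ (∀ s, f (f (f s)) = s + T.L) ∧
      ∀ s θ, 0 < θ → θ < g s → ∃ g', T.Leaf g' ∧ g' s = θ := by
  have hL := T.Lpos
  set I : Set ℝ := {c | c₀ < c ∧ ∀ c', c₀ < c' → c' ≤ c → ∃ g f, Gd T W c' g f} with hI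
  have hin : ∀ c, c₀ < c → c < c₀ + η → c ∈ I := fun c h1 h2 =>
    ⟨h1, fun c' h3 h4 => hcol c' h3 (lt_of_le_of_lt h4 h2)⟩
  -- bounded above
  obtain ⟨B, hB⟩ := (isCompact_Icc (a := (0 : ℝ)) (b := Real.pi)).bddAbove_image (supb_cont hW 0).continuousOn
  have hbdd : BddAbove I := by
    refine ⟨B, fun c hc => ?_⟩
    obtain ⟨g, f, hg⟩ := hc.2 c hc.1 le_rfl
    rw [← hg.lev 0]
    have hm := hg.lf.leaf.mem 0
    exact hB ⟨g 0, ⟨hm.1.le, hm.2.le⟩, rfl⟩
  set cs : ℝ := sSup I with hcs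
  have hcs1 : c₀ + 3 * η / 4 ≤ cs := le_csSup hbdd (hin _ (by linarith) (by linarith))
  set c₁ : ℝ := c₀ + η / 2 with hc₁
  have h01 : c₀ < c₁ := by rw [hc₁]; linarith
  have h1s : c₁ < cs := by rw [hc₁]; linarith
  have hgood : ∀ c, c₀ < c ∧ c < cs → ∃ g f, Gd T W c g f := by
    rintro c ⟨hc0, hc1⟩
    obtain ⟨c2, hc2, hlt⟩ := exists_lt_of_lt_csSup ⟨_, hin (c₀ + η / 2) h01 (by linarith)⟩ hc1
    exact hc2.2 c hc0 hlt.le
  choose! G F hG using hgood
  have hmono : ∀ c c', c₀ < c → c < c' → c' < cs → ∀ s, G c s < G c' s := fun c c' h1 h2 h3 =>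
    (gd_mono hW (hG c ⟨h1, h2.trans h3⟩) (hG c' ⟨h1.trans h2, h3⟩)).1 h2
  have hmono' : ∀ c c', c₀ < c → c ≤ c' → c' < cs → ∀ s, G c s ≤ G c' s := by
    intro c c' h1 h2 h3 s
    rcases h2.eq_or_lt with rfl | h2
    · exact le_rfl
    · exact (hmono c c' h1 h2 h3 s).le
  have hG1 := hG c₁ ⟨h01, h1s⟩
  obtain ⟨m, hm0, hm⟩ := supb_lb hG1.lf.leaf.cont hL hG1.lf.leaf.per (fun s => (hG1.lf.leaf.mem s).1)
  have hub : ∀ c, c₁ ≤ c → c < cs → ∀ s, G c s ≤ Real.pi - 2 * m := by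
    intro c h1 h2 s
    have h3 := hG c ⟨h01.trans_le h1, h2⟩
    exact bnd hκ h3.lf (fun t => (hm t).trans (hmono' c₁ c h01 h1 h2 t)) (fun t => (h3.rot t).le) s
  set FF : Set (ℝ → ℝ) := {g | ∃ c, c₁ ≤ c ∧ c < cs ∧ g = G c} with hFF
  have hFFne : FF.Nonempty := ⟨G c₁, c₁, le_rfl, h1s, rfl⟩
  set gs : ℝ → ℝ := fun s => sSup ((fun g : ℝ → ℝ => g s) '' FF) with hgs
  have hleaf : T.Leaf gs := by
    refine leaf_sup hκ hFFne ?_ ?_ (b := fun _ => Real.pi - 2 * m) (fun _ => by linarith) ?_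
    · rintro g ⟨c, h1, h2, rfl⟩
      exact (hG c ⟨h01.trans_le h1, h2⟩).lf.leaf
    · rintro g ⟨c, h1, h2, rfl⟩ g' ⟨c', h1', h2', rfl⟩
      rcases le_total c c' with h | h
      · exact Or.inl fun s => hmono' c c' (h01.trans_le h1) h h2' s
      · exact Or.inr fun s => hmono' c' c (h01.trans_le h1') h h2 s
    · rintro g ⟨c, h1, h2, rfl⟩ s
      exact hub c h1 h2 s
  obtain ⟨fs, hLf⟩ := lf_exists hκ hleaf
  have hbd : ∀ s, BddAbove ((fun g : ℝ → ℝ => g s) '' FF) := by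
    intro s
    refine ⟨Real.pi - 2 * m, ?_⟩
    rintro _ ⟨g, ⟨c, h1, h2, rfl⟩, rfl⟩
    exact hub c h1 h2 s
  have hle_gs : ∀ c, c₁ ≤ c → c < cs → ∀ s, G c s ≤ gs s := fun c h1 h2 s =>
    le_csSup (hbd s) ⟨G c, ⟨c, h1, h2, rfl⟩, rfl⟩
  have hlt_gs : ∀ s θ, θ < gs s → ∃ c, c₁ ≤ c ∧ c < cs ∧ θ < G c s := by
    intro s θ hθ
    obtain ⟨_, ⟨g, ⟨c, h1, h2, rfl⟩, rfl⟩, h3⟩ := exists_lt_of_lt_csSup (hFFne.image _) hθ
    exact ⟨c, h1, h2, h3⟩
  -- the sequence
  set cn : ℕ → ℝ := fun n => cs - (cs - c₁) / ((n : ℝ) + 1) with hcn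
  have hcn1 : ∀ n, c₁ ≤ cn n := by
    intro n
    have : (cs - c₁) / ((n : ℝ) + 1) ≤ cs - c₁ :=
      div_le_self (by linarith) (by have := Nat.cast_nonneg (α := ℝ) n; linarith)
    simp only [hcn]
    linarith
  have hcn2 : ∀ n, cn n < cs := by
    intro n
    have : 0 < (cs - c₁) / ((n : ℝ) + 1) := div_pos (by linarith) (by positivity)
    simp only [hcn]
    linarith
  have hcn3 : Tendsto cn atTop (𝓝 cs) := by
    have h1 : Tendsto (fun n : ℕ => (cs - c₁) * (1 / ((n : ℝ) + 1))) atTop (𝓝 ((cs - c₁) * 0)) :=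
      tendsto_one_div_add_atTop_nhds_zero_nat.const_mul _
    have h2 : Tendsto (fun n : ℕ => cs - (cs - c₁) * (1 / ((n : ℝ) + 1))) atTop (𝓝 (cs - (cs - c₁) * 0)) :=
      h1.const_sub _
    rw [mul_zero, sub_zero] at h2
    refine h2.congr fun n => ?_
    simp only [hcn]
    ring
  have hlim : ∀ s, Tendsto (fun n => G (cn n) s) atTop (𝓝 (gs s)) := by
    intro s
    rw [tendsto_order]
    constructor
    · intro a ha
      obtain ⟨c, h1, h2, h3⟩ := hlt_gs s a ha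
      filter_upwards [(tendsto_order.1 hcn3).1 c h2] with n hn
      exact h3.trans_le (hmono' c (cn n) (h01.trans_le h1) hn.le (hcn2 n) s)
    · intro a ha
      exact Eventually.of_forall fun n => (hle_gs (cn n) (hcn1 n) (hcn2 n) s).trans_lt ha
  have hGn : ∀ n, Gd T W (cn n) (G (cn n)) (F (cn n)) := fun n => hG _ ⟨h01.trans_le (hcn1 n), hcn2 n⟩
  have hlev : ∀ s, W s (gs s) = cs := by
    intro s
    have h1 : Tendsto (fun n => W s (G (cn n) s)) atTop (𝓝 (W s (gs s))) :=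
      ((supb_cont hW s).tendsto _).comp (hlim s)
    have h2 : Tendsto (fun n => W s (G (cn n) s)) atTop (𝓝 cs) :=
      hcn3.congr fun n => ((hGn n).lev s).symm
    exact tendsto_nhds_unique h1 h2
  have hpos1 : ∀ s θ, 0 < θ → θ < gs s → 0 < deriv (W s) θ := by
    intro s θ hθ hθ'
    obtain ⟨c, h1, h2, h3⟩ := hlt_gs s θ hθ'
    exact (hG c ⟨h01.trans_le h1, h2⟩).pos s θ hθ h3.le
  have hrot : ∀ s, fs (fs (fs s)) ≤ s + T.L := by
    intro s
    have e1 := map_tendsto hκ hLf (fun n => (hGn n).lf) hlim (t := fun _ => s) tendsto_const_nhds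
    have e2 := map_tendsto hκ hLf (fun n => (hGn n).lf) hlim e1
    have e3 := map_tendsto hκ hLf (fun n => (hGn n).lf) hlim e2
    exact le_of_tendsto e3 (Eventually.of_forall fun n => ((hGn n).rot s).le)
  have hpos2 : ∀ s, 0 < deriv (W s) (gs s) := by
    intro s
    have h1 : deriv (W s) (gs s) ≠ 0 :=
      hnd gs fs hLf (fun s s' => by rw [hlev s, hlev s']) hrot s
    have h2 : Tendsto (fun n => deriv (W s) (G (cn n) s)) atTop (𝓝 (deriv (W s) (gs s))) :=
      ((supb_dcont hW s).tendsto _).comp (hlim s)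
    have h3 : 0 ≤ deriv (W s) (gs s) :=
      ge_of_tendsto h2 (Eventually.of_forall fun n =>
        ((hGn n).pos s _ ((hGn n).lf.leaf.mem s).1 le_rfl).le)
    exact lt_of_le_of_ne h3 h1.symm
  have hex : ∃ s₁, fs (fs (fs s₁)) = s₁ + T.L := by
    by_contra hcon
    push Not at hcon
    have hgd : Gd T W cs gs fs := by
      refine ⟨hLf, hlev, fun s => lt_of_le_of_ne (hrot s) (hcon s), fun s θ h1 h2 => ?_⟩
      rcases h2.eq_or_lt with rfl | h2
      · exact hpos2 s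
      · exact hpos1 s θ h1 h2
    obtain ⟨δ, hδ, hop⟩ := gd_open hκ hW hgd
    have hmem : cs + δ / 2 ∈ I := by
      refine ⟨by linarith, fun c' h1 h2 => ?_⟩
      rcases lt_or_ge c' cs with h3 | h3
      · exact ⟨G c', F c', hG c' ⟨h1, h3⟩⟩
      · exact hop c' h3 (by linarith)
    have := le_csSup hbdd hmem
    linarith
  obtain ⟨s₁, hs₁⟩ := hex
  refine ⟨gs, fs, hLf, fun s => eq3 hκ hW hLf hlev hpos2 hrot hs₁ s, fun s θ hθ hθ' => ?_⟩
  obtain ⟨c, h1, h2, h3⟩ := hlt_gs s θ hθ'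
  have hGc := hG c ⟨h01.trans_le h1, h2⟩
  have hst := supb_strict hW hGc s
  have hgc0 : 0 ≤ G c s := (hGc.lf.leaf.mem s).1.le
  have a1 : c₀ < W s θ := by
    rw [← h0 s]
    exact hst ⟨le_rfl, hgc0⟩ ⟨hθ.le, h3.le⟩ hθ
  have a2 : W s θ < c := by
    rw [← hGc.lev s]
    exact hst ⟨hθ.le, h3.le⟩ ⟨hgc0, le_rfl⟩ h3
  have hG' := hG (W s θ) ⟨a1, a2.trans h2⟩
  refine ⟨G (W s θ), hG'.lf.leaf, ?_⟩
  have a3 : G (W s θ) s < G c s := hmono _ _ a1 a2 h2 s
  exact hst.injOn ⟨(hG'.lf.leaf.mem s).1.le, a3.le⟩ ⟨hθ.le, h3.le⟩ (hG'.lev s)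

end Pool.Agent.H50.BQ
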