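/-
Int9: a first integral with independence at all states that wind at most as fast as 1/3 has a circle of 3-periodic points,
and the region below it is filled by invariant circles.
-/
import Mathlib
import Pool.Agent.H46.BL.Fin
import Pool.Agent.H50.BQ.Ind
import Pool.Agent.H50.BQ.Col
import Pool.Agent.H50.BQ.SupB

set_option autoImplicit false

namespace Pool.Agent.H50.BQ

open Set Filter Topology Pool.Agent.H46.BL
open scoped ContDiff

variable {T : Table}

theorem it3_le (hκ : ∀ s, 0 < deriv T.τ s) {g f : ℝ → ℝ} (h : Lf T g f)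
    (h3 : ∀ s, f (f (f s)) ≤ s + T.L) (n : ℕ) (s : ℝ) : f^[3 * n] s ≤ s + n * T.L := by
  induction n generalizing s with
  | zero => simp
  | succ n ih =>
    have e : 3 * (n + 1) = 3 * n + 3 := by ring
    rw [e, Function.iterate_add_apply]
    have e3 : f^[3] s = f (f (f s)) := rfl
    have h1 : f^[3 * n] (f^[3] s) ≤ f^[3 * n] (s + T.L) := (h.it_mono (3 * n)).monotone (by rw [e3]; exact h3 s)
    have h2 := h.it_addz hκ (3 * n) s 1
    have h3' := ih s
    push_cast at h2 ⊢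
    rw [one_mul] at h2
    rw [h2] at h1
    linarith

theorem int9 (hκ : ∀ s, 0 < deriv T.τ s) {F : ℂ → ℂ → ℝ} (hF : T.Integral F) {r : ℝ} (hr : 0 < r)
    {G : ℝ → ℝ → ℝ} {ε : ℝ} (hfol : T.Foliated G ε)
    (hlev : ∀ c ∈ Ioo (0 : ℝ) 1, ∀ s s', T.fn F r s (G c s) = T.fn F r s' (G c s'))
    (hind : ∀ x θ : ℕ → ℝ, (∀ i, T.Bounce (x i) (θ i) (x (i + 1)) (θ (i + 1))) →
      (∀ n : ℕ, x (3 * n) ≤ x 0 + n * T.L) →
      LinearIndependent ℝ ![fderivWithin ℝ (fun z : ℂ × ℂ => F z.1 z.2) T.phase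
        (T.γ (x 0), (r : ℂ) * ex (T.τ (x 0) + θ 0)),
        fderiv ℝ energy (T.γ (x 0), (r : ℂ) * ex (T.τ (x 0) + θ 0))]) :
    ∃ g f, Lf T g f ∧ (∀ s, f (f (f s)) = s + T.L) ∧
      ∀ s θ, 0 < θ → θ < g s → ∃ g', T.Leaf g' ∧ g' s = θ := by
  have hsm := T.fn_smooth hF hr
  have hinv : ∀ s θ s' θ', T.Bounce s θ s' θ' → T.fn F r s θ = T.fn F r s' θ' := by
    intro s θ s' θ' hb
    obtain ⟨-, -, -, -, hτ, ℓ, -, hγ⟩ := hb
    exact T.fn_chord hF hr hτ hγ
  have hW : Wint T (T.fn F r) := ⟨hsm, fun s θ => T.fn_periodic F r s θ, hinv⟩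
  have hnd : ∀ g f, Lf T g f → (∀ s s', T.fn F r s (g s) = T.fn F r s' (g s')) →
      (∀ s, f (f (f s)) ≤ s + T.L) → ∀ s, deriv (T.fn F r s) (g s) ≠ 0 := by
    intro g f hl hl1 hl3 s
    have h1 := hind (fun i => f^[i] s) (fun i => g (f^[i] s)) (by
      intro i
      simp only [Function.iterate_succ_apply']
      exact hl.bou _) (by
      intro n
      exact it3_le hκ hl hl3 n s)
    exact ndg hκ hW hl.leaf hl1 (ind_deriv T hF hr (hl.leaf.mem s) h1)
  obtain ⟨σ, hσ, c₀, η, hη, h0, hcol⟩ := collar hκ hW (fun s s' => T.fn_zero_const hF hr s s') hfol hlev hnd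
  have hσ0 : σ ≠ 0 := by rcases hσ with h | h <;> rw [h] <;> norm_num
  have hW' : Wint T (fun s θ => σ * T.fn F r s θ) := by
    refine ⟨contDiff_const.mul hsm, fun s θ => ?_, fun s θ s' θ' hb => ?_⟩
    · show σ * T.fn F r (s + T.L) θ = σ * T.fn F r s θ
      rw [T.fn_periodic]
    · show σ * T.fn F r s θ = σ * T.fn F r s' θ'
      rw [hinv s θ s' θ' hb]
  have hdiff : ∀ s θ, DifferentiableAt ℝ (T.fn F r s) θ := by
    intro s θ
    have : ContDiff ℝ ∞ (T.fn F r s) := hsm.comp (contDiff_const.prodMk contDiff_id)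
    exact this.differentiable (by simp) θ
  refine sup_arg hκ hW' h0 hη hcol ?_
  intro g f hl hl1 hl3 s
  have h1 : ∀ s s', T.fn F r s (g s) = T.fn F r s' (g s') := fun s s' => mul_left_cancel₀ hσ0 (hl1 s s')
  have h2 := hnd g f hl h1 hl3 s
  show deriv (fun θ => σ * T.fn F r s θ) (g s) ≠ 0
  rw [deriv_const_mul σ (hdiff s (g s))]
  exact mul_ne_zero hσ0 h2

end Pool.Agent.H50.BQ
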