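/-
ROW MaA.  Tables whose curvature may vanish: the next bounce.  (No hypothesis on the curvature: T.curv gives τ nondecreasing.)
Use Nxt_h, Nxt_der, Nxt_mul, Nxt_im of H46/BL/Nxt.lean (they do not need positive curvature).
PROOF of sign_gen.  α = τ s + θ, D x = Nxt_h T α x, D' x = sin (τ x - α), D (s + L) = D s.  τ is continuous and monotone, τ s - α = -θ, τ (s+L) - α = 2 pi - θ.
 x1 := the largest x in [s, s+L] with τ x <= α (closed set, sSup / IsCompact.exists_isMaxOn); τ x1 = α, τ x > α for x > x1.  x2 := the smallest x in [s, s+L] with τ x >= α + pi; τ x2 = α + pi.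
 s < x1 < x2 < s + L.  On [s, x1]: -pi < -θ <= τ x - α <= 0, so D' <= 0 and D is antitone; near s D' < 0 (τ continuous), so D x < D s for every x in (s, x1]
 (pick y in (s, x) so close to s that D' < 0 on [s, y]; D x <= D y < D s).  On (x1, x2): 0 < τ x - α < pi, D' > 0, D strictly increasing on [x1, x2].
 On [x2, s+L]: pi <= τ x - α <= 2 pi - θ, D' <= 0, D antitone; near s + L D' < 0, so D x > D (s+L) = D s for x in [x2, s+L).
 Intermediate value theorem on [x1, x2] gives S in (x1, x2) with D S = D s, and the sign pattern follows.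
PROOF of bounce_gen: copy Nxt_bounce; the two places with StrictMonoOn: case τ S - τ s <= pi: E = Nxt_h T (τ s) has E' = sin (τ x - τ s) >= 0 on [s, S] (0 <= τ x - τ s <= pi), so E is monotone, and E' > 0 somewhere:
 pick x0 in (s, S) with τ x0 = τ s + θ/2 (intermediate value theorem; τ S > τ s + θ), E' > 0 near x0, so E s < E S (monotone and not constant: e.g. if E S <= E s then E is constant on [s, S], derivative 0 at x0).
 The other case the same with Nxt_h T (τ S) on [S, s + L] (τ (s+L) - τ S < pi; pick x0 with τ x0 in the middle of τ S and τ (s+L) = τ s + 2 pi; τ S < τ s + θ + pi < τ s + 2 pi).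
-/
import Mathlib
import Pool.Agent.H46.BL.Nxt

set_option autoImplicit false

namespace Pool.Agent.H50.BQ

open Set Filter Topology Pool.Agent.H46.BL
open scoped ContDiff

theorem tau_mono (T : Table) : Monotone T.τ :=
  monotone_of_deriv_nonneg (T.smooth.differentiable (by simp)) T.curv

theorem MaA_diff (T : Table) (β : ℝ) : Differentiable ℝ (Nxt_h T β) := fun x =>
  (Nxt_der T β x).differentiableAt

theorem MaA_mono (T : Table) {β a b : ℝ} (h : ∀ x ∈ Ioo a b, 0 ≤ Real.sin (T.τ x - β)) :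
    MonotoneOn (Nxt_h T β) (Icc a b) := by
  apply monotoneOn_of_deriv_nonneg (convex_Icc a b)
  · exact (MaA_diff T β).continuous.continuousOn
  · exact (MaA_diff T β).differentiableOn
  · intro x hx
    rw [interior_Icc] at hx
    rw [(Nxt_der T β x).deriv]
    exact h x hx

theorem MaA_anti (T : Table) {β a b : ℝ} (h : ∀ x ∈ Ioo a b, Real.sin (T.τ x - β) ≤ 0) :
    AntitoneOn (Nxt_h T β) (Icc a b) := by
  apply antitoneOn_of_deriv_nonpos (convex_Icc a b)
  · exact (MaA_diff T β).continuous.continuousOn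
  · exact (MaA_diff T β).differentiableOn
  · intro x hx
    rw [interior_Icc] at hx
    rw [(Nxt_der T β x).deriv]
    exact h x hx

theorem MaA_const (T : Table) {β a b x0 c : ℝ} (hx0 : x0 ∈ Ioo a b)
    (h : ∀ x ∈ Ioo a b, Nxt_h T β x = c) : Real.sin (T.τ x0 - β) = 0 := by
  have h1 : Nxt_h T β =ᶠ[𝓝 x0] fun _ => c := by
    filter_upwards [Ioo_mem_nhds hx0.1 hx0.2] with x hx
    exact h x hx
  have h2 : HasDerivAt (Nxt_h T β) 0 x0 := (hasDerivAt_const x0 c).congr_of_eventuallyEq h1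
  exact (Nxt_der T β x0).unique h2

theorem MaA_lt (T : Table) {β a b x0 : ℝ} (h : ∀ x ∈ Ioo a b, 0 ≤ Real.sin (T.τ x - β))
    (hx0 : x0 ∈ Ioo a b) (h0 : 0 < Real.sin (T.τ x0 - β)) : Nxt_h T β a < Nxt_h T β b := by
  have hm := MaA_mono T h
  have hab : a < b := hx0.1.trans hx0.2
  by_contra hcon
  rw [not_lt] at hcon
  have := MaA_const T (β := β) (c := Nxt_h T β a) hx0 (fun x hx => by
    have e1 := hm ⟨le_rfl, hab.le⟩ ⟨hx.1.le, hx.2.le⟩ hx.1.le
    have e2 := hm ⟨hx.1.le, hx.2.le⟩ ⟨hab.le, le_rfl⟩ hx.2.le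
    linarith)
  linarith

theorem MaA_gt (T : Table) {β a b x0 : ℝ} (h : ∀ x ∈ Ioo a b, Real.sin (T.τ x - β) ≤ 0)
    (hx0 : x0 ∈ Ioo a b) (h0 : Real.sin (T.τ x0 - β) < 0) : Nxt_h T β b < Nxt_h T β a := by
  have hm := MaA_anti T h
  have hab : a < b := hx0.1.trans hx0.2
  by_contra hcon
  rw [not_lt] at hcon
  have := MaA_const T (β := β) (c := Nxt_h T β a) hx0 (fun x hx => by
    have e1 := hm ⟨le_rfl, hab.le⟩ ⟨hx.1.le, hx.2.le⟩ hx.1.le
    have e2 := hm ⟨hx.1.le, hx.2.le⟩ ⟨hab.le, le_rfl⟩ hx.2.le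
    linarith)
  linarith

theorem sign_gen (T : Table) (s : ℝ) {θ : ℝ} (hθ : θ ∈ Ioo 0 Real.pi) :
    ∃ S, s < S ∧ S < s + T.L ∧ T.τ s + θ < T.τ S ∧ T.τ S < T.τ s + θ + Real.pi ∧
      Nxt_h T (T.τ s + θ) S = Nxt_h T (T.τ s + θ) s ∧
      (∀ x, s < x → x < S → Nxt_h T (T.τ s + θ) x < Nxt_h T (T.τ s + θ) s) ∧
      (∀ x, S < x → x < s + T.L → Nxt_h T (T.τ s + θ) s < Nxt_h T (T.τ s + θ) x) := by
  have hτm : Monotone T.τ := tau_mono T
  have hτc : Continuous T.τ := T.smooth.continuous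
  have hL := T.Lpos
  have hpi := Real.pi_pos
  have hturn := T.turning s
  obtain ⟨α, hα⟩ : ∃ α, α = T.τ s + θ := ⟨_, rfl⟩
  rw [← hα]
  obtain ⟨y₁, hy₁, hyτ₁⟩ : α ∈ T.τ '' Ioo s (s + T.L) := by
    apply intermediate_value_Ioo (by linarith) hτc.continuousOn
    rw [hturn, hα]
    exact ⟨by linarith [hθ.1], by linarith [hθ.2, Real.pi_pos]⟩
  obtain ⟨y₂, hy₂, hyτ₂⟩ : α + Real.pi ∈ T.τ '' Ioo s (s + T.L) := by
    apply intermediate_value_Ioo (by linarith) hτc.continuousOn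
    rw [hturn, hα]
    exact ⟨by linarith [hθ.1, Real.pi_pos], by linarith [hθ.2]⟩
  have cA : IsCompact (Icc s (s + T.L) ∩ T.τ ⁻¹' (Iic α)) :=
    isCompact_Icc.inter_right (isClosed_Iic.preimage hτc)
  have cB : IsCompact (Icc s (s + T.L) ∩ T.τ ⁻¹' (Ici (α + Real.pi))) :=
    isCompact_Icc.inter_right (isClosed_Ici.preimage hτc)
  obtain ⟨x₁, hA, hA'⟩ := cA.exists_isGreatest ⟨y₁, ⟨hy₁.1.le, hy₁.2.le⟩, hyτ₁.le⟩
  obtain ⟨x₂, hB, hB'⟩ := cB.exists_isLeast ⟨y₂, ⟨hy₂.1.le, hy₂.2.le⟩, hyτ₂.ge⟩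
  have hτ₁ : T.τ x₁ ≤ α := hA.2
  have hτ₂ : α + Real.pi ≤ T.τ x₂ := hB.2
  have hs1 : s < x₁ := hy₁.1.trans_le (hA' ⟨⟨hy₁.1.le, hy₁.2.le⟩, hyτ₁.le⟩)
  have hs2 : x₂ < s + T.L := (hB' ⟨⟨hy₂.1.le, hy₂.2.le⟩, hyτ₂.ge⟩).trans_lt hy₂.2
  have h12 : x₁ < x₂ := by
    by_contra h
    rw [not_lt] at h
    have := hτm h
    linarith
  have hgt1 : ∀ x, x₁ < x → x ≤ s + T.L → α < T.τ x := fun x h1 h2 => by
    by_contra h
    rw [not_lt] at h
    have : x ≤ x₁ := hA' ⟨⟨(hs1.trans h1).le, h2⟩, h⟩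
    linarith
  have hlt2 : ∀ x, s ≤ x → x < x₂ → T.τ x < α + Real.pi := fun x h1 h2 => by
    by_contra h
    rw [not_lt] at h
    have : x₂ ≤ x := hB' ⟨⟨h1, (h2.trans hs2).le⟩, h⟩
    linarith
  have hM : StrictMonoOn (Nxt_h T α) (Icc x₁ x₂) := by
    apply Nxt_mono
    intro x hx
    have h1 := hgt1 x hx.1 (hx.2.trans hs2).le
    have h2 := hlt2 x (hs1.trans hx.1).le hx.2
    apply Real.sin_pos_of_pos_of_lt_pi
    · linarith
    · linarith
  have hper : Nxt_h T α (s + T.L) = Nxt_h T α s := by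
    unfold Nxt_h
    rw [T.periodic]
  have hneg : ∀ x, s < x → x ≤ x₁ → Nxt_h T α x < Nxt_h T α s := fun x h1 h2 => by
    obtain ⟨x0, h3, h4⟩ : ∃ y, T.τ y < α ∧ y ∈ Ioo s x := by
      have e1 : ∀ᶠ y in 𝓝[>] s, T.τ y < α :=
        ((hτc.tendsto s).mono_left nhdsWithin_le_nhds).eventually_lt_const (by
          rw [hα]
          linarith [hθ.1])
      have e2 : ∀ᶠ y in 𝓝[>] s, y ∈ Ioo s x := Ioo_mem_nhdsGT h1
      exact (e1.and e2).exists
    refine MaA_gt T (fun y hy => ?_) h4 ?_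
    · have g1 := hτm hy.1.le
      have g2 := hτm (hy.2.le.trans h2)
      apply Real.sin_nonpos_of_nonpos_of_neg_pi_le
      · linarith
      · linarith [hθ.2]
    · have g1 := hτm h4.1.le
      apply Real.sin_neg_of_neg_of_neg_pi_lt
      · linarith
      · linarith [hθ.2]
  have hpos : ∀ x, x₂ ≤ x → x < s + T.L → Nxt_h T α s < Nxt_h T α x := fun x h1 h2 => by
    rw [← hper]
    obtain ⟨x0, h3, h4⟩ : ∃ y, α + Real.pi < T.τ y ∧ y ∈ Ioo x (s + T.L) := by
      have e1 : ∀ᶠ y in 𝓝[<] (s + T.L), α + Real.pi < T.τ y :=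
        ((hτc.tendsto (s + T.L)).mono_left nhdsWithin_le_nhds).eventually_const_lt (by
          rw [hturn, hα]
          linarith [hθ.2])
      have e2 : ∀ᶠ y in 𝓝[<] (s + T.L), y ∈ Ioo x (s + T.L) := Ioo_mem_nhdsLT h2
      exact (e1.and e2).exists
    refine MaA_gt T (fun y hy => ?_) h4 ?_
    · have g1 := hτm (h1.trans hy.1.le)
      have g2 := hτm hy.2.le
      rw [← Real.sin_sub_two_pi]
      apply Real.sin_nonpos_of_nonpos_of_neg_pi_le
      · linarith [hθ.1]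
      · linarith
    · have g2 := hτm h4.2.le
      rw [← Real.sin_sub_two_pi]
      apply Real.sin_neg_of_neg_of_neg_pi_lt
      · linarith [hθ.1]
      · linarith
  obtain ⟨S, hS, hSv⟩ : Nxt_h T α s ∈ Nxt_h T α '' Ioo x₁ x₂ := by
    apply intermediate_value_Ioo h12.le
    · exact fun x _ => (Nxt_der T α x).continuousAt.continuousWithinAt
    · exact ⟨hneg x₁ hs1 le_rfl, hpos x₂ le_rfl hs2⟩
  refine ⟨S, hs1.trans hS.1, hS.2.trans hs2, ?_, ?_, hSv, ?_, ?_⟩
  · exact hgt1 S hS.1 (hS.2.trans hs2).le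
  · exact hlt2 S (hs1.trans hS.1).le hS.2
  · intro x h1 h2
    rcases le_or_gt x x₁ with h | h
    · exact hneg x h1 h
    · rw [← hSv]
      exact hM ⟨h.le, (h2.trans hS.2).le⟩ ⟨hS.1.le, hS.2.le⟩ h2
  · intro x h1 h2
    rcases le_or_gt x₂ x with h | h
    · exact hpos x h h2
    · rw [← hSv]
      exact hM ⟨hS.1.le, hS.2.le⟩ ⟨(hS.1.trans h1).le, h.le⟩ h1

theorem bounce_gen (T : Table) (s : ℝ) {θ S : ℝ} (hθ : θ ∈ Ioo 0 Real.pi)
    (h1 : s < S) (h2 : S < s + T.L) (h3 : T.τ s + θ < T.τ S) (h4 : T.τ S < T.τ s + θ + Real.pi)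
    (h5 : Nxt_h T (T.τ s + θ) S = Nxt_h T (T.τ s + θ) s) :
    T.Bounce s θ S (T.τ S - T.τ s - θ) := by
  have hτm : Monotone T.τ := tau_mono T
  have hτc : Continuous T.τ := T.smooth.continuous
  have hpi := Real.pi_pos
  have hturn := T.turning s
  refine ⟨hθ, ⟨by linarith, by linarith⟩, h1, h2, by ring, ?_⟩
  obtain ⟨α, hα⟩ : ∃ α, α = T.τ s + θ := ⟨_, rfl⟩
  rw [← hα] at h5 ⊢
  obtain ⟨ℓ, hℓ⟩ : ∃ ℓ : ℝ, ℓ = ((T.γ S - T.γ s) * ex (-α)).re := ⟨_, rfl⟩
  have him : ((T.γ S - T.γ s) * ex (-α)).im = 0 := by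
    unfold Nxt_h at h5
    rw [sub_mul, Complex.sub_im, h5, sub_self]
  have hz : (T.γ S - T.γ s) * ex (-α) = (ℓ : ℂ) := by
    apply Complex.ext
    · rw [hℓ, Complex.ofReal_re]
    · rw [him, Complex.ofReal_im]
  have hone : ex (-α) * ex α = 1 := by
    have := Nxt_mul (-α) (-α)
    rw [neg_neg, sub_self] at this
    rw [this]
    unfold ex
    simp
  have hchord : T.γ S - T.γ s = (ℓ : ℂ) * ex α := by
    rw [← hz, mul_assoc, hone, mul_one]
  refine ⟨ℓ, ?_, by rw [← hchord]; ring⟩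
  have hval : ∀ β : ℝ, Nxt_h T β S - Nxt_h T β s = ℓ * Real.sin (α - β) := by
    intro β
    unfold Nxt_h
    rw [← Complex.sub_im, ← sub_mul, hchord, mul_assoc, Nxt_mul, Complex.im_ofReal_mul, Nxt_im]
  rcases le_or_gt (T.τ S - T.τ s) Real.pi with hle | hgt
  · obtain ⟨x0, hx0, hv0⟩ : T.τ s + θ ∈ T.τ '' Ioo s S := by
      apply intermediate_value_Ioo h1.le hτc.continuousOn
      exact ⟨by linarith [hθ.1], h3⟩
    have g3 : Nxt_h T (T.τ s) s < Nxt_h T (T.τ s) S := by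
      refine MaA_lt T (fun x hx => ?_) hx0 ?_
      · have g1 := hτm hx.1.le
        have g2 := hτm hx.2.le
        apply Real.sin_nonneg_of_nonneg_of_le_pi
        · linarith
        · linarith
      · rw [hv0, add_sub_cancel_left]
        exact Real.sin_pos_of_pos_of_lt_pi hθ.1 hθ.2
    have g4 := hval (T.τ s)
    have g5 : 0 < Real.sin (α - T.τ s) := by
      rw [hα, add_sub_cancel_left]
      exact Real.sin_pos_of_pos_of_lt_pi hθ.1 hθ.2
    have g6 : 0 < ℓ * Real.sin (α - T.τ s) := by linarith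
    exact (mul_pos_iff_of_pos_right g5).mp g6
  · obtain ⟨x0, hx0, hv0⟩ : (T.τ S + (T.τ s + 2 * Real.pi)) / 2 ∈ T.τ '' Ioo S (s + T.L) := by
      apply intermediate_value_Ioo h2.le hτc.continuousOn
      rw [hturn]
      exact ⟨by linarith [hθ.2], by linarith [hθ.2]⟩
    have g3 : Nxt_h T (T.τ S) S < Nxt_h T (T.τ S) (s + T.L) := by
      refine MaA_lt T (fun x hx => ?_) hx0 ?_
      · have g1 := hτm hx.1.le
        have g2 := hτm hx.2.le
        apply Real.sin_nonneg_of_nonneg_of_le_pi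
        · linarith
        · linarith
      · rw [hv0]
        apply Real.sin_pos_of_pos_of_lt_pi
        · linarith [hθ.2]
        · linarith
    have hper : Nxt_h T (T.τ S) (s + T.L) = Nxt_h T (T.τ S) s := by
      unfold Nxt_h
      rw [T.periodic]
    rw [hper] at g3
    have g4 := hval (T.τ S)
    have g5 : 0 < Real.sin (T.τ S - α) := by
      apply Real.sin_pos_of_pos_of_lt_pi
      · linarith
      · linarith
    have g7 : Real.sin (α - T.τ S) = - Real.sin (T.τ S - α) := by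
      rw [← Real.sin_neg]
      congr 1
      ring
    rw [g7] at g4
    have g6 : 0 < ℓ * Real.sin (T.τ S - α) := by linarith
    exact (mul_pos_iff_of_pos_right g5).mp g6

end Pool.Agent.H50.BQ
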