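/-
ROW MaB.  Tables whose curvature may vanish: the map of an invariant circle.
PROOF.
(1) pattern: Bounce s θ s' θ' gives γ s' - γ s = ℓ ex (τ s + θ), so Nxt_h T (τ s + θ) s' = Nxt_h T (τ s + θ) s; the S of sign_gen has the sign pattern, and s' in (s, s+L) is a zero, so s' = S.  This is the statement.
(2) next_gen: copy the proof of exists_next (H46/BL/Nxt.lean) with sign_gen and bounce_gen instead of Nxt_sign and Nxt_bounce.
(3) uniq_gen (next bounce is unique): both s', s'' are the zero of the same function in (s, s + L): by pattern s' < s'' gives Nxt_h .. s' < Nxt_h .. s, a contradiction, etc.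
(4) angle_lt_gen: as angle_lt (H46/BL/Ang.lean), with pattern instead of `side`: x = s2 in (s1, s'), Im ((γ s2 - γ s1) ex (-(τ s1 + θ1))) = Nxt_h .. s2 - Nxt_h .. s1 < 0.
(5) leaf_map_gen: copy leaf_map (H46/BL/Lef.lean) with next_gen and angle_lt_gen.
-/
import Mathlib
import Pool.Agent.H46.BL.Lef
import Pool.Agent.H50.BQ.MaA

set_option autoImplicit false

namespace Pool.Agent.H50.BQ

open Set Filter Topology Pool.Agent.H46.BL
open scoped ContDiff

private lemma MaB_height (T : Table) {s θ s' θ' : ℝ} (hB : T.Bounce s θ s' θ') :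
    Nxt_h T (T.τ s + θ) s' = Nxt_h T (T.τ s + θ) s := by
  obtain ⟨ℓ, -, h⟩ := Ang_bounce_im T hB (T.τ s + θ)
  rw [sub_self, Real.sin_zero, mul_zero, sub_mul, Complex.sub_im] at h
  unfold Nxt_h
  linarith

theorem pattern (T : Table) {s θ s' θ' : ℝ} (hB : T.Bounce s θ s' θ') :
    (∀ x, s < x → x < s' → Nxt_h T (T.τ s + θ) x < Nxt_h T (T.τ s + θ) s) ∧
      (∀ x, s' < x → x < s + T.L → Nxt_h T (T.τ s + θ) s < Nxt_h T (T.τ s + θ) x) := by
  have hh := MaB_height T hB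
  obtain ⟨S, h1, h2, -, -, -, h6, h7⟩ := sign_gen T s hB.1
  have hs1 : s < s' := hB.2.2.1
  have hs2 : s' < s + T.L := hB.2.2.2.1
  have hS : s' = S := by
    rcases lt_trichotomy s' S with h | h | h
    · exact absurd hh (h6 s' hs1 h).ne
    · exact h
    · exact absurd hh (h7 s' h hs2).ne'
  rw [hS]
  exact ⟨h6, h7⟩

theorem next_gen (T : Table) : ∃ S : ℝ → ℝ → ℝ,
    ContinuousOn (fun z : ℝ × ℝ => S z.1 z.2) (univ ×ˢ Ioo 0 Real.pi) ∧
    ∀ s, ∀ θ ∈ Ioo 0 Real.pi, T.Bounce s θ (S s θ) (T.τ (S s θ) - T.τ s - θ) := by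
  classical
  have hex : ∀ s θ : ℝ, ∃ S : ℝ, θ ∈ Ioo 0 Real.pi → s < S ∧ S < s + T.L ∧ T.τ s + θ < T.τ S ∧
      T.τ S < T.τ s + θ + Real.pi ∧ Nxt_h T (T.τ s + θ) S = Nxt_h T (T.τ s + θ) s ∧
      (∀ x, s < x → x < S → Nxt_h T (T.τ s + θ) x < Nxt_h T (T.τ s + θ) s) ∧
      (∀ x, S < x → x < s + T.L → Nxt_h T (T.τ s + θ) s < Nxt_h T (T.τ s + θ) x) := by
    intro s θ
    by_cases hθ : θ ∈ Ioo 0 Real.pi
    · obtain ⟨S, hS⟩ := sign_gen T s hθ
      exact ⟨S, fun _ => hS⟩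
    · exact ⟨0, fun h => absurd h hθ⟩
  choose S hS using hex
  refine ⟨S, ?_, ?_⟩
  · have hγc : Continuous T.γ := continuous_iff_continuousAt.2 fun x => (T.tangent x).continuousAt
    have hτc : Continuous T.τ := T.smooth.continuous
    have hD : ∀ x : ℝ, Continuous (fun z : ℝ × ℝ =>
        Nxt_h T (T.τ z.1 + z.2) x - Nxt_h T (T.τ z.1 + z.2) z.1) := by
      intro x
      unfold Nxt_h
      have c1 : Continuous (fun z : ℝ × ℝ => ex (-(T.τ z.1 + z.2))) :=
        Nxt_cont.comp ((hτc.comp continuous_fst).add continuous_snd).neg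
      exact (Complex.continuous_im.comp (continuous_const.mul c1)).sub
        (Complex.continuous_im.comp ((hγc.comp continuous_fst).mul c1))
    rintro ⟨s₀, θ₀⟩ hz
    have hθ₀ : θ₀ ∈ Ioo 0 Real.pi := hz.2
    obtain ⟨a1, a2, a3, a4, a5, a6, a7⟩ := hS s₀ θ₀ hθ₀
    have hθev : ∀ᶠ z : ℝ × ℝ in 𝓝[univ ×ˢ Ioo 0 Real.pi] (s₀, θ₀), z.2 ∈ Ioo 0 Real.pi := by
      filter_upwards [self_mem_nhdsWithin] with z hz
      exact hz.2
    refine tendsto_order.2 ⟨fun a ha => ?_, fun b hb => ?_⟩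
    · have ha' : a < S s₀ θ₀ := ha
      obtain ⟨a', ha1, ha2⟩ : ∃ a', max a s₀ < a' ∧ a' < S s₀ θ₀ :=
        exists_between (max_lt ha' a1)
      have hs : s₀ < a' := (le_max_right _ _).trans_lt ha1
      have haa : a < a' := (le_max_left _ _).trans_lt ha1
      have e1 : ∀ᶠ z : ℝ × ℝ in 𝓝 (s₀, θ₀), z.1 < a' :=
        continuous_fst.continuousAt.eventually_lt continuousAt_const hs
      have e2 : ∀ᶠ z : ℝ × ℝ in 𝓝 (s₀, θ₀), a' - T.L < z.1 :=
        continuousAt_const.eventually_lt continuous_fst.continuousAt (by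
          show a' - T.L < s₀
          linarith)
      have e3 : ∀ᶠ z : ℝ × ℝ in 𝓝 (s₀, θ₀),
          Nxt_h T (T.τ z.1 + z.2) a' - Nxt_h T (T.τ z.1 + z.2) z.1 < 0 :=
        (hD a').continuousAt.eventually_lt continuousAt_const (by
          show Nxt_h T (T.τ s₀ + θ₀) a' - Nxt_h T (T.τ s₀ + θ₀) s₀ < 0
          linarith [a6 a' hs ha2])
      filter_upwards [mem_nhdsWithin_of_mem_nhds e1, mem_nhdsWithin_of_mem_nhds e2,
        mem_nhdsWithin_of_mem_nhds e3, hθev] with z h1 h2 h3 h4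
      have h1' : z.1 < a' := h1
      have h2' : a' - T.L < z.1 := h2
      have h3' : Nxt_h T (T.τ z.1 + z.2) a' - Nxt_h T (T.τ z.1 + z.2) z.1 < 0 := h3
      obtain ⟨b1, b2, b3, b4, b5, b6, b7⟩ := hS z.1 z.2 h4
      show a < S z.1 z.2
      by_contra hcon
      rw [not_lt] at hcon
      have h5 : S z.1 z.2 < a' := lt_of_le_of_lt hcon haa
      have h6 := b7 a' h5 (by linarith)
      linarith
    · have hb' : S s₀ θ₀ < b := hb
      obtain ⟨b', hb1, hb2⟩ : ∃ b', S s₀ θ₀ < b' ∧ b' < min b (s₀ + T.L) :=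
        exists_between (lt_min hb' a2)
      have hs : b' < s₀ + T.L := hb2.trans_le (min_le_right _ _)
      have hbb : b' < b := hb2.trans_le (min_le_left _ _)
      have e1 : ∀ᶠ z : ℝ × ℝ in 𝓝 (s₀, θ₀), z.1 < b' :=
        continuous_fst.continuousAt.eventually_lt continuousAt_const (by
          show s₀ < b'
          linarith)
      have e2 : ∀ᶠ z : ℝ × ℝ in 𝓝 (s₀, θ₀), b' - T.L < z.1 :=
        continuousAt_const.eventually_lt continuous_fst.continuousAt (by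
          show b' - T.L < s₀
          linarith)
      have e3 : ∀ᶠ z : ℝ × ℝ in 𝓝 (s₀, θ₀),
          0 < Nxt_h T (T.τ z.1 + z.2) b' - Nxt_h T (T.τ z.1 + z.2) z.1 :=
        continuousAt_const.eventually_lt (hD b').continuousAt (by
          show 0 < Nxt_h T (T.τ s₀ + θ₀) b' - Nxt_h T (T.τ s₀ + θ₀) s₀
          linarith [a7 b' hb1 hs])
      filter_upwards [mem_nhdsWithin_of_mem_nhds e1, mem_nhdsWithin_of_mem_nhds e2,
        mem_nhdsWithin_of_mem_nhds e3, hθev] with z h1 h2 h3 h4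
      have h1' : z.1 < b' := h1
      have h2' : b' - T.L < z.1 := h2
      have h3' : 0 < Nxt_h T (T.τ z.1 + z.2) b' - Nxt_h T (T.τ z.1 + z.2) z.1 := h3
      obtain ⟨b1, b2, b3, b4, b5, b6, b7⟩ := hS z.1 z.2 h4
      show S z.1 z.2 < b
      by_contra hcon
      rw [not_lt] at hcon
      have h5 : b' < S z.1 z.2 := lt_of_lt_of_le hbb hcon
      have h6 := b6 b' h1' h5
      linarith
  · intro s θ hθ
    obtain ⟨a1, a2, a3, a4, a5, _, _⟩ := hS s θ hθ
    exact bounce_gen T s hθ a1 a2 a3 a4 a5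

theorem angle_lt_gen (T : Table) {s₁ s₂ s' θ₁ θ₁' θ₂ θ₂' : ℝ} (h12 : s₁ < s₂)
    (h1 : T.Bounce s₁ θ₁ s' θ₁') (h2 : T.Bounce s₂ θ₂ s' θ₂') : θ₂' < θ₁' := by
  obtain ⟨ℓ₁, hℓ₁, e1⟩ := Ang_bounce_im T h1 (T.τ s₁ + θ₁)
  obtain ⟨ℓ₂, hℓ₂, e2⟩ := Ang_bounce_im T h2 (T.τ s₁ + θ₁)
  have h3 : ((T.γ s₂ - T.γ s₁) * ex (-(T.τ s₁ + θ₁))).im < 0 := by
    have h := (pattern T h1).1 s₂ h12 h2.2.2.1
    unfold Nxt_h at h
    rw [sub_mul, Complex.sub_im]
    linarith
  obtain ⟨hθ₁, hθ₁', -, -, hτ₁, -⟩ := h1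
  obtain ⟨hθ₂, hθ₂', -, -, hτ₂, -⟩ := h2
  have h4 : ((T.γ s₂ - T.γ s₁) * ex (-(T.τ s₁ + θ₁))).im
      = ((T.γ s' - T.γ s₁) * ex (-(T.τ s₁ + θ₁))).im - ((T.γ s' - T.γ s₂) * ex (-(T.τ s₁ + θ₁))).im := by
    rw [← Complex.sub_im]
    congr 1
    ring
  rw [h4, e1, e2] at h3
  have h5 : Real.sin (T.τ s₁ + θ₁ - (T.τ s₁ + θ₁)) = 0 := by simp
  rw [h5, mul_zero, zero_sub] at h3
  have h6 : 0 < Real.sin (T.τ s₂ + θ₂ - (T.τ s₁ + θ₁)) := by
    by_contra hc
    have := mul_nonpos_of_nonneg_of_nonpos hℓ₂.le (not_lt.1 hc)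
    linarith
  have h7 := Ang_pos_of_sin_pos (by linarith [hθ₁'.1, hθ₂'.2]) h6
  linarith

theorem leaf_map_gen (T : Table) {g : ℝ → ℝ} (hg : T.Leaf g) :
    ∃ f : ℝ → ℝ, Continuous f ∧ StrictMono f ∧ Function.Surjective f ∧
      ∀ s, T.Bounce s (g s) (f s) (g (f s)) := by
  obtain ⟨S, hSc, hS⟩ := next_gen T
  have hB : ∀ s, T.Bounce s (g s) (S s (g s)) (g (S s (g s))) := by
    intro s
    have h1 := hS s (g s) (hg.mem s)
    have h2 := (hg.inv _ _ _ _ h1).1 rfl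
    rw [h2] at h1
    exact h1
  have hc : Continuous fun s => S s (g s) := by
    rw [← continuousOn_univ]
    exact hSc.comp (continuous_id.prodMk hg.cont).continuousOn (fun s _ => ⟨mem_univ _, hg.mem s⟩)
  have hinj : Function.Injective fun s => S s (g s) := by
    have key : ∀ s₁ s₂ : ℝ, s₁ < s₂ → S s₁ (g s₁) = S s₂ (g s₂) → False := by
      intro s₁ s₂ h12 heq
      have h1 := hB s₁
      have h2 := hB s₂
      rw [← heq] at h2
      exact lt_irrefl _ (angle_lt_gen T h12 h1 h2)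
    intro s₁ s₂ heq
    rcases lt_trichotomy s₁ s₂ with h | h | h
    · exact (key _ _ h heq).elim
    · exact h
    · exact (key _ _ h heq.symm).elim
  have hgt : ∀ s, s < S s (g s) := fun s => (hB s).2.2.1
  have hlt : ∀ s, S s (g s) < s + T.L := fun s => (hB s).2.2.2.1
  refine ⟨fun s => S s (g s), hc, ?_, ?_, hB⟩
  · rcases hc.strictMono_of_inj hinj with h | h
    · exact h
    · exfalso
      have h1 := h (show (0:ℝ) < max 1 (S 0 (g 0)) from lt_of_lt_of_le one_pos (le_max_left _ _))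
      have h2 := hgt (max 1 (S 0 (g 0)))
      have h3 := le_max_right 1 (S 0 (g 0))
      simp only at h1
      linarith
  · apply hc.surjective
    · exact tendsto_atTop_mono (fun s => (hgt s).le) tendsto_id
    · exact tendsto_atBot_mono (fun s => (hlt s).le) (tendsto_atBot_add_const_right _ _ tendsto_id)

end Pool.Agent.H50.BQ
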