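/-
ROW MaC.  Mather's theorem: a table with an invariant circle has positive curvature.
PROOF.  f from leaf_map_gen.  Y s := τ s + g s (direction of the chord from s to f s), also τ (f s) - g (f s) = Y s (Bounce).  Nxt_h T β x = Im (γ x ex (-β)).
(1) Y t > Y s for t > s close to s, and Y t < Y s for t < s close to s.  t > s close: s < t < f s and f s < f t < s + L (f continuous, strictly increasing, f s < s + L).  With α = Y s: pattern (for Bounce s (g s) (f s)):
    Nxt_h T α t < Nxt_h T α s < Nxt_h T α (f t), and γ (f t) - γ t = ℓ ex (Y t), so ℓ sin (Y t - α) > 0, and |Y t - Y s| < pi (continuity), so Y t > Y s.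
    t < s close: t < s < f t < f s < t + L; with α = Y t: Nxt_h T α s < Nxt_h T α t < Nxt_h T α (f s), γ (f s) - γ s = ℓ ex (Y s), so sin (Y s - Y t) > 0, Y s > Y t.
(2) For every s: τ t - g t > τ s - g s for t > s close to s: t = f b, s = f a, b > a close to a (f is a homeomorphism: strictly increasing, surjective, continuous), τ (f b) - g (f b) = Y b > Y a.
    So for t > s close to s: g t - g s < τ t - τ s.  Hence 0 < Y t - Y s < 2 (τ t - τ s).
(3) Suppose deriv τ s <= 0, i.e. = 0 (T.curv).  α = Y s.  d t := Nxt_h T α t - Nxt_h T α s has derivative sin (τ s - α) = - sin (g s) < 0 at t = s (Nxt_der).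
    Nxt_h T α (f t) - Nxt_h T α t = ℓ_t sin (Y t - α) <= ℓ_t (Y t - α) <= 2 M (τ t - τ s) for t > s close (ℓ_t = ‖γ (f t) - γ t‖ <= M bounded: γ is bounded as T.Y is compact or periodic), and τ t - τ s = o(t - s).
    So Nxt_h T α (f t) - Nxt_h T α s <= - sin (g s) (t - s) + o(t - s) < 0 for t > s close to s.  But f t in (f s, s + L) gives > 0 by pattern: contradiction.
-/
import Mathlib
import Pool.Agent.H50.BQ.MaB

set_option autoImplicit false

namespace Pool.Agent.H50.BQ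

open Set Filter Topology Pool.Agent.H46.BL
open scoped ContDiff

private theorem hdiff (T : Table) {s θ s' θ' : ℝ} (hB : T.Bounce s θ s' θ') (a : ℝ) :
    Nxt_h T a s' - Nxt_h T a s = ‖T.γ s' - T.γ s‖ * Real.sin (T.τ s + θ - a) := by
  obtain ⟨-, -, -, -, -, ℓ, hℓ, h⟩ := hB
  have h1 : T.γ s' - T.γ s = (ℓ : ℂ) * ex (T.τ s + θ) := by
    rw [h]
    ring
  have h2 : ‖T.γ s' - T.γ s‖ = ℓ := by
    rw [h1, norm_mul, ex_norm, mul_one, Complex.norm_real, Real.norm_eq_abs, abs_of_pos hℓ]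
  rw [h2]
  unfold Nxt_h
  rw [← Complex.sub_im, ← sub_mul, h1, mul_assoc, Nxt_mul, Complex.im_ofReal_mul, Nxt_im]

private theorem dir_pos (T : Table) {s θ s' θ' t η t' η' : ℝ} (h1 : T.Bounce s θ s' θ')
    (h2 : T.Bounce t η t' η') (hst : s < t) (hts : t < s') (hst' : s' < t') (htL : t' < s + T.L)
    (hpi : -Real.pi < T.τ t + η - (T.τ s + θ)) : T.τ s + θ < T.τ t + η := by
  obtain ⟨p1, p2⟩ := pattern T h1
  have q1 := p1 t hst hts
  have q2 := p2 t' hst' htL
  have q3 := hdiff T h2 (T.τ s + θ)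
  have q4 : 0 < ‖T.γ t' - T.γ t‖ * Real.sin (T.τ t + η - (T.τ s + θ)) := by
    rw [← q3]
    linarith
  have q5 : 0 < Real.sin (T.τ t + η - (T.τ s + θ)) := by
    by_contra hc
    have := mul_nonpos_of_nonneg_of_nonpos (norm_nonneg (T.γ t' - T.γ t)) (not_lt.1 hc)
    linarith
  have q6 := Ang_pos_of_sin_pos hpi q5
  linarith

private theorem dir_one (T : Table) {g f : ℝ → ℝ} (hc : Continuous g) (hf : Continuous f)
    (hm : StrictMono f) (hb : ∀ s, T.Bounce s (g s) (f s) (g (f s))) (s : ℝ) :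
    ∀ᶠ t in 𝓝[>] s, T.τ s + g s < T.τ t + g t := by
  have hτc : Continuous T.τ := T.smooth.continuous
  have e1 : ∀ᶠ t in 𝓝 s, t < f s := eventually_lt_nhds (hb s).2.2.1
  have e2 : ∀ᶠ t in 𝓝 s, f t < s + T.L :=
    hf.continuousAt.eventually_lt continuousAt_const (hb s).2.2.2.1
  have e3 : ∀ᶠ t in 𝓝 s, -Real.pi < T.τ t + g t - (T.τ s + g s) := by
    have hcont : Continuous fun t => T.τ t + g t - (T.τ s + g s) :=
      (hτc.add hc).sub continuous_const
    refine continuousAt_const.eventually_lt hcont.continuousAt ?_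
    show -Real.pi < T.τ s + g s - (T.τ s + g s)
    rw [sub_self]
    linarith [Real.pi_pos]
  filter_upwards [mem_nhdsWithin_of_mem_nhds e1, mem_nhdsWithin_of_mem_nhds e2,
    mem_nhdsWithin_of_mem_nhds e3, self_mem_nhdsWithin] with t h1 h2 h3 h4
  exact dir_pos T (hb s) (hb t) h4 h1 (hm h4) h2 h3

/-- (1) and (2) -/
theorem dir_loc (T : Table) {g f : ℝ → ℝ} (hc : Continuous g) (hf : Continuous f) (hm : StrictMono f)
    (hs : Function.Surjective f) (hb : ∀ s, T.Bounce s (g s) (f s) (g (f s))) (s : ℝ) :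
    ∀ᶠ t in 𝓝[>] s, T.τ s + g s < T.τ t + g t ∧ T.τ s - g s < T.τ t - g t := by
  have h1 := dir_one T hc hf hm hb s
  obtain ⟨a, ha⟩ := hs s
  have h2 := dir_one T hc hf hm hb a
  obtain ⟨u, hu, hsub⟩ := (mem_nhdsGT_iff_exists_Ioo_subset).1 h2
  have hu' : a < u := hu
  have h3 : Ioo s (f u) ∈ 𝓝[>] s := Ioo_mem_nhdsGT (by
    rw [← ha]
    exact hm hu')
  filter_upwards [h1, h3] with t ht1 ht2
  refine ⟨ht1, ?_⟩
  obtain ⟨b, hbt⟩ := hs t
  have hab : a < b := by
    rw [← hm.lt_iff_lt, ha, hbt]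
    exact ht2.1
  have hbu : b < u := by
    rw [← hm.lt_iff_lt, hbt]
    exact ht2.2
  have h4 : T.τ a + g a < T.τ b + g b := hsub ⟨hab, hbu⟩
  have h5 := (hb a).2.2.2.2.1
  have h6 := (hb b).2.2.2.2.1
  rw [ha] at h5
  rw [hbt] at h6
  linarith

theorem mather (T : Table) {g : ℝ → ℝ} (hg : T.Leaf g) (s : ℝ) : 0 < deriv T.τ s := by
  obtain ⟨f, hf, hm, hs, hb⟩ := leaf_map_gen T hg
  by_contra hcon
  have h0 : deriv T.τ s = 0 := le_antisymm (not_lt.1 hcon) (T.curv s)
  obtain ⟨R, hR⟩ := T.compact.isBounded.exists_norm_le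
  have hRγ : ∀ x, ‖T.γ x‖ ≤ R := fun x => hR _ (T.γ_mem x)
  have hR0 : 0 ≤ R := (norm_nonneg _).trans (hRγ 0)
  obtain ⟨α, hα⟩ : ∃ α, α = T.τ s + g s := ⟨_, rfl⟩
  -- the comparison function
  have hτd : HasDerivAt T.τ (deriv T.τ s) s :=
    ((T.smooth.differentiable (by simp)) s).hasDerivAt
  have hH : HasDerivAt (fun t => 4 * R * T.τ t + Nxt_h T α t)
      (4 * R * deriv T.τ s + Real.sin (T.τ s - α)) s :=
    (hτd.const_mul (4 * R)).add (Nxt_der T α s)
  have hneg : 4 * R * deriv T.τ s + Real.sin (T.τ s - α) < 0 := by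
    rw [h0, mul_zero, zero_add, hα]
    have e1 : T.τ s - (T.τ s + g s) = -g s := by ring
    rw [e1, Real.sin_neg]
    have := Real.sin_pos_of_pos_of_lt_pi (hg.mem s).1 (hg.mem s).2
    linarith
  have hev : ∀ᶠ t in 𝓝[>] s, slope (fun t => 4 * R * T.τ t + Nxt_h T α t) s t < 0 := by
    have h1 := hasDerivAt_iff_tendsto_slope.1 hH
    have h2 := h1.mono_left (nhdsWithin_mono s (fun x hx => ne_of_gt hx : Ioi s ⊆ {s}ᶜ))
    exact h2.eventually_lt_const hneg
  have e2 : ∀ᶠ t in 𝓝 s, f t < s + T.L :=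
    hf.continuousAt.eventually_lt continuousAt_const (hb s).2.2.2.1
  have hfin : ∀ᶠ _t in 𝓝[>] s, False := by
    filter_upwards [hev, dir_loc T hg.cont hf hm hs hb s, mem_nhdsWithin_of_mem_nhds e2,
      self_mem_nhdsWithin] with t ht1 ht2 ht3 ht4
    have ht4' : s < t := ht4
    obtain ⟨hY, hZ⟩ := ht2
    rw [slope_def_field, div_lt_iff₀ (by linarith), zero_mul] at ht1
    -- the chord from `t`
    have h5 := hdiff T (hb t) α
    have h6 : ‖T.γ (f t) - T.γ t‖ ≤ 2 * R := by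
      have := norm_sub_le (T.γ (f t)) (T.γ t)
      linarith [hRγ (f t), hRγ t]
    have h7 : Real.sin (T.τ t + g t - α) ≤ T.τ t + g t - α := by
      apply Real.sin_le
      rw [hα]
      linarith
    have h8 : T.τ t + g t - α ≤ 2 * (T.τ t - T.τ s) := by
      rw [hα]
      linarith
    have h9 : 0 ≤ T.τ t + g t - α := by
      rw [hα]
      linarith
    have h10 : ‖T.γ (f t) - T.γ t‖ * Real.sin (T.τ t + g t - α) ≤
        2 * R * (2 * (T.τ t - T.τ s)) := by
      calc ‖T.γ (f t) - T.γ t‖ * Real.sin (T.τ t + g t - α)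
          ≤ ‖T.γ (f t) - T.γ t‖ * (T.τ t + g t - α) :=
            mul_le_mul_of_nonneg_left h7 (norm_nonneg _)
        _ ≤ 2 * R * (2 * (T.τ t - T.τ s)) := mul_le_mul h6 h8 h9 (by positivity)
    obtain ⟨-, p2⟩ := pattern T (hb s)
    have h11 := p2 (f t) (hm ht4') ht3
    rw [← hα] at h11
    linarith
  have hne : (𝓝[>] s).NeBot := inferInstance
  exact (hfin.exists).elim fun _ h => h

end Pool.Agent.H50.BQ
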