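/-
FIN : the two theorems.
-/
import Mathlib
import Pool.Agent.H46.BL.Fin
import Pool.Agent.H50.BQ.Fil
import Pool.Agent.H50.BQ.Sfx
import Pool.Agent.H50.BQ.CoS
import Pool.Agent.H50.BQ.Ell
import Pool.Agent.H50.BQ.Int9
import Pool.Agent.H50.BQ.MaC

set_option autoImplicit false

namespace Pool.Agent.H50.BQ

open Set Filter Topology Pool.Agent.H46.BL
open scoped ContDiff

/-- `dF` and `dH` are linearly independent at the boundary vector of length `r` that makes the angle `θ` with the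
tangent vector at `γ s`. -/
def Indep (T : Table) (F : ℂ → ℂ → ℝ) (r s θ : ℝ) : Prop :=
  LinearIndependent ℝ ![fderivWithin ℝ (fun z : ℂ × ℂ => F z.1 z.2) T.phase
    (T.γ s, (r : ℂ) * ex (T.τ s + θ)), fderiv ℝ energy (T.γ s, (r : ℂ) * ex (T.τ s + θ))]

variable {T : Table}

theorem ellipse_of_fill (hκ : ∀ s, 0 < deriv T.τ s) (h : ∃ g f, Lf T g f ∧ (∀ s, f (f (f s)) = s + T.L) ∧
      ∀ s θ, 0 < θ → θ < g s → ∃ g', T.Leaf g' ∧ g' s = θ) : Ellipse T := by
  obtain ⟨hh, σ, hs⟩ := sf_exists T hκ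
  obtain ⟨g, f, hl, h3, hfill⟩ := h
  obtain ⟨c1, c2, C0, C1, C2, hf⟩ := core_s hκ hs hl h3 hfill
  exact ellipse_of_formula hs hf

/-- invariant circles of periodic points for all rational rotation numbers in `(0, 1/3]` -/
theorem main_rational (T : Table) (h : ∀ p q : ℕ, Nat.Coprime p q → 0 < p → 3 * p ≤ q → Circle T p q) :
    Ellipse T := by
  have hκ : ∀ s, 0 < deriv T.τ s := by
    obtain ⟨g, hg, -⟩ := h 1 3 (by decide) one_pos le_rfl
    exact fun s => mather T hg s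
  refine ellipse_of_fill hκ (fill hκ ?_)
  intro p q hp hq
  have hd : 0 < Nat.gcd p q := Nat.gcd_pos_of_pos_left q hp
  obtain ⟨d, hdd⟩ : ∃ d, d = Nat.gcd p q := ⟨_, rfl⟩
  obtain ⟨p', hp'⟩ : d ∣ p := by rw [hdd]; exact Nat.gcd_dvd_left p q
  obtain ⟨q', hq'⟩ : d ∣ q := by rw [hdd]; exact Nat.gcd_dvd_right p q
  rw [← hdd] at hd
  have hcop : Nat.Coprime p' q' := by
    have h1 : Nat.gcd (d * p') (d * q') = d * Nat.gcd p' q' := Nat.gcd_mul_left d p' q'
    rw [← hp', ← hq', ← hdd] at h1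
    have h2 : d * Nat.gcd p' q' = d * 1 := by rw [← h1, mul_one]
    exact Nat.eq_of_mul_eq_mul_left hd h2
  have hp0 : 0 < p' := by
    rcases Nat.eq_zero_or_pos p' with h0 | h0
    · rw [h0, mul_zero] at hp'; omega
    · exact h0
  have hq0 : 3 * p' ≤ q' := by
    have h1 : d * (3 * p') ≤ d * q' := by rw [← hq']; rw [hp'] at hq; linarith
    exact Nat.le_of_mul_le_mul_left h1 hd
  obtain ⟨g, hg, hx⟩ := h p' q' hcop hp0 hq0
  obtain ⟨f, hf⟩ := lf_exists hκ hg
  have hper : ∀ s, f^[q'] s = s + p' * T.L := by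
    intro s
    obtain ⟨x, hx0, hxb, hxq⟩ := hx s
    have hxi : ∀ i, x i = f^[i] s := by
      intro i
      induction i with
      | zero => exact hx0
      | succ i ih =>
        rw [Function.iterate_succ_apply', ← ih]
        exact (hf.next hκ (hxb i)).1
    rw [← hxi, hxq]
  refine ⟨g, f, hf, fun s => ?_⟩
  have h1 := it_mul hκ hf hper d s
  rw [hq', mul_comm d q', h1, hp']
  push_cast
  ring

/-- smooth first integrals -/
theorem main_integral (T : Table) {F : ℂ → ℂ → ℝ} (hF : T.Integral F) {r : ℝ} (hr : 0 < r)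
    (ht : (∃ s k, 0 < deriv T.τ s ∧ 1 ≤ k ∧ T.gd F r k s ≠ 0) ∨ ∃ s, Indep T F r s 0)
    (hind : ∀ x θ : ℕ → ℝ, (∀ i, T.Bounce (x i) (θ i) (x (i + 1)) (θ (i + 1))) →
      (∀ n : ℕ, x (3 * n) ≤ x 0 + n * T.L) → Indep T F r (x 0) (θ 0)) : Ellipse T := by
  have hnf : ∃ s k, 0 < deriv T.τ s ∧ 1 ≤ k ∧ T.gd F r k s ≠ 0 := by
    rcases ht with h | ⟨s, hs⟩
    · exact h
    · have hs' : LinearIndependent ℝ
          ![fderivWithin ℝ (fun z : ℂ × ℂ => F z.1 z.2) T.phase (T.γ s, (r : ℂ) * ex (T.τ s)),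
            fderiv ℝ energy (T.γ s, (r : ℂ) * ex (T.τ s))] := by
        have := hs
        unfold Indep at this
        rw [add_zero] at this
        exact this
      obtain ⟨h1, h2⟩ := glancing_indep T hF hr (fun s s' => T.fn_zero_const hF hr s s') hs'
      exact ⟨s, 2, h1, by norm_num, h2⟩
  obtain ⟨hκ, -, ⟨G, ε, hfol, hlev⟩, -⟩ := main_nonflat T hF hr hnf
  exact ellipse_of_fill hκ (int9 hκ hF hr hfol hlev hind)

end Pool.Agent.H50.BQ
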