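/-
FIN2 : first integrals that are regular along the longest polygons.
-/
import Mathlib
import Pool.Agent.H1.BR.Main
import Pool.Agent.H50.BQ.Cir
import Pool.Agent.H50.BQ.Fin

set_option autoImplicit false

namespace Pool.Agent.H50.BQ

open Set Filter Topology Pool.Agent.H46.BL

theorem circle_of_circ {T : Table} (hκ : ∀ s, 0 < deriv T.τ s) {φ : ℝ → ℝ} (hφ : Pool.Agent.H1.BR.Circ T φ)
    {p q : ℕ} (hper : ∀ s, φ^[q] s = s + p * T.L) : Circle T p q := by
  obtain ⟨g, hl⟩ := leaf_of_circ hκ hφ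
  refine ⟨g, hl.leaf, fun s => ⟨fun i => φ^[i] s, rfl, fun i => ?_, hper s⟩⟩
  simp only [Function.iterate_succ_apply']
  exact hl.bou _

/-- If for all `p / q` in `(0, 1/3]` (lowest terms) every longest inscribed polygon with `q` vertices winding `p`
times has a side along which the first integral is somewhere regular, the table is an ellipse. -/
theorem main_regular (T : Table) {F : ℂ → ℂ → ℝ} (hF : T.Integral F)
    (hreg : ∀ p q : ℕ, Nat.Coprime p q → 0 < p → 3 * p ≤ q → ∀ x, Pool.Agent.H1.BR.Longest T p q x →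
      ∃ i, ∃ t ∈ Ioo (0 : ℝ) 1,
        Pool.Agent.H1.BR.Regular F (Pool.Agent.H1.BR.stt T (x i) (x (i + 1)) t)) : Ellipse T := by
  have hκ : ∀ s, 0 < deriv T.τ s :=
    (Pool.Agent.H1.BR.main_circle hF one_pos (by norm_num) (hreg 1 3 (by decide) one_pos le_rfl)).2
  refine main_rational T fun p q hc hp hpq => ?_
  obtain ⟨φ, hφ, hper⟩ :=
    (Pool.Agent.H1.BR.main_circle hF hp (by omega) (hreg p q hc hp hpq)).1
  exact circle_of_circ hκ hφ hper

end Pool.Agent.H50.BQ
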